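import Mathlib

/-!
# One common preference list: the combinatorial core, definitions

`n` men and `n` women, both `Fin n`.  All men have the same list: `rP w` is the rank of the woman `w`
(smaller is better, equal = tied).  `rB w m` is the rank of the man `m` in the list of the woman `w`.
-/

set_option autoImplicit false

namespace Pool.Agent.Lib.Wml

open Finset Equiv

variable {n : ℕ} (rP : Fin n → ℕ) (rB : Fin n → Fin n → ℕ)

/-- level of a woman: the number of women strictly before her in the common list -/
def lvF (w : Fin n) : ℕ := (univ.filter fun v => rP v < rP w).card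

/-- level of the position `t`: the largest level of a woman which is at most `t` -/
def clF (t : ℕ) : ℕ := (univ.filter fun w => lvF rP w ≤ t).sup (lvF rP)

/-- admissible pairs, for a level function `lev` of the men (`n` = not yet assigned) -/
def EF (lev : Fin n → ℕ) (x w : Fin n) : Prop :=
  lev x < n → lvF rP w = lev x ∧ ∀ m, rB w m < rB w x → lev m ≤ lev x

/-- the level function is feasible -/
def Feas (lev : Fin n → ℕ) : Prop := ∃ σ : Perm (Fin n), ∀ x, EF rP rB lev x (σ x)

/-- levels given by a list of men: the man at position `t` has the level of the position `t` -/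
def levL (L : List (Fin n)) (x : Fin n) : ℕ := if x ∈ L then clF rP (L.idxOf x) else n

def FeasL (L : List (Fin n)) : Prop := Feas rP rB (levL rP L)

/-- weakly stable -/
def StabF (M : Perm (Fin n)) : Prop := ∀ m w, ¬ (rP w < rP (M m) ∧ rB w m < rB w (M.symm w))

/-- `L` is a beginning of the code of `M` -/
def IsC (M : Perm (Fin n)) (L : List (Fin n)) : Prop :=
  ∀ (t : ℕ) (h : t < L.length), L[t] ∉ L.take t ∧ lvF rP (M L[t]) = clF rP t ∧
    FeasL rP rB (L.take (t + 1)) ∧
    ∀ y : Fin n, y < L[t] → y ∉ L.take t → lvF rP (M y) = clF rP t →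
      ¬ FeasL rP rB (L.take t ++ [y])

/-- the men excluded from the class of the position `L.length` -/
def OutL (L : List (Fin n)) (o : Fin n) : Prop :=
  ∃ (s : ℕ) (h : s < L.length), clF rP s = clF rP L.length ∧ o < L[s] ∧ o ∉ L.take s ∧
    FeasL rP rB (L.take s ++ [o])

def ValL (L : List (Fin n)) : Prop :=
  ∀ (t : ℕ) (h : t < L.length), L[t] ∉ L.take t ∧ FeasL rP rB (L.take (t + 1)) ∧
    ¬ OutL rP rB (L.take t) L[t]

def TsatL (L : List (Fin n)) : Prop :=
  ∃ τ : Perm (Fin n), ∀ x,
    (levL rP L x < clF rP L.length ↔ lvF rP (τ x) < clF rP L.length) ∧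
    (lvF rP (τ x) = clF rP L.length →
      ¬ OutL rP rB L x ∧ ∀ o, OutL rP rB L o → ¬ rB (τ x) o < rB (τ x) x)

end Pool.Agent.Lib.Wml
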