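import Pool.Agent.Lib.Wsm.Tab
import Pool.Agent.Lib.Wml.Core0

/-!
# One common preference list: the algorithm, as predicates on natural numbers and bit tables
-/

set_option autoImplicit false

namespace Pool.Agent.Lib.Wml

open Finset Equiv Pool.Agent.Lib.Wsm

/-! ### Perfect matchings of a bipartite graph: an auction

`G x w`: the bidder `x < n` may get the object `w < n`.  State: a table `T` with `2 * n` rows of length
`n`: `g2 n T w x`: the object `w` belongs to the bidder `x`; `g2 n T (n + w) j`: the price of `w` is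
larger than `j`. -/

section auction

variable (n : ℕ) (G : ℕ → ℕ → Prop) (T : List Bool)

/-- the price of `w` is at most the price of `w'` -/
def PrLe (w w' : ℕ) : Prop := ∀ j ∈ range n, g2 n T (n + w) j = true → g2 n T (n + w') j = true

/-- the price of `w` is smaller than `n` -/
def Aff (w : ℕ) : Prop := ∃ j ∈ range n, g2 n T (n + w) j = false

/-- the bidder has no object and may bid -/
def FreeB (x : ℕ) : Prop := (∀ w ∈ range n, g2 n T w x = false) ∧ ∃ w ∈ range n, G x w ∧ Aff n T w

/-- the first such bidder -/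
def SelB (x : ℕ) : Prop := FreeB n G T x ∧ ∀ x' ∈ range x, ¬ FreeB n G T x'

/-- his object: a cheapest one, the first of them -/
def Tgt (x w : ℕ) : Prop := G x w ∧ Aff n T w ∧
  ∀ w' ∈ range n, G x w' → PrLe n T w w' ∧ (PrLe n T w' w → w ≤ w')

def Bid (w : ℕ) : Prop := ∃ x ∈ range n, SelB n G T x ∧ Tgt n G T x w

/-- the new table -/
def NX (i j : ℕ) : Prop :=
  (∃ w ∈ range n, i = w ∧
    ((SelB n G T j ∧ Tgt n G T j w) ∨ (g2 n T w j = true ∧ ¬ Bid n G T w))) ∨
  ∃ w ∈ range n, i = n + w ∧
    (g2 n T (n + w) j = true ∨ (Bid n G T w ∧ ∀ j' ∈ range j, g2 n T (n + w) j' = true))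

open Classical in
noncomputable def auc : ℕ → List Bool
  | 0 => mk2 (2 * n) n (fun _ _ => false)
  | k + 1 => mk2 (2 * n) n (fun i j => decide (NX n G (auc k) i j))

/-- every bidder gets an object -/
def hasPM : Prop := ∀ x ∈ range n, ∃ w ∈ range n, g2 n (auc n G (n * n)) w x = true

end auction

/-! ### The extension test -/

/-- the common list `tP` (table `n × n`) and the lists `tB` of the other side (table `n × n × n`) -/
structure MDat where
  n : ℕ
  tP : List Bool
  tB : List Bool

namespace MDat

variable (d : MDat) (p : List Bool)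

open Classical in
/-- level of a woman -/
noncomputable def lv (w : ℕ) : ℕ := ((range d.n).filter fun v => g2 d.n d.tP v w = true).card

/-- level of a position -/
noncomputable def cl (t : ℕ) : ℕ :=
  lst (d.n + 1) (fun v => ∀ w ∈ range d.n, d.lv w ≤ t → d.lv w ≤ v)

/-- the man at position `u ≤ s` is `x`: positions `< s` from the rows of `p`, position `s` is `y` -/
def At (s y u x : ℕ) : Prop := (u < s ∧ g2 d.n p u x = true) ∨ (u = s ∧ x = y)

/-- admissible pairs -/
def GF (s y x w : ℕ) : Prop :=
  (∀ u ∈ range (s + 1), ¬ d.At p s y u x) ∨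
  ∃ u ∈ range (s + 1), d.At p s y u x ∧ d.lv w = d.cl u ∧
    ∀ m ∈ range d.n, g3 d.n d.tB w m x = true →
      ∃ v ∈ range (s + 1), d.At p s y v m ∧ d.cl v ≤ d.cl u

/-- feasibility -/
def FeaN (s y : ℕ) : Prop := hasPM d.n (d.GF p s y)

/-- men excluded from the class of the position `s + 1` -/
def OutN (s y o : ℕ) : Prop :=
  ∃ u ∈ range (s + 1), d.cl u = d.cl (s + 1) ∧ (∃ x ∈ range d.n, d.At p s y u x ∧ o < x) ∧
    (∀ v ∈ range u, g2 d.n p v o = false) ∧ d.FeaN p u o

def ValN (s y : ℕ) : Prop :=
  ∀ u ∈ range (s + 1), ∀ x ∈ range d.n, d.At p s y u x →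
    (∀ v ∈ range u, g2 d.n p v x = false) ∧ d.FeaN p u x ∧
    ∀ v ∈ range u, d.cl v = d.cl u → (∃ x' ∈ range d.n, g2 d.n p v x' = true ∧ x < x') →
      ¬ d.FeaN p v x

/-- the graph of the second test -/
def GT (s y x w : ℕ) : Prop :=
  ((∃ u ∈ range (s + 1), d.At p s y u x ∧ d.cl u < d.cl (s + 1)) ↔ d.lv w < d.cl (s + 1)) ∧
  (d.lv w = d.cl (s + 1) →
    ¬ d.OutN p s y x ∧ ∀ o ∈ range d.n, d.OutN p s y o → g3 d.n d.tB w o x = false)

def XN (s y : ℕ) : Prop := d.ValN p s y ∧ (s + 1 < d.n → hasPM d.n (d.GT p s y))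

/-- the row `u` of `p` has exactly one entry `true` -/
def OneN (u : ℕ) : Prop := ∃ x ∈ range d.n, ∀ x' ∈ range d.n, (g2 d.n p u x' = true ↔ x' = x)

/-- admissible pairs which agree with the first `r` bits of the second table of `p` -/
def GM (s y r x w : ℕ) : Prop := d.GF p s y x w ∧
  ∀ j ∈ range d.n, x * d.n + j < r →
    (p.getD (d.n * d.n + (x * d.n + j)) false = true ↔ j = w)

/-- first half: the list of men is not complete -/
def Ext1 : Prop := ∃ t ∈ range d.n, ∃ r ∈ range d.n, p.length = t * d.n + r ∧
  (∀ u ∈ range t, d.OneN p u) ∧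
  ∃ y ∈ range d.n, (∀ j ∈ range r, (g2 d.n p t j = true ↔ j = y)) ∧ d.XN p t y

/-- second half -/
def Ext2 : Prop := ∃ r ∈ range (d.n * d.n + 1), p.length = d.n * d.n + r ∧
  (∀ u ∈ range d.n, d.OneN p u) ∧
  (d.n = 0 ∨ ∃ s ∈ range d.n, s + 1 = d.n ∧ ∃ y ∈ range d.n, g2 d.n p s y = true ∧
    d.XN p s y ∧ hasPM d.n (d.GM p s y r))

/-- `p` can be extended to the code of a weakly stable matching -/
def ExtN : Prop := d.Ext1 p ∨ d.Ext2 p

end MDat

/-! ### Backtracking -/

section flash

variable (E : List Bool → Prop) (l : ℕ)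

open Classical in
noncomputable def fillN : ℕ → List Bool → List Bool
  | 0, p => p
  | k + 1, p => if (fillN k p).length < l then
      (if E (fillN k p ++ [false]) then fillN k p ++ [false] else fillN k p ++ [true])
      else fillN k p

/-- the first code which begins with `p` -/
noncomputable def fill (p : List Bool) : List Bool := fillN E l l p

open Classical in
/-- the first state -/
noncomputable def first : List Bool := if E [] then true :: fill E l [] else []

/-- `c` can be changed at the position `i` -/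
def Chg (c : List Bool) (i : ℕ) : Prop := c.getD i false = false ∧ E (c.take i ++ [true])

/-- distance of the last such position from the end -/
noncomputable def lastC (c : List Bool) : ℕ := lst l (fun e => ∃ i ∈ range l, i + e + 1 = l ∧ Chg E c i)

open Classical in
/-- the state after `c` -/
noncomputable def nextC (c : List Bool) : List Bool :=
  if ∃ i ∈ range l, Chg E c i then
    true :: fill E l (c.take (l - 1 - lastC E l c) ++ [true]) else []

end flash

/-! ### Codes of lists of men -/

/-- one row for every man of the list -/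
def bitsL {n : ℕ} (L : List (Fin n)) : List Bool :=
  L.flatMap fun y => (List.range n).map fun x => decide (x = (y : ℕ))

end Pool.Agent.Lib.Wml
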