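import Pool.Agent.Lib.Wml.AucA

/-! MODULE Wml.AucB (file Auc.lean): the result of the auction (Wml.AucA is a black box).
If all bidders have objects: the map is the perfect matching (`o1`, `o2`, `adj`).  If the bidder `x₀` has
none then (`¬ FreeB`) all `w` with `G x₀ w` have price `n` (all bits true).  At most `n - 1` objects have an
owner, the others have price 0 (`pos`); so some value `1 ≤ v ≤ n` is the price of no object (price =
number of `j` with bit true; `n` values, at most `n - 1` objects of positive price).  The bidders who own an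
object of price `> v`, and `x₀`, have all their neighbours among the objects of price `> v` (by `cs` the
price is `≥ v`, and it is not `v`; for `x₀` it is `n ≥ v`, not `v`), and these objects are owned by the first
kind of bidders: Hall violator, so there is no perfect matching `σ` (`σ` would map `m + 1` bidders
injectively into `m` objects). -/

set_option autoImplicit false

namespace Pool.Agent.Lib.Wml

open Finset Equiv Pool.Agent.Lib.Wsm

namespace AucAux

/-- the number of bits which are true -/
def cntB (n : ℕ) (b : ℕ → Bool) : ℕ := ((range n).filter fun j => b j = true).card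

theorem cntB_le (n : ℕ) (b : ℕ → Bool) : cntB n b ≤ n := by
  refine (Finset.card_filter_le _ _).trans ?_
  rw [Finset.card_range]

theorem lt_cntB {n : ℕ} {b : ℕ → Bool}
    (hpre : ∀ j < n, ∀ j' ≤ j, b j = true → b j' = true) {j : ℕ} (hj : j < n) :
    b j = true ↔ j < cntB n b := by
  constructor
  · intro h
    have h1 : range (j + 1) ⊆ (range n).filter fun j => b j = true := by
      intro i hi
      rw [mem_range] at hi
      exact mem_filter.2 ⟨mem_range.2 (by omega), hpre j hj i (by omega) h⟩
    have h2 := Finset.card_le_card h1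
    rw [Finset.card_range] at h2
    unfold cntB
    omega
  · intro h
    by_contra hb
    have h1 : ((range n).filter fun j => b j = true) ⊆ range j := by
      intro i hi
      obtain ⟨h2, h3⟩ := mem_filter.1 hi
      rw [mem_range] at h2 ⊢
      by_contra hij
      exact hb (hpre i h2 j (by omega) h3)
    have h2 := Finset.card_le_card h1
    rw [Finset.card_range] at h2
    unfold cntB at h
    omega

theorem hall (n : ℕ) (G : ℕ → ℕ → Prop) (T : List Bool) (hI : AInv n G T) {x₀ : ℕ}
    (hx₀ : x₀ < n) (hno : ∀ w < n, ¬ g2 n T w x₀ = true)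
    (hall : ∀ w < n, G x₀ w → ∀ j < n, g2 n T (n + w) j = true)
    (s : ℕ → ℕ) (hs : ∀ x < n, s x < n) (hinj : ∀ x < n, ∀ x' < n, s x = s x' → x = x')
    (hG : ∀ x < n, G x (s x)) : False := by
  classical
  obtain ⟨pr, hpr⟩ : ∃ pr : ℕ → ℕ, ∀ w, pr w = cntB n (fun j => g2 n T (n + w) j) :=
    ⟨fun w => cntB n (fun j => g2 n T (n + w) j), fun _ => rfl⟩
  have hlt : ∀ w < n, ∀ j < n, (g2 n T (n + w) j = true ↔ j < pr w) := by
    intro w hw j hj
    rw [hpr]
    exact lt_cntB (b := fun j => g2 n T (n + w) j) (fun j hj j' hj' h => hI.pre w hw j hj j' hj' h) hj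
  have hple : ∀ w, pr w ≤ n := fun w => by rw [hpr]; exact cntB_le _ _
  -- owners
  have hown : ∀ w < n, 0 < pr w → ∃ x < n, g2 n T w x = true := fun w hw h =>
    hI.pos w hw ((hlt w hw 0 (by omega)).2 h)
  obtain ⟨o, ho⟩ : ∃ o : ℕ → ℕ, ∀ w < n, 0 < pr w → o w < n ∧ g2 n T w (o w) = true := by
    refine ⟨fun w => if h : w < n ∧ 0 < pr w then (hown w h.1 h.2).choose else 0, ?_⟩
    intro w hw h
    have h' : w < n ∧ 0 < pr w := ⟨hw, h⟩
    simp only [dif_pos h']
    exact (hown w h'.1 h'.2).choose_spec
  have hoinj : ∀ w < n, 0 < pr w → ∀ w' < n, 0 < pr w' → o w = o w' → w = w' := by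
    intro w hw h w' hw' h' e
    obtain ⟨a1, a2⟩ := ho w hw h
    obtain ⟨b1, b2⟩ := ho w' hw' h'
    rw [← e] at b2
    exact hI.o2 w hw w' hw' (o w) a1 a2 b2
  -- the objects of positive price
  have hW : (((range n).filter fun w => 0 < pr w)).card ≤ n - 1 := by
    have h1 : (((range n).filter fun w => 0 < pr w)).card ≤ ((range n).erase x₀).card := by
      refine Finset.card_le_card_of_injOn o ?_ ?_
      · intro w hw
        obtain ⟨h2, h3⟩ := mem_filter.1 (mem_coe.1 hw)
        rw [mem_range] at h2
        obtain ⟨h4, h5⟩ := ho w h2 h3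
        refine mem_coe.2 (mem_erase.2 ⟨?_, mem_range.2 h4⟩)
        intro h6
        rw [h6] at h5
        exact hno w h2 h5
      · intro w hw w' hw' e
        obtain ⟨h2, h3⟩ := mem_filter.1 (mem_coe.1 hw)
        obtain ⟨h2', h3'⟩ := mem_filter.1 (mem_coe.1 hw')
        exact hoinj w (mem_range.1 h2) h3 w' (mem_range.1 h2') h3' e
    rw [Finset.card_erase_of_mem (mem_range.2 hx₀), Finset.card_range] at h1
    exact h1
  obtain ⟨v, hv1, hv2⟩ : ∃ v ∈ Finset.Icc 1 n,
      v ∉ ((range n).filter fun w => 0 < pr w).image pr := by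
    refine Finset.exists_mem_notMem_of_card_lt_card ?_
    have h1 := Finset.card_image_le (s := (range n).filter fun w => 0 < pr w) (f := pr)
    rw [Nat.card_Icc]
    omega
  rw [Finset.mem_Icc] at hv1
  have hvne : ∀ w < n, pr w ≠ v := by
    intro w hw e
    apply hv2
    exact mem_image.2 ⟨w, mem_filter.2 ⟨mem_range.2 hw, by omega⟩, e⟩
  -- the sets
  obtain ⟨N, hN⟩ : ∃ N : Finset ℕ, N = (range n).filter fun w => v < pr w := ⟨_, rfl⟩
  obtain ⟨A, hA⟩ : ∃ A : Finset ℕ, A = (range n).filter fun x => ∃ w < n, g2 n T w x = true ∧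
    v < pr w := ⟨_, rfl⟩
  have hNA : N.card ≤ A.card := by
    refine Finset.card_le_card_of_injOn o ?_ ?_
    · intro w hw
      rw [mem_coe, hN] at hw
      obtain ⟨h2, h3⟩ := mem_filter.1 hw
      rw [mem_range] at h2
      obtain ⟨h4, h5⟩ := ho w h2 (by omega)
      rw [mem_coe, hA]
      exact mem_filter.2 ⟨mem_range.2 h4, w, h2, h5, h3⟩
    · intro w hw w' hw' e
      rw [mem_coe, hN] at hw hw'
      obtain ⟨h2, h3⟩ := mem_filter.1 hw
      obtain ⟨h2', h3'⟩ := mem_filter.1 hw'
      exact hoinj w (mem_range.1 h2) (by omega) w' (mem_range.1 h2') (by omega) e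
  have hx₀A : x₀ ∉ A := by
    intro h
    rw [hA] at h
    obtain ⟨_, w, hw, h1, _⟩ := mem_filter.1 h
    exact hno w hw h1
  have hAN : (insert x₀ A).card ≤ N.card := by
    refine Finset.card_le_card_of_injOn s ?_ ?_
    · intro x hx
      rw [mem_coe] at hx
      rw [mem_coe, hN]
      rcases mem_insert.1 hx with h | h
      · rw [h]
        refine mem_filter.2 ⟨mem_range.2 (hs x₀ hx₀), ?_⟩
        have h1 := hall (s x₀) (hs x₀ hx₀) (hG x₀ hx₀) (n - 1) (by omega)
        have h2 := (hlt (s x₀) (hs x₀ hx₀) (n - 1) (by omega)).1 h1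
        have h3 := hvne (s x₀) (hs x₀ hx₀)
        have h4 := hple (s x₀)
        omega
      · rw [hA] at h
        obtain ⟨h1, w, hw, h2, h3⟩ := mem_filter.1 h
        rw [mem_range] at h1
        refine mem_filter.2 ⟨mem_range.2 (hs x h1), ?_⟩
        have h4 := hple w
        have h5 : g2 n T (n + w) (v - 1 + 1) = true :=
          (hlt w hw (v - 1 + 1) (by omega)).2 (by omega)
        have h6 := hI.cs w hw x h1 (s x) (hs x h1) h2 (hG x h1) (v - 1) (by omega) h5
        have h7 := (hlt (s x) (hs x h1) (v - 1) (by omega)).1 h6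
        have h8 := hvne (s x) (hs x h1)
        omega
    · intro x hx x' hx' e
      have hlt' : ∀ y ∈ insert x₀ A, y < n := by
        intro y hy
        rcases mem_insert.1 hy with h | h
        · rw [h]; exact hx₀
        · rw [hA] at h
          exact mem_range.1 (mem_filter.1 h).1
      exact hinj x (hlt' x (mem_coe.1 hx)) x' (hlt' x' (mem_coe.1 hx')) e
  rw [Finset.card_insert_of_notMem hx₀A] at hAN
  omega

end AucAux

open AucAux

theorem hasPM_iff (n : ℕ) (G : ℕ → ℕ → Prop) :
    hasPM n G ↔ ∃ σ : Perm (Fin n), ∀ x : Fin n, G x (σ x) := by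
  classical
  have hI := auc_inv n G (n * n)
  constructor
  · intro h
    have h' : ∀ x : Fin n, ∃ w : Fin n, g2 n (auc n G (n * n)) w x = true := by
      intro x
      obtain ⟨w, hw, h1⟩ := h x (mem_range.2 x.2)
      exact ⟨⟨w, mem_range.1 hw⟩, h1⟩
    choose f hf using h'
    have hinj : Function.Injective f := by
      intro x x' e
      have h1 := hf x
      have h2 := hf x'
      rw [← e] at h2
      exact Fin.ext (hI.o1 (f x) (f x).2 x x.2 x' x'.2 h1 h2)
    refine ⟨Equiv.ofBijective f (Finite.injective_iff_bijective.1 hinj), fun x => ?_⟩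
    exact hI.adj (f x) (f x).2 x x.2 (hf x)
  · rintro ⟨σ, hσ⟩ x hx
    by_contra hcon
    have hx' := mem_range.1 hx
    have hno : ∀ w < n, ¬ g2 n (auc n G (n * n)) w x = true := by
      intro w hw h1
      exact hcon ⟨w, mem_range.2 hw, h1⟩
    have hstop := auc_stop n G x hx'
    refine hall n G (auc n G (n * n)) hI hx' hno ?_
      (fun y => if hy : y < n then (σ ⟨y, hy⟩ : ℕ) else 0) ?_ ?_ ?_
    · intro w hw hGw j hj
      by_contra hb
      apply hstop
      refine ⟨fun w' hw' => ?_, w, mem_range.2 hw, hGw, j, mem_range.2 hj, ?_⟩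
      · exact Bool.eq_false_iff.2 (hno w' (mem_range.1 hw'))
      · exact Bool.eq_false_iff.2 hb
    · intro y hy
      simp only [dif_pos hy]
      exact (σ ⟨y, hy⟩).2
    · intro y hy y' hy' e
      simp only [dif_pos hy, dif_pos hy'] at e
      have h1 := σ.injective (Fin.ext e)
      exact congrArg Fin.val h1
    · intro y hy
      simp only [dif_pos hy]
      exact hσ ⟨y, hy⟩

end Pool.Agent.Lib.Wml
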