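import Pool.Agent.Lib.Wml.AucDefs

/-! MODULE Wml.AucA: the invariants hold after every round, and nobody is free after `n * n` rounds.
`g2_mk2` (Wsm.Tab) reads the new table.  At most one bidder `x` is selected (`SelB`: the first free
one) and he has exactly one target (`Tgt`: price least, then index least; prices are prefixes, so `PrLe`
is a linear preorder).  A round with a selected bidder makes the number of pairs `(w, j)`, `j < n`,
`g2 n T (n + w) j = true`, larger (exactly by 1), a round without one changes nothing; there are `n * n` pairs,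
and if all are `true` then nobody is free (`Aff`). -/

set_option autoImplicit false

namespace Pool.Agent.Lib.Wml

open Finset Equiv Pool.Agent.Lib.Wsm

namespace AucAAux

variable (n : ℕ) (G : ℕ → ℕ → Prop) (T : List Bool)

/-- price as a number -/
def pr (w : ℕ) : ℕ := ((range n).filter fun j => g2 n T (n + w) j = true).card

/-- prices are prefixes -/
def Pre : Prop := ∀ w < n, ∀ j < n, ∀ j' ≤ j, g2 n T (n + w) j = true → g2 n T (n + w) j' = true

theorem pr_le (w : ℕ) : pr n T w ≤ n := by
  unfold pr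
  calc _ ≤ (range n).card := card_filter_le _ _
    _ = n := card_range n

variable {n T}

theorem lt_pr (hpre : Pre n T) {w j : ℕ} (hw : w < n) (hj : j < n) :
    g2 n T (n + w) j = true ↔ j < pr n T w := by
  constructor
  · intro h
    have hsub : range (j + 1) ⊆ (range n).filter fun j => g2 n T (n + w) j = true := by
      intro i hi
      rw [mem_range] at hi
      rw [mem_filter, mem_range]
      exact ⟨by omega, hpre w hw j hj i (by omega) h⟩
    have := card_le_card hsub
    rw [card_range] at this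
    unfold pr
    omega
  · intro h
    by_contra hf
    have hsub : ((range n).filter fun j => g2 n T (n + w) j = true) ⊆ range j := by
      intro i hi
      rw [mem_filter, mem_range] at hi
      rw [mem_range]
      by_contra hij
      exact hf (hpre w hw i hi.1 j (by omega) hi.2)
    have := card_le_card hsub
    rw [card_range] at this
    unfold pr at h
    omega

theorem prLe_iff (hpre : Pre n T) {w w' : ℕ} (hw : w < n) (hw' : w' < n) :
    PrLe n T w w' ↔ pr n T w ≤ pr n T w' := by
  constructor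
  · intro h
    by_contra hlt
    have hlt' : pr n T w' < pr n T w := by omega
    have hj : pr n T w' < n := lt_of_lt_of_le hlt' (pr_le n T w)
    have h1 := h _ (mem_range.2 hj) ((lt_pr hpre hw hj).2 hlt')
    have h2 := (lt_pr hpre hw' hj).1 h1
    omega
  · intro h j hj hb
    have hj' := mem_range.1 hj
    exact (lt_pr hpre hw' hj').2 (lt_of_lt_of_le ((lt_pr hpre hw hj').1 hb) h)

theorem aff_iff (hpre : Pre n T) {w : ℕ} (hw : w < n) : Aff n T w ↔ pr n T w < n := by
  constructor
  · rintro ⟨j, hj, hb⟩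
    have hj' := mem_range.1 hj
    by_contra hge
    have := (lt_pr hpre hw hj').2 (by omega)
    rw [this] at hb
    exact Bool.noConfusion hb
  · intro h
    refine ⟨pr n T w, mem_range.2 h, ?_⟩
    by_contra hb
    have hb' : g2 n T (n + w) (pr n T w) = true := by
      cases hc : g2 n T (n + w) (pr n T w) with
      | true => rfl
      | false => exact (hb hc).elim
    have := (lt_pr hpre hw h).1 hb'
    omega

variable {G}

theorem sel_unique {x x' : ℕ} (h : SelB n G T x) (h' : SelB n G T x') : x = x' := by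
  rcases lt_trichotomy x x' with hlt | heq | hgt
  · exact (h'.2 x (mem_range.2 hlt) h.1).elim
  · exact heq
  · exact (h.2 x' (mem_range.2 hgt) h'.1).elim

theorem tgt_unique {x w w' : ℕ} (hw : w < n) (hw' : w' < n) (h : Tgt n G T x w)
    (h' : Tgt n G T x w') : w = w' := by
  obtain ⟨g1, -, a⟩ := h
  obtain ⟨g2, -, b⟩ := h'
  have a' := a w' (mem_range.2 hw') g2
  have b' := b w (mem_range.2 hw) g1
  exact le_antisymm (a'.2 b'.1) (b'.2 a'.1)

theorem sel_exists {x : ℕ} (h : FreeB n G T x) : ∃ y ≤ x, SelB n G T y := by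
  induction x using Nat.strong_induction_on with
  | _ x ih =>
    by_cases hex : ∃ x' ∈ range x, FreeB n G T x'
    · obtain ⟨x', hx', hf⟩ := hex
      obtain ⟨y, hy, hs⟩ := ih x' (mem_range.1 hx') hf
      exact ⟨y, by have := mem_range.1 hx'; omega, hs⟩
    · exact ⟨x, le_refl x, h, fun x' hx' hf => hex ⟨x', hx', hf⟩⟩

theorem tgt_exists (hpre : Pre n T) {x : ℕ} (h : FreeB n G T x) :
    ∃ w < n, Tgt n G T x w := by
  classical
  obtain ⟨-, w0, hw0, hg0, ha0⟩ := h
  -- minimal price, then minimal index: minimise `pr w * n + w`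
  have hne : ((range n).filter fun w => G x w).Nonempty :=
    ⟨w0, mem_filter.2 ⟨hw0, hg0⟩⟩
  obtain ⟨w, hw, hmin⟩ := exists_min_image ((range n).filter fun w => G x w)
    (fun w => pr n T w * n + w) hne
  rw [mem_filter, mem_range] at hw
  have key : ∀ w' < n, G x w' → pr n T w ≤ pr n T w' ∧ (pr n T w' ≤ pr n T w → w ≤ w') := by
    intro w' hw' hg'
    have h1 : pr n T w * n + w ≤ pr n T w' * n + w' :=
      hmin w' (mem_filter.2 ⟨mem_range.2 hw', hg'⟩)
    have h2 : pr n T w ≤ pr n T w' := by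
      by_contra hlt
      have h3 : pr n T w' + 1 ≤ pr n T w := by omega
      have h4 : (pr n T w' + 1) * n ≤ pr n T w * n := Nat.mul_le_mul_right n h3
      have h5 : (pr n T w' + 1) * n = pr n T w' * n + n := by ring
      omega
    refine ⟨h2, fun h3 => ?_⟩
    have h4 : pr n T w = pr n T w' := le_antisymm h2 h3
    rw [h4] at h1
    omega
  refine ⟨w, hw.1, hw.2, ?_, ?_⟩
  · rw [aff_iff hpre hw.1]
    have h1 := (key w0 (mem_range.1 hw0) hg0).1
    have h2 := (aff_iff hpre (mem_range.1 hw0)).1 ha0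
    omega
  · intro w' hw' hg'
    have hw'' := mem_range.1 hw'
    rw [prLe_iff hpre hw.1 hw'', prLe_iff hpre hw'' hw.1]
    exact key w' hw'' hg'

variable (n G T)

open Classical in
/-- one round -/
noncomputable def nx : List Bool := mk2 (2 * n) n (fun i j => decide (NX n G T i j))

theorem auc_succ (k : ℕ) : auc n G (k + 1) = nx n G (auc n G k) := rfl

variable {n G T}

theorem own_nx {w x : ℕ} (hw : w < n) (hx : x < n) : g2 n (nx n G T) w x = true ↔
    (SelB n G T x ∧ Tgt n G T x w) ∨ (g2 n T w x = true ∧ ¬ Bid n G T w) := by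
  unfold nx
  rw [g2_mk2 (by omega) hx]
  simp only [decide_eq_true_eq]
  unfold NX
  constructor
  · rintro (⟨v, hv, rfl, h⟩ | ⟨v, hv, h1, h2⟩)
    · exact h
    · omega
  · intro h
    exact Or.inl ⟨w, mem_range.2 hw, rfl, h⟩

theorem price_nx {w j : ℕ} (hw : w < n) (hj : j < n) : g2 n (nx n G T) (n + w) j = true ↔
    g2 n T (n + w) j = true ∨ (Bid n G T w ∧ ∀ j' ∈ range j, g2 n T (n + w) j' = true) := by
  unfold nx
  rw [g2_mk2 (by omega) hj]
  simp only [decide_eq_true_eq]
  unfold NX
  constructor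
  · rintro (⟨v, hv, h1, h2⟩ | ⟨v, hv, h1, h2⟩)
    · have := mem_range.1 hv
      omega
    · have hvw : v = w := by omega
      subst hvw
      exact h2
  · intro h
    exact Or.inr ⟨w, mem_range.2 hw, rfl, h⟩

theorem price_nx' (hpre : Pre n T) {w j : ℕ} (hw : w < n) (hj : j < n) :
    g2 n (nx n G T) (n + w) j = true ↔
      j < pr n T w ∨ (Bid n G T w ∧ j ≤ pr n T w) := by
  rw [price_nx hw hj, lt_pr hpre hw hj]
  have e : (∀ j' ∈ range j, g2 n T (n + w) j' = true) ↔ j ≤ pr n T w := by
    constructor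
    · intro h
      rcases Nat.eq_zero_or_pos j with h0 | h0
      · omega
      · have h1 := h (j - 1) (mem_range.2 (by omega))
        have h2 := (lt_pr hpre hw (by omega)).1 h1
        omega
    · intro h j' hj'
      have := mem_range.1 hj'
      exact (lt_pr hpre hw (by omega)).2 (by omega)
  rw [e]

theorem pre_nx (hpre : Pre n T) : Pre n (nx n G T) := by
  intro w hw j hj j' hj' h
  rw [price_nx' hpre hw hj] at h
  rw [price_nx' hpre hw (by omega)]
  rcases h with h | ⟨hb, h⟩
  · exact Or.inl (by omega)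
  · exact Or.inr ⟨hb, by omega⟩

theorem bid_of {x w : ℕ} (hx : x < n) (hs : SelB n G T x) (ht : Tgt n G T x w) : Bid n G T w :=
  ⟨x, mem_range.2 hx, hs, ht⟩

theorem inv_nx (h : AInv n G T) : AInv n G (nx n G T) := by
  have hpre : Pre n T := h.pre
  refine ⟨?_, ?_, ?_, pre_nx hpre, ?_, ?_⟩
  · intro w hw x hx x' hx' h1 h2
    rw [own_nx hw hx] at h1
    rw [own_nx hw hx'] at h2
    rcases h1 with ⟨s1, t1⟩ | ⟨o1, b1⟩
    · rcases h2 with ⟨s2, t2⟩ | ⟨o2, b2⟩
      · exact sel_unique s1 s2
      · exact (b2 (bid_of hx s1 t1)).elim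
    · rcases h2 with ⟨s2, t2⟩ | ⟨o2, b2⟩
      · exact (b1 (bid_of hx' s2 t2)).elim
      · exact h.o1 w hw x hx x' hx' o1 o2
  · intro w hw w' hw' x hx h1 h2
    rw [own_nx hw hx] at h1
    rw [own_nx hw' hx] at h2
    rcases h1 with ⟨s1, t1⟩ | ⟨o1, b1⟩
    · rcases h2 with ⟨s2, t2⟩ | ⟨o2, b2⟩
      · exact tgt_unique hw hw' t1 t2
      · have := s1.1.1 w' (mem_range.2 hw')
        rw [this] at o2
        exact Bool.noConfusion o2
    · rcases h2 with ⟨s2, t2⟩ | ⟨o2, b2⟩
      · have := s2.1.1 w (mem_range.2 hw)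
        rw [this] at o1
        exact Bool.noConfusion o1
      · exact h.o2 w hw w' hw' x hx o1 o2
  · intro w hw x hx h1
    rw [own_nx hw hx] at h1
    rcases h1 with ⟨s1, t1⟩ | ⟨o1, b1⟩
    · exact t1.1
    · exact h.adj w hw x hx o1
  · intro w hw h1
    rw [price_nx hw (by omega)] at h1
    by_cases hb : Bid n G T w
    · obtain ⟨x, hx, hs, ht⟩ := hb
      exact ⟨x, mem_range.1 hx, (own_nx hw (mem_range.1 hx)).2 (Or.inl ⟨hs, ht⟩)⟩
    · rcases h1 with h1 | ⟨h1, -⟩
      · obtain ⟨x, hx, ho⟩ := h.pos w hw h1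
        exact ⟨x, hx, (own_nx hw hx).2 (Or.inr ⟨ho, hb⟩)⟩
      · exact (hb h1).elim
  · intro w hw x hx w' hw' h1 hg j hj h2
    rw [own_nx hw hx] at h1
    rw [price_nx' hpre hw hj] at h2
    rw [price_nx' hpre hw' (by omega)]
    left
    rcases h1 with ⟨s1, t1⟩ | ⟨o1, b1⟩
    · have h3 := (t1.2.2 w' (mem_range.2 hw') hg).1
      rw [prLe_iff hpre hw hw'] at h3
      rcases h2 with h2 | ⟨-, h2⟩ <;> omega
    · rcases h2 with h2 | ⟨h2, -⟩
      · have h3 := h.cs w hw x hx w' hw' o1 hg j hj ((lt_pr hpre hw hj).2 h2)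
        exact (lt_pr hpre hw' (by omega)).1 h3
      · exact (b1 h2).elim

theorem inv_zero : AInv n G (auc n G 0) := by
  have e : ∀ i < 2 * n, ∀ j < n, g2 n (auc n G 0) i j = false := by
    intro i hi j hj
    show g2 n (mk2 (2 * n) n (fun _ _ => false)) i j = false
    rw [g2_mk2 hi hj]
  refine ⟨?_, ?_, ?_, ?_, ?_, ?_⟩
  · intro w hw x hx x' hx' h1
    rw [e w (by omega) x hx] at h1
    exact Bool.noConfusion h1
  · intro w hw w' hw' x hx h1
    rw [e w (by omega) x hx] at h1
    exact Bool.noConfusion h1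
  · intro w hw x hx h1
    rw [e w (by omega) x hx] at h1
    exact Bool.noConfusion h1
  · intro w hw j hj j' hj' h1
    rw [e (n + w) (by omega) j hj] at h1
    exact Bool.noConfusion h1
  · intro w hw h1
    rw [e (n + w) (by omega) 0 (by omega)] at h1
    exact Bool.noConfusion h1
  · intro w hw x hx w' hw' h1
    rw [e w (by omega) x hx] at h1
    exact Bool.noConfusion h1

theorem inv_all (k : ℕ) : AInv n G (auc n G k) := by
  induction k with
  | zero => exact inv_zero
  | succ k ih =>
    rw [auc_succ]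
    exact inv_nx ih

/-- the price of an object does not become smaller -/
theorem pr_mono {w : ℕ} (hw : w < n) : pr n T w ≤ pr n (nx n G T) w := by
  unfold pr
  apply card_le_card
  intro j hj
  rw [mem_filter, mem_range] at hj ⊢
  refine ⟨hj.1, ?_⟩
  rw [price_nx hw hj.1]
  exact Or.inl hj.2

theorem pr_bid (hpre : Pre n T) {w : ℕ} (hw : w < n) (hb : Bid n G T w) (ha : pr n T w < n) :
    pr n T w < pr n (nx n G T) w := by
  have h1 : g2 n (nx n G T) (n + w) (pr n T w) = true := by
    rw [price_nx' hpre hw ha]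
    exact Or.inr ⟨hb, le_refl _⟩
  exact (lt_pr (pre_nx hpre) hw ha).1 h1

theorem sum_step (hpre : Pre n T) {x : ℕ} (hx : x < n) (hf : FreeB n G T x) :
    (∑ w ∈ range n, pr n T w) + 1 ≤ ∑ w ∈ range n, pr n (nx n G T) w := by
  obtain ⟨y, hy, hs⟩ := sel_exists hf
  obtain ⟨w, hw, ht⟩ := tgt_exists hpre hs.1
  have hb : Bid n G T w := bid_of (lt_of_le_of_lt hy hx) hs ht
  have ha : pr n T w < n := (aff_iff hpre hw).1 ht.2.1
  have : ∑ w ∈ range n, pr n T w < ∑ w ∈ range n, pr n (nx n G T) w :=
    sum_lt_sum (fun v hv => pr_mono (mem_range.1 hv))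
      ⟨w, mem_range.2 hw, pr_bid hpre hw hb ha⟩
  omega

/-- a round without a free bidder changes nothing -/
theorem free_back {x : ℕ} (hx : x < n) (hf : FreeB n G (nx n G T) x) :
    ∃ y < n, FreeB n G T y := by
  by_contra hno
  have hno' : ∀ y < n, ¬ FreeB n G T y := fun y hy hy' => hno ⟨y, hy, hy'⟩
  have hnb : ∀ w, ¬ Bid n G T w := by
    rintro w ⟨y, hy, hs, -⟩
    exact hno' y (mem_range.1 hy) hs.1
  refine hno' x hx ⟨?_, ?_⟩
  · intro w hw
    have h1 := hf.1 w hw
    by_contra hne
    have hne' : g2 n T w x = true := by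
      cases hc : g2 n T w x with
      | true => rfl
      | false => exact (hne hc).elim
    have h2 := (own_nx (G := G) (mem_range.1 hw) hx).2 (Or.inr ⟨hne', hnb w⟩)
    rw [h2] at h1
    exact Bool.noConfusion h1
  · obtain ⟨w, hw, hg, j, hj, hb⟩ := hf.2
    refine ⟨w, hw, hg, j, hj, ?_⟩
    by_contra hne
    have hne' : g2 n T (n + w) j = true := by
      cases hc : g2 n T (n + w) j with
      | true => rfl
      | false => exact (hne hc).elim
    have h2 := (price_nx (G := G) (mem_range.1 hw) (mem_range.1 hj)).2 (Or.inl hne')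
    rw [h2] at hb
    exact Bool.noConfusion hb

theorem sum_ge (k : ℕ) : ∀ x < n, FreeB n G (auc n G k) x →
    k ≤ ∑ w ∈ range n, pr n (auc n G k) w := by
  induction k with
  | zero => intro x _ _; exact Nat.zero_le _
  | succ k ih =>
    intro x hx hf
    have hpre : Pre n (auc n G k) := (inv_all (G := G) k).pre
    rw [auc_succ] at hf ⊢
    obtain ⟨y, hy, hfy⟩ := free_back hx hf
    have h1 := ih y hy hfy
    have h2 := sum_step hpre hy hfy
    omega

end AucAAux

theorem auc_inv (n : ℕ) (G : ℕ → ℕ → Prop) (k : ℕ) : AInv n G (auc n G k) :=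
  AucAAux.inv_all k

theorem auc_stop (n : ℕ) (G : ℕ → ℕ → Prop) (x : ℕ) (hx : x < n) :
    ¬ FreeB n G (auc n G (n * n)) x := by
  intro hf
  have hpre : AucAAux.Pre n (auc n G (n * n)) := (auc_inv n G (n * n)).pre
  have h1 := AucAAux.sum_ge (n * n) x hx hf
  obtain ⟨w, hw, -, ha⟩ := hf.2
  have ha' := (AucAAux.aff_iff hpre (mem_range.1 hw)).1 ha
  have h2 : ∑ w ∈ range n, AucAAux.pr n (auc n G (n * n)) w < ∑ _w ∈ range n, n :=
    sum_lt_sum (fun v _ => AucAAux.pr_le n _ v) ⟨w, hw, ha'⟩
  rw [sum_const, card_range, smul_eq_mul] at h2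
  omega

end Pool.Agent.Lib.Wml
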