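import Pool.Agent.Lib.Wml.Alg

set_option autoImplicit false

namespace Pool.Agent.Lib.Wml

open Finset Equiv Pool.Agent.Lib.Wsm

/-- invariants of the auction (all indices `< n`) -/
structure AInv (n : ℕ) (G : ℕ → ℕ → Prop) (T : List Bool) : Prop where
  /-- an object has at most one owner -/
  o1 : ∀ w < n, ∀ x < n, ∀ x' < n, g2 n T w x = true → g2 n T w x' = true → x = x'
  /-- a bidder has at most one object -/
  o2 : ∀ w < n, ∀ w' < n, ∀ x < n, g2 n T w x = true → g2 n T w' x = true → w = w'
  adj : ∀ w < n, ∀ x < n, g2 n T w x = true → G x w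
  /-- prices are prefixes -/
  pre : ∀ w < n, ∀ j < n, ∀ j' ≤ j, g2 n T (n + w) j = true → g2 n T (n + w) j' = true
  /-- an object of positive price has an owner -/
  pos : ∀ w < n, g2 n T (n + w) 0 = true → ∃ x < n, g2 n T w x = true
  /-- the price of the object of `x` is at most 1 more than the price of every other admissible one -/
  cs : ∀ w < n, ∀ x < n, ∀ w' < n, g2 n T w x = true → G x w' → ∀ j, j + 1 < n →
    g2 n T (n + w) (j + 1) = true → g2 n T (n + w') j = true

end Pool.Agent.Lib.Wml
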