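import Pool.Agent.Lib.Wml.CoreA
import Pool.Agent.Lib.Wml.Auc

/-! MODULE Wml.BitA (lv_eq, cl_eq, GF_iff, FeaN_iff): the predicates on numbers are the predicates on lists (Wml.Lev, Wml.Auc are black
boxes).  `Rep d rP rB`: the tables are those of the ranks.  `Row d p L`: the first rows of `p` are
the men of `L`.  `levL` of a list without repetition: `levL L x = clF u` iff the man at position `u` is `x`. -/

set_option autoImplicit false

namespace Pool.Agent.Lib.Wml

open Finset Equiv Pool.Agent.Lib.Wsm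

structure Rep (d : MDat) (rP : Fin d.n → ℕ) (rB : Fin d.n → Fin d.n → ℕ) : Prop where
  hP : ∀ v w : Fin d.n, g2 d.n d.tP v w = true ↔ rP v < rP w
  hB : ∀ w a b : Fin d.n, g3 d.n d.tB w a b = true ↔ rB w a < rB w b

def Row (d : MDat) (p : List Bool) (L : List (Fin d.n)) : Prop :=
  ∀ (u : ℕ) (h : u < L.length) (x : Fin d.n), g2 d.n p u x = true ↔ L[u] = x

variable {d : MDat} {rP : Fin d.n → ℕ} {rB : Fin d.n → Fin d.n → ℕ}

theorem lv_eq (h : Rep d rP rB) (w : Fin d.n) : d.lv w = lvF rP w := by
  classical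
  unfold MDat.lv lvF
  symm
  refine Finset.card_bij (fun (v : Fin d.n) _ => (v : ℕ)) ?_ ?_ ?_
  · intro v hv
    have hv' : rP v < rP w := (Finset.mem_filter.1 hv).2
    exact (@Finset.mem_filter _ _ _ _ _).2 ⟨mem_range.2 v.2, (h.hP v w).2 hv'⟩
  · intro a _ b _ hab
    exact Fin.ext hab
  · intro v hv
    have hv' := (@Finset.mem_filter _ _ _ _ _).1 hv
    have hvn : v < d.n := mem_range.1 hv'.1
    exact ⟨⟨v, hvn⟩, Finset.mem_filter.2 ⟨Finset.mem_univ _, (h.hP ⟨v, hvn⟩ w).1 hv'.2⟩, rfl⟩

theorem cl_eq (h : Rep d rP rB) (t : ℕ) (ht : t < d.n) : d.cl t = clF rP t := by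
  classical
  have key : ∀ v : ℕ, (∀ w ∈ range d.n, d.lv w ≤ t → d.lv w ≤ v) ↔ clF rP t ≤ v := by
    intro v
    unfold clF
    rw [Finset.sup_le_iff]
    constructor
    · intro hv w hw
      have hw' : lvF rP w ≤ t := (Finset.mem_filter.1 hw).2
      have := hv w (mem_range.2 w.2) (by rw [lv_eq h w]; exact hw')
      rwa [lv_eq h w] at this
    · intro hv w hw hwt
      have hwn : w < d.n := mem_range.1 hw
      have e : d.lv w = lvF rP ⟨w, hwn⟩ := lv_eq h ⟨w, hwn⟩
      rw [e] at hwt ⊢
      exact hv ⟨w, hwn⟩ (Finset.mem_filter.2 ⟨Finset.mem_univ _, hwt⟩)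
  have hle : clF rP t ≤ t := clF_le rP t
  have hex : ∃ z < d.n + 1, ∀ w ∈ range d.n, d.lv w ≤ t → d.lv w ≤ z :=
    ⟨clF rP t, by omega, (key _).2 le_rfl⟩
  have hs := lst_spec hex
  unfold MDat.cl
  apply le_antisymm
  · by_contra hcon
    push Not at hcon
    exact hs.2.2 _ hcon ((key _).2 le_rfl)
  · exact (key _).1 hs.2.1

namespace BitAAux

theorem len_le {L : List (Fin d.n)} {y : Fin d.n} (hnd : (L ++ [y]).Nodup) :
    L.length + 1 ≤ d.n := by
  have h1 := hnd.length_le_card
  simpa using h1

/-- `At` in terms of the list -/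
theorem at_iff {p : List Bool} {L : List (Fin d.n)} (hp : Row d p L) (y x : Fin d.n) (u : ℕ)
    (hu : u < (L ++ [y]).length) :
    d.At p L.length y u x ↔ (L ++ [y])[u] = x := by
  unfold MDat.At
  rcases Nat.lt_or_ge u L.length with hl | hl
  · rw [List.getElem_append_left hl]
    constructor
    · rintro (⟨_, h2⟩ | ⟨h1, _⟩)
      · exact (hp u hl x).1 h2
      · omega
    · intro h
      exact Or.inl ⟨hl, (hp u hl x).2 h⟩
  · have hu' : u = L.length := by
      rw [List.length_append, List.length_singleton] at hu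
      omega
    subst hu'
    rw [List.getElem_append_right (le_refl _)]
    simp only [Nat.sub_self, List.getElem_cons_zero]
    constructor
    · rintro (⟨h1, _⟩ | ⟨_, h2⟩)
      · omega
      · exact (Fin.ext h2).symm
    · intro h
      exact Or.inr ⟨trivial, by rw [h]⟩

theorem levL_get {L : List (Fin d.n)} (hnd : L.Nodup) (u : ℕ) (hu : u < L.length) :
    levL rP L L[u] = clF rP u := by
  unfold levL
  rw [if_pos (List.getElem_mem hu), hnd.idxOf_getElem u hu]

theorem levL_notMem {L : List (Fin d.n)} {x : Fin d.n} (hx : x ∉ L) : levL rP L x = d.n := by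
  unfold levL
  rw [if_neg hx]

end BitAAux

open BitAAux

theorem GF_iff (h : Rep d rP rB) (p : List Bool) (L : List (Fin d.n)) (hp : Row d p L)
    (y : Fin d.n) (hnd : (L ++ [y]).Nodup) (x w : Fin d.n) :
    d.GF p L.length y x w ↔ EF rP rB (levL rP (L ++ [y])) x w := by
  have hlen := len_le hnd
  have hll : (L ++ [y]).length = L.length + 1 := by simp
  unfold MDat.GF EF
  by_cases hx : x ∈ L ++ [y]
  · obtain ⟨u, hu, hux⟩ := List.getElem_of_mem hx
    have hun : u < d.n := by omega
    have hlx : levL rP (L ++ [y]) x = clF rP u := by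
      rw [← hux]; exact levL_get hnd u hu
    have hcl : clF rP u < d.n := clF_lt_n rP u hun
    have hcu : d.cl u = clF rP u := cl_eq h u hun
    -- the second part
    have hsec : ∀ m : Fin d.n, (∃ v ∈ range (L.length + 1), d.At p L.length y v m ∧
        d.cl v ≤ d.cl u) ↔ levL rP (L ++ [y]) m ≤ clF rP u := by
      intro m
      constructor
      · rintro ⟨v, hv, hvm, hvc⟩
        have hvl : v < (L ++ [y]).length := by rw [hll]; exact mem_range.1 hv
        have hvn : v < d.n := by omega
        have e := (at_iff hp y m v hvl).1 hvm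
        rw [← e, levL_get hnd v hvl, ← cl_eq h v hvn, ← hcu]
        exact hvc
      · intro hm
        have hmm : m ∈ L ++ [y] := by
          by_contra hcon
          rw [levL_notMem hcon] at hm
          omega
        obtain ⟨v, hv, hvm⟩ := List.getElem_of_mem hmm
        have hvn : v < d.n := by omega
        refine ⟨v, mem_range.2 (by omega), (at_iff hp y m v hv).2 hvm, ?_⟩
        rw [cl_eq h v hvn, hcu, ← levL_get hnd v hv, hvm]
        exact hm
    constructor
    · rintro (h1 | ⟨u', hu', hat, hlv, hrest⟩)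
      · exact absurd ((at_iff hp y x u hu).2 hux) (h1 u (mem_range.2 (by omega)))
      · have hul' : u' < (L ++ [y]).length := by rw [hll]; exact mem_range.1 hu'
        have e := (at_iff hp y x u' hul').1 hat
        have huu : u' = u := by
          have : (L ++ [y])[u'] = (L ++ [y])[u] := by rw [e, hux]
          exact (hnd.getElem_inj_iff).1 this
        subst huu
        intro _
        refine ⟨?_, ?_⟩
        · rw [hlx, ← hcu, ← hlv, lv_eq h w]
        · intro m hm
          rw [hlx]
          exact (hsec m).1 (hrest m (mem_range.2 m.2) ((h.hB w m x).2 hm))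
    · intro hE
      have hE' := hE (by rw [hlx]; exact hcl)
      refine Or.inr ⟨u, mem_range.2 (by omega), (at_iff hp y x u hu).2 hux, ?_, ?_⟩
      · rw [lv_eq h w, hE'.1, hlx, hcu]
      · intro m hm hg
        have hmn : m < d.n := mem_range.1 hm
        have hr : rB w ⟨m, hmn⟩ < rB w x := (h.hB w ⟨m, hmn⟩ x).1 hg
        have h2 := hE'.2 ⟨m, hmn⟩ hr
        rw [hlx] at h2
        exact (hsec ⟨m, hmn⟩).2 h2
  · constructor
    · intro _ hlt
      rw [levL_notMem hx] at hlt
      exact absurd hlt (lt_irrefl _)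
    · intro _
      refine Or.inl ?_
      intro u hu hat
      have hul : u < (L ++ [y]).length := by rw [hll]; exact mem_range.1 hu
      have e := (at_iff hp y x u hul).1 hat
      exact hx (e ▸ List.getElem_mem hul)

theorem FeaN_iff (h : Rep d rP rB) (p : List Bool) (L : List (Fin d.n)) (hp : Row d p L)
    (y : Fin d.n) (hnd : (L ++ [y]).Nodup) :
    d.FeaN p L.length y ↔ FeasL rP rB (L ++ [y]) := by
  unfold MDat.FeaN FeasL Feas
  rw [hasPM_iff]
  constructor
  · rintro ⟨σ, hσ⟩
    exact ⟨σ, fun x => (GF_iff h p L hp y hnd x (σ x)).1 (hσ x)⟩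
  · rintro ⟨σ, hσ⟩
    exact ⟨σ, fun x => (GF_iff h p L hp y hnd x (σ x)).2 (hσ x)⟩

end Pool.Agent.Lib.Wml
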