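import Pool.Agent.Lib.Wml.BitA

/-! MODULE Wml.BitA2 (Wml.BitA, Wml.Lev, Wml.Auc are black boxes): the other predicates. `(L ++ [y]).take u =
L.take u` for `u ≤ L.length`, and `Row d p (L.take u)`.  In `ValN_iff` both sides imply that `L ++ [y]` has no
repetition. -/

set_option autoImplicit false

namespace Pool.Agent.Lib.Wml

open Finset Equiv Pool.Agent.Lib.Wsm

variable {d : MDat} {rP : Fin d.n → ℕ} {rB : Fin d.n → Fin d.n → ℕ}

namespace BitA2Aux

theorem at_iff {p : List Bool} {L : List (Fin d.n)} (hp : Row d p L) (y : Fin d.n) (u : ℕ)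
    (hu : u < (L ++ [y]).length) (x : Fin d.n) :
    d.At p L.length y u x ↔ (L ++ [y])[u] = x := by
  have hlen : (L ++ [y]).length = L.length + 1 := by simp
  rcases Nat.lt_or_ge u L.length with h | h
  · rw [List.getElem_append_left h, ← hp u h x]
    unfold MDat.At
    constructor
    · rintro (⟨_, h2⟩ | ⟨h1, _⟩)
      · exact h2
      · omega
    · intro h2
      exact Or.inl ⟨h, h2⟩
  · have hu' : u = L.length := by omega
    subst hu'
    have e : (L ++ [y])[L.length] = y := by simp
    rw [e]
    unfold MDat.At
    constructor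
    · rintro (⟨h1, _⟩ | ⟨_, h2⟩)
      · omega
      · exact (Fin.ext h2).symm
    · intro h2
      exact Or.inr ⟨rfl, by rw [h2]⟩

theorem not_mem_take_iff {p : List Bool} {L : List (Fin d.n)} (hp : Row d p L) (u : ℕ)
    (hu : u ≤ L.length) (o : Fin d.n) :
    (∀ v ∈ range u, g2 d.n p v o = false) ↔ o ∉ L.take u := by
  constructor
  · intro h hmem
    obtain ⟨v, hv, he⟩ := List.getElem_of_mem hmem
    have hv' : v < u := by
      rw [List.length_take] at hv
      omega
    have hvL : v < L.length := by omega
    have he' : L[v] = o := by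
      rw [← he, List.getElem_take]
    have h1 := (hp v hvL o).2 he'
    have h2 := h v (mem_range.2 hv')
    rw [h1] at h2
    cases h2
  · intro h v hv
    have hv' := mem_range.1 hv
    have hvL : v < L.length := by omega
    by_contra hc
    have h1 : g2 d.n p v o = true := by
      cases hg : g2 d.n p v o
      · exact absurd hg hc
      · rfl
    have he := (hp v hvL o).1 h1
    apply h
    have hvt : v < (L.take u).length := by
      rw [List.length_take]
      omega
    have e2 : (L.take u)[v] = o := by
      rw [List.getElem_take, he]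
    rw [← e2]
    exact List.getElem_mem hvt

theorem row_take {p : List Bool} {L : List (Fin d.n)} (hp : Row d p L) (u : ℕ) :
    Row d p (L.take u) := by
  intro v hv x
  rw [List.getElem_take]
  have hvL : v < L.length := by
    rw [List.length_take] at hv
    omega
  exact hp v hvL x

theorem fea_iff (h : Rep d rP rB) {p : List Bool} {L : List (Fin d.n)} (hp : Row d p L) (u : ℕ)
    (hu : u ≤ L.length) (o : Fin d.n) (hnd : (L.take u).Nodup) (ho : o ∉ L.take u) :
    d.FeaN p u o ↔ FeasL rP rB (L.take u ++ [o]) := by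
  have hnd' : (L.take u ++ [o]).Nodup := by
    rw [List.nodup_append]
    refine ⟨hnd, List.nodup_singleton o, ?_⟩
    intro a ha b hb hab
    rw [List.mem_singleton] at hb
    subst hb
    subst hab
    exact ho ha
  have := FeaN_iff h p (L.take u) (row_take hp u) o hnd'
  rw [List.length_take, Nat.min_eq_left hu] at this
  exact this

theorem take_eq (L : List (Fin d.n)) (y : Fin d.n) (u : ℕ) (hu : u ≤ L.length) :
    (L ++ [y]).take u = L.take u := List.take_append_of_le_length hu

theorem take_succ' (M : List (Fin d.n)) (u : ℕ) (hu : u < M.length) :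
    M.take (u + 1) = M.take u ++ [M[u]] := by
  rw [List.take_add_one, List.getElem?_eq_getElem hu]
  rfl

theorem nodup_take_of (M : List (Fin d.n)) (k : ℕ) (hk : k ≤ M.length)
    (h : ∀ (t : ℕ) (ht : t < M.length), t < k → M[t] ∉ M.take t) : (M.take k).Nodup := by
  induction k with
  | zero => simp
  | succ k ih =>
    have hk' : k < M.length := by omega
    rw [take_succ' M k hk', List.nodup_append]
    refine ⟨ih (by omega) (fun t ht htk => h t ht (by omega)), List.nodup_singleton _, ?_⟩
    intro a ha b hb hab
    rw [List.mem_singleton] at hb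
    subst hb
    subst hab
    exact h k hk' (by omega) ha

theorem out_iff' (M : List (Fin d.n)) (t : ℕ) (ht : t < M.length) (hx : M[t] ∉ M.take t) :
    (¬ OutL rP rB (M.take t) M[t]) ↔
      ∀ (v : ℕ) (hv : v < t), clF rP v = clF rP t → M[t] < M[v] →
        ¬ FeasL rP rB (M.take v ++ [M[t]]) := by
  have hlt : (M.take t).length = t := by
    rw [List.length_take]
    omega
  have htt : ∀ v, v < t → (M.take t).take v = M.take v := by
    intro v hv
    rw [List.take_take, Nat.min_eq_left (le_of_lt hv)]
  have hnm : ∀ v, v < t → M[t] ∉ M.take v := by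
    intro v hv hmem
    apply hx
    have := htt v hv
    rw [← this] at hmem
    exact List.mem_of_mem_take hmem
  unfold OutL
  constructor
  · intro h v hv h1 h2 h3
    apply h
    refine ⟨v, by rw [hlt]; exact hv, by rw [hlt]; exact h1, ?_, ?_, ?_⟩
    · rw [List.getElem_take]
      exact h2
    · rw [htt v hv]
      exact hnm v hv
    · rw [htt v hv]
      exact h3
  · rintro h ⟨v, hv, h1, h2, -, h3⟩
    have hv' : v < t := by rw [hlt] at hv; exact hv
    rw [hlt] at h1
    rw [List.getElem_take] at h2
    rw [htt v hv'] at h3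
    exact h v hv' h1 h2 h3

theorem lev_lt_iff (M : List (Fin d.n)) (hnd : M.Nodup) (hM : M.length < d.n) (x : Fin d.n) :
    levL rP M x < clF rP M.length ↔
      ∃ (u : ℕ) (h : u < M.length), M[u] = x ∧ clF rP u < clF rP M.length := by
  unfold levL
  by_cases hx : x ∈ M
  · rw [if_pos hx]
    constructor
    · intro h
      have h1 : M.idxOf x < M.length := List.idxOf_lt_length_of_mem hx
      exact ⟨M.idxOf x, h1, List.getElem_idxOf h1, h⟩
    · rintro ⟨u, hu, he, hlt⟩
      have h1 : M.idxOf x = u := by
        rw [← he]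
        exact List.Nodup.idxOf_getElem hnd u hu
      rw [h1]
      exact hlt
  · rw [if_neg hx]
    constructor
    · intro h
      have := clF_lt_n rP M.length hM
      omega
    · rintro ⟨u, hu, he, _⟩
      exfalso
      apply hx
      rw [← he]
      exact List.getElem_mem hu

end BitA2Aux

open BitA2Aux

theorem OutN_iff (h : Rep d rP rB) (p : List Bool) (L : List (Fin d.n)) (hp : Row d p L)
    (y : Fin d.n) (hnd : (L ++ [y]).Nodup) (hL : L.length + 1 < d.n) (o : Fin d.n) :
    d.OutN p L.length y o ↔ OutL rP rB (L ++ [y]) o := by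
  have hlen : (L ++ [y]).length = L.length + 1 := by simp
  have hndL : L.Nodup := (List.nodup_append.1 hnd).1
  have hcs := cl_eq h (L.length + 1) hL
  unfold MDat.OutN OutL
  constructor
  · rintro ⟨u, hu, h1, ⟨x, hx, hat, hox⟩, h3, h4⟩
    have hu' : u < L.length + 1 := mem_range.1 hu
    have huM : u < (L ++ [y]).length := by rw [hlen]; exact hu'
    have huL : u ≤ L.length := by omega
    have hun : u < d.n := by omega
    have hxn : x < d.n := mem_range.1 hx
    have hat' : (L ++ [y])[u] = (⟨x, hxn⟩ : Fin d.n) := (at_iff hp y u huM ⟨x, hxn⟩).1 hat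
    have ho : o ∉ L.take u := (not_mem_take_iff hp u huL o).1 h3
    refine ⟨u, huM, ?_, ?_, ?_, ?_⟩
    · rw [hlen, ← hcs, ← cl_eq h u hun]
      exact h1
    · rw [hat']
      exact hox
    · rw [take_eq L y u huL]
      exact ho
    · rw [take_eq L y u huL]
      exact (fea_iff h hp u huL o (hndL.sublist (List.take_sublist u L)) ho).1 h4
  · rintro ⟨u, huM, h1, h2, h3, h4⟩
    have hu' : u < L.length + 1 := by rw [hlen] at huM; exact huM
    have huL : u ≤ L.length := by omega
    have hun : u < d.n := by omega
    rw [take_eq L y u huL] at h3 h4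
    refine ⟨u, mem_range.2 hu', ?_, ?_, ?_, ?_⟩
    · rw [hcs, cl_eq h u hun, h1, hlen]
    · refine ⟨((L ++ [y])[u] : Fin d.n), mem_range.2 (Fin.is_lt _), ?_, h2⟩
      exact (at_iff hp y u huM _).2 rfl
    · exact (not_mem_take_iff hp u huL o).2 h3
    · exact (fea_iff h hp u huL o (hndL.sublist (List.take_sublist u L)) h3).2 h4

theorem ValN_iff (h : Rep d rP rB) (p : List Bool) (L : List (Fin d.n)) (hp : Row d p L)
    (y : Fin d.n) (hL : L.length < d.n) :
    d.ValN p L.length y ↔ ValL rP rB (L ++ [y]) := by
  have hlen : (L ++ [y]).length = L.length + 1 := by simp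
  unfold MDat.ValN ValL
  constructor
  · intro H
    -- the positions
    have key : ∀ (t : ℕ) (ht : t < (L ++ [y]).length), (L ++ [y])[t] ∉ (L ++ [y]).take t := by
      intro t ht
      have ht' : t < L.length + 1 := by rw [hlen] at ht; exact ht
      have htL : t ≤ L.length := by omega
      have := (H t (mem_range.2 ht') ((L ++ [y])[t] : Fin d.n) (mem_range.2 (Fin.is_lt _))
        ((at_iff hp y t ht _).2 rfl)).1
      rw [take_eq L y t htL]
      exact (not_mem_take_iff hp t htL _).1 this
    intro t ht
    have ht' : t < L.length + 1 := by rw [hlen] at ht; exact ht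
    have htL : t ≤ L.length := by omega
    have htn : t < d.n := by omega
    have hnm := key t ht
    have hnd : ((L ++ [y]).take t).Nodup :=
      nodup_take_of (L ++ [y]) t (le_of_lt ht) (fun t' ht' _ => key t' ht')
    obtain ⟨h1, h2, h3⟩ := H t (mem_range.2 ht') ((L ++ [y])[t] : Fin d.n)
      (mem_range.2 (Fin.is_lt _)) ((at_iff hp y t ht _).2 rfl)
    refine ⟨hnm, ?_, ?_⟩
    · rw [take_succ' _ t ht, take_eq L y t htL]
      rw [take_eq L y t htL] at hnd hnm
      exact (fea_iff h hp t htL _ hnd hnm).1 h2
    · rw [out_iff' (L ++ [y]) t ht hnm]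
      intro v hv hc hlt hf
      have hvL : v ≤ L.length := by omega
      have hvL' : v < L.length := by omega
      have hvn : v < d.n := by omega
      have hvM : v < (L ++ [y]).length := by omega
      rw [take_eq L y t htL] at hnd hnm
      rw [take_eq L y v hvL] at hf
      have hsub : (L.take t).take v = L.take v := by
        rw [List.take_take, Nat.min_eq_left (le_of_lt hv)]
      have hndv : (L.take v).Nodup := by
        rw [← hsub]
        exact hnd.sublist (List.take_sublist _ _)
      have hnmv : (L ++ [y])[t] ∉ L.take v := by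
        intro hm
        rw [← hsub] at hm
        exact hnm (List.mem_of_mem_take hm)
      refine h3 v (mem_range.2 hv) ?_ ?_ ?_
      · rw [cl_eq h v hvn, cl_eq h t htn]
        exact hc
      · refine ⟨((L ++ [y])[v] : Fin d.n), mem_range.2 (Fin.is_lt _), ?_, hlt⟩
        rw [hp v hvL' _, List.getElem_append_left hvL']
      · exact (fea_iff h hp v hvL _ hndv hnmv).2 hf
  · intro H u hu x hx hat
    have hu' : u < L.length + 1 := mem_range.1 hu
    have huM : u < (L ++ [y]).length := by rw [hlen]; exact hu'
    have huL : u ≤ L.length := by omega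
    have hun : u < d.n := by omega
    have hxn : x < d.n := mem_range.1 hx
    have hat' : (L ++ [y])[u] = (⟨x, hxn⟩ : Fin d.n) := (at_iff hp y u huM ⟨x, hxn⟩).1 hat
    have hxe : x = (((L ++ [y])[u] : Fin d.n) : ℕ) := by rw [hat']
    clear hat hx
    subst hxe
    obtain ⟨h1, h2, h3⟩ := H u huM
    have hnd : ((L ++ [y]).take u).Nodup :=
      nodup_take_of (L ++ [y]) u (le_of_lt huM) (fun t' ht' _ => (H t' ht').1)
    rw [out_iff' (L ++ [y]) u huM h1] at h3
    rw [take_succ' _ u huM, take_eq L y u huL] at h2
    rw [take_eq L y u huL] at h1 hnd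
    refine ⟨(not_mem_take_iff hp u huL _).2 h1, (fea_iff h hp u huL _ hnd h1).2 h2, ?_⟩
    intro v hv hc hex hf
    have hv' : v < u := mem_range.1 hv
    have hvL : v ≤ L.length := by omega
    have hvL' : v < L.length := by omega
    have hvn : v < d.n := by omega
    have hvM : v < (L ++ [y]).length := by omega
    obtain ⟨x', hx', hg, hlt⟩ := hex
    have hx'n : x' < d.n := mem_range.1 hx'
    have he : L[v] = (⟨x', hx'n⟩ : Fin d.n) := (hp v hvL' ⟨x', hx'n⟩).1 hg
    have hsub : (L.take u).take v = L.take v := by
      rw [List.take_take, Nat.min_eq_left (le_of_lt hv')]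
    have hndv : (L.take v).Nodup := by
      rw [← hsub]
      exact hnd.sublist (List.take_sublist _ _)
    have hnmv : (L ++ [y])[u] ∉ L.take v := by
      intro hm
      rw [← hsub] at hm
      exact h1 (List.mem_of_mem_take hm)
    refine h3 v hv' ?_ ?_ ?_
    · rw [← cl_eq h v hvn, ← cl_eq h u hun]
      exact hc
    · have e3 : (L ++ [y])[v] = (⟨x', hx'n⟩ : Fin d.n) := by
        rw [List.getElem_append_left hvL', he]
      rw [e3]
      exact hlt
    · rw [take_eq L y v hvL]
      exact (fea_iff h hp v hvL _ hndv hnmv).1 hf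

theorem TsatN_iff (h : Rep d rP rB) (p : List Bool) (L : List (Fin d.n)) (hp : Row d p L)
    (y : Fin d.n) (hnd : (L ++ [y]).Nodup) (hL : L.length + 1 < d.n) :
    hasPM d.n (d.GT p L.length y) ↔ TsatL rP rB (L ++ [y]) := by
  have hlen : (L ++ [y]).length = L.length + 1 := by simp
  have hcs := cl_eq h (L.length + 1) hL
  rw [hasPM_iff]
  unfold TsatL
  refine exists_congr fun τ => forall_congr' fun x => ?_
  unfold MDat.GT
  have e1 : (∃ u ∈ range (L.length + 1), d.At p L.length y u x ∧ d.cl u < d.cl (L.length + 1)) ↔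
      levL rP (L ++ [y]) x < clF rP (L ++ [y]).length := by
    rw [lev_lt_iff (L ++ [y]) hnd (by rw [hlen]; exact hL) x]
    constructor
    · rintro ⟨u, hu, hat, hc⟩
      have hu' : u < L.length + 1 := mem_range.1 hu
      have huM : u < (L ++ [y]).length := by rw [hlen]; exact hu'
      have hun : u < d.n := by omega
      refine ⟨u, huM, (at_iff hp y u huM x).1 hat, ?_⟩
      rw [hlen, ← hcs, ← cl_eq h u hun]
      exact hc
    · rintro ⟨u, huM, he, hc⟩
      have hu' : u < L.length + 1 := by rw [hlen] at huM; exact huM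
      have hun : u < d.n := by omega
      refine ⟨u, mem_range.2 hu', (at_iff hp y u huM x).2 he, ?_⟩
      rw [hcs, cl_eq h u hun, ← hlen]
      exact hc
  have e2 : d.lv (τ x) = lvF rP (τ x) := lv_eq h (τ x)
  have e3 : (∀ o ∈ range d.n, d.OutN p L.length y o → g3 d.n d.tB (τ x) o x = false) ↔
      (∀ o, OutL rP rB (L ++ [y]) o → ¬ rB (τ x) o < rB (τ x) x) := by
    constructor
    · intro H o ho hlt
      have h1 := H o (mem_range.2 o.is_lt) ((OutN_iff h p L hp y hnd hL o).2 ho)
      rw [(h.hB (τ x) o x).2 hlt] at h1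
      cases h1
    · intro H o ho hout
      have hon : o < d.n := mem_range.1 ho
      have h1 := H ⟨o, hon⟩ ((OutN_iff h p L hp y hnd hL ⟨o, hon⟩).1 hout)
      have h2 := h.hB (τ x) ⟨o, hon⟩ x
      cases hg : g3 d.n d.tB (τ x) o x
      · rfl
      · exact absurd (h2.1 hg) h1
  rw [e1, e2, hcs, ← hlen, e3]
  have e4 := OutN_iff h p L hp y hnd hL x
  rw [e4]

end Pool.Agent.Lib.Wml
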