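import Pool.Agent.Lib.Wml.CoreA

/-! MODULE Wml.CoreB: correctness of the extension test (uses Wml.Lev, Wml.Ext, Wml.CoreA as black boxes).

`→`: `ext_full` with `Out = OutL L`, `M` = the permutation of `FeasL L'` (`core_pm`-like argument:
`lvF (M L'[t]) = clF t`, stability from the second part of `EF`).  Minimality at `t < L.length` for
`y < L[t]`: `y = L'[t']`, `t' > t`, `clF t' = clF t`; if `t' < L.length` then `OutL (L.take t') L[t']`,
contradiction to `ValL`; if `t' ≥ L.length` then `clF t = clF L.length` and `OutL L y`.
`←`: `valL_of_isC`, `τ = M`; with `κ = clF L.length`: if `lvF (M x) < κ` then `x` is one of the first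
`κ` men of `L` (count: `card_lt_clF`, the first `κ` positions have levels `< κ`); if `OutL L o` (position
`s`, `clF s = κ`) then `lvF (M o) ≠ κ` by minimality and `lvF (M o) < κ` would give `o ∈ L.take κ ⊆ L.take s`. -/

set_option autoImplicit false

namespace Pool.Agent.Lib.Wml

open Finset Equiv

variable {n : ℕ} (rP : Fin n → ℕ) (rB : Fin n → Fin n → ℕ)

namespace CoreBAux

theorem nodup_of {L : List (Fin n)} (h : ∀ (t : ℕ) (h : t < L.length), L[t] ∉ L.take t) :
    L.Nodup := by
  rw [List.nodup_iff_injective_getElem]
  intro i j hij
  rcases lt_trichotomy i j with h1 | h1 | h1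
  · exfalso
    refine h j j.2 ?_
    rw [List.mem_take_iff_getElem]
    refine ⟨i, ?_, hij⟩
    rw [lt_min_iff]
    exact ⟨h1, i.2⟩
  · exact h1
  · exfalso
    refine h i i.2 ?_
    rw [List.mem_take_iff_getElem]
    refine ⟨j, ?_, hij.symm⟩
    rw [lt_min_iff]
    exact ⟨h1, j.2⟩

theorem feas_nil : FeasL rP rB ([] : List (Fin n)) := by
  refine ⟨1, fun x h => ?_⟩
  have h1 : levL rP ([] : List (Fin n)) x = n := by simp [levL]
  rw [h1] at h
  exact absurd h (lt_irrefl _)

theorem feas_of_val {L : List (Fin n)} (h : ValL rP rB L) : FeasL rP rB L := by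
  rcases Nat.eq_zero_or_pos L.length with h0 | h0
  · rw [List.length_eq_zero_iff] at h0
    rw [h0]
    exact feas_nil rP rB
  · have h1 := (h (L.length - 1) (by omega)).2.1
    have e : L.length - 1 + 1 = L.length := by omega
    rw [e, List.take_length] at h1
    exact h1

theorem levL_get {L : List (Fin n)} (hnd : L.Nodup) {t : ℕ} (h : t < L.length) :
    levL rP L L[t] = clF rP t := by
  unfold levL
  rw [if_pos (List.getElem_mem h), hnd.idxOf_getElem t h]

end CoreBAux

open CoreBAux

theorem core (L : List (Fin n)) (hL : L.length < n) :
    (ValL rP rB L ∧ TsatL rP rB L) ↔ ∃ M : Perm (Fin n), StabF rP rB M ∧ IsC rP rB M L := by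
  constructor
  · rintro ⟨hV, hT⟩
    have hnd : L.Nodup := nodup_of fun t h => (hV t h).1
    obtain ⟨L', hpre, hlen, hnd', ⟨M, hM⟩, hout⟩ :=
      ext_full rP rB L hnd hL (feas_of_val rP rB hV) (OutL rP rB L) hT
    have hget : ∀ (t : ℕ) (h : t < L.length) (h' : t < L'.length), L'[t] = L[t] := by
      intro t h h'
      exact (hpre.getElem h).symm
    have hmem : ∀ x : Fin n, x ∈ L' := by
      intro x
      have h1 : L'.toFinset = univ := by
        apply Finset.eq_univ_of_card
        rw [List.toFinset_card_of_nodup hnd', hlen, Fintype.card_fin]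
      have h2 : x ∈ L'.toFinset := by rw [h1]; exact mem_univ x
      exact List.mem_toFinset.mp h2
    have hlt : ∀ x, levL rP L' x < n := by
      intro x
      unfold levL
      rw [if_pos (hmem x)]
      exact clF_lt_n rP _ ((List.idxOf_lt_length_of_mem (hmem x)).trans_eq hlen)
    have hlv : ∀ x, lvF rP (M x) = levL rP L' x := fun x => (hM x (hlt x)).1
    refine ⟨M, ?_, ?_⟩
    · rintro m w ⟨h1, h2⟩
      have h3 := (hM (M.symm w) (hlt _)).2 m (by rw [Equiv.apply_symm_apply]; exact h2)
      rw [← hlv, ← hlv, Equiv.apply_symm_apply] at h3
      rw [← lvF_lt_iff] at h1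
      omega
    · intro t h
      have h' : t < L'.length := by
        rw [hlen]
        omega
      refine ⟨(hV t h).1, ?_, (hV t h).2.1, ?_⟩
      · rw [hlv, ← hget t h h', levL_get rP hnd' h']
      · intro y hy hyt hyl hF
        obtain ⟨t', ht', hty⟩ := List.getElem_of_mem (hmem y)
        have hct : clF rP t' = clF rP t := by
          rw [← levL_get rP hnd' ht', hty, ← hlv, hyl]
        have hgt : t < t' := by
          by_contra hcon
          rcases Nat.lt_or_ge t' t with h5 | h5
          · apply hyt
            rw [List.mem_take_iff_getElem]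
            refine ⟨t', ?_, ?_⟩
            · rw [lt_min_iff]
              exact ⟨h5, by omega⟩
            · rw [← hget t' (by omega) ht', hty]
          · have h6 : t' = t := by omega
            subst h6
            rw [hget t' h ht'] at hty
            rw [hty] at hy
            exact lt_irrefl _ hy
        rcases Nat.lt_or_ge t' L.length with h5 | h5
        · have h6 := (hV t' h5).2.2
          apply h6
          have hty' : L[t'] = y := by rw [← hget t' h5 ht', hty]
          have hlt' : (L.take t').length = t' := by
            rw [List.length_take]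
            omega
          refine ⟨t, by rw [hlt']; exact hgt, ?_, ?_, ?_, ?_⟩
          · rw [hlt', hct]
          · rw [hty', List.getElem_take]
            exact hy
          · rw [hty', List.take_take, Nat.min_eq_left hgt.le]
            exact hyt
          · rw [hty', List.take_take, Nat.min_eq_left hgt.le]
            exact hF
        · have h6 : clF rP t ≤ clF rP L.length := clF_mono rP h.le
          have h7 : clF rP L.length ≤ clF rP t' := clF_mono rP h5
          have h8 : clF rP t = clF rP L.length := by omega
          refine hout t' ht' h5 (by rw [hct, h8]) ?_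
          rw [hty]
          exact ⟨t, h, h8, hy, hyt, hF⟩
  · rintro ⟨M, hM, hC⟩
    have hV := valL_of_isC rP rB M hM L hC
    have hnd : L.Nodup := nodup_of fun t h => (hV t h).1
    refine ⟨hV, M, fun x => ?_⟩
    have hκn : clF rP L.length < n := clF_lt_n rP _ hL
    have hκL : clF rP L.length ≤ L.length := clF_le rP _
    -- the first men
    have hfirst : ∀ x, lvF rP (M x) < clF rP L.length → x ∈ L.take (clF rP L.length) := by
      have h1 : (L.take (clF rP L.length)).toFinset ⊆
          univ.filter fun x => lvF rP (M x) < clF rP L.length := by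
        intro x hx
        rw [List.mem_toFinset, List.mem_take_iff_getElem] at hx
        obtain ⟨t, ht, hx⟩ := hx
        rw [lt_min_iff] at ht
        rw [mem_filter]
        refine ⟨mem_univ _, ?_⟩
        rw [← hx, (hC t ht.2).2.1]
        exact (clF_le rP t).trans_lt ht.1
      have h2 : (univ.filter fun x => lvF rP (M x) < clF rP L.length).card =
          clF rP L.length := by
        rw [← card_lt_clF rP L.length hL]
        refine Finset.card_bij (fun x _ => M x) ?_ ?_ ?_
        · intro x hx
          rw [mem_filter] at hx ⊢
          refine ⟨mem_univ _, ?_⟩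
          have h3 := hx.2
          rwa [card_lt_clF rP L.length hL] at h3
        · intro x _ y _ hxy
          exact M.injective hxy
        · intro w hw
          rw [mem_filter] at hw
          refine ⟨M.symm w, ?_, Equiv.apply_symm_apply _ _⟩
          rw [mem_filter]
          refine ⟨mem_univ _, ?_⟩
          rw [Equiv.apply_symm_apply, card_lt_clF rP L.length hL]
          exact hw.2
      have h3 : (L.take (clF rP L.length)).toFinset.card = clF rP L.length := by
        rw [List.toFinset_card_of_nodup (hnd.sublist (List.take_sublist _ _)), List.length_take]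
        omega
      have h4 := Finset.eq_of_subset_of_card_le h1 (by rw [h2, h3])
      intro x hx
      have h5 : x ∈ (L.take (clF rP L.length)).toFinset := by
        rw [h4, mem_filter]
        exact ⟨mem_univ _, hx⟩
      exact List.mem_toFinset.mp h5
    have hno : ∀ x, lvF rP (M x) = clF rP L.length → ¬ OutL rP rB L x := by
      rintro x hx ⟨s, hs, h1, h2, h3, h4⟩
      exact (hC s hs).2.2.2 x h2 h3 (by rw [hx, h1]) h4
    refine ⟨?_, fun hx => ⟨hno x hx, ?_⟩⟩
    · by_cases hxL : x ∈ L
      · obtain ⟨t, ht, hxt⟩ := List.getElem_of_mem hxL
        rw [← hxt, levL_get rP hnd ht, (hC t ht).2.1]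
      · have h1 : levL rP L x = n := by
          unfold levL
          rw [if_neg hxL]
        rw [h1]
        constructor
        · intro h2
          omega
        · intro h2
          exact absurd (List.mem_of_mem_take (hfirst x h2)) hxL
    · rintro o ⟨s, hs, h1, h2, h3, h4⟩ h5
      have h6 : lvF rP (M o) ≠ clF rP L.length := fun h => hno o h ⟨s, hs, h1, h2, h3, h4⟩
      have h7 : ¬ lvF rP (M o) < clF rP L.length := by
        intro h
        apply h3
        have h8 := hfirst o h
        have h9 : clF rP L.length ≤ s := by
          rw [← h1]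
          exact clF_le rP s
        exact List.take_subset_take_left L h9 h8
      have h8 : lvF rP (M x) < lvF rP (M o) := by omega
      rw [lvF_lt_iff] at h8
      refine hM o (M x) ⟨h8, ?_⟩
      rw [Equiv.symm_apply_apply]
      exact h5

end Pool.Agent.Lib.Wml
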