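import Pool.Agent.Lib.Wml.BitA2
import Pool.Agent.Lib.Wml.CoreB

/-! MODULE Wml.BitB: codes as bit strings (Wml.CoreA is a black box).

`Code M c`: `c` is the code of `M`: the rows of the list of men (`bitsL`), then the permutation matrix
(`permBits`, Wsm.Tab). -/

set_option autoImplicit false

namespace Pool.Agent.Lib.Wml

open Finset Equiv Pool.Agent.Lib.Wsm

variable {d : MDat} {rP : Fin d.n → ℕ} {rB : Fin d.n → Fin d.n → ℕ}

/-- the code of a matching -/
def Code (rP : Fin d.n → ℕ) (rB : Fin d.n → Fin d.n → ℕ) (M : Perm (Fin d.n)) (c : List Bool) :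
    Prop := ∃ L : List (Fin d.n), L.length = d.n ∧ IsC rP rB M L ∧ c = bitsL L ++ permBits M

namespace BitBAux

theorem bitsL_eq {n : ℕ} (L : List (Fin n)) :
    bitsL L = L.flatMap fun y : Fin n => (List.range n).map fun x => decide (x = (y : ℕ)) := by
  unfold bitsL
  induction L with
  | nil => rfl
  | cons a L ih =>
    rw [List.flatMap_cons, ← ih]
    rfl

end BitBAux

open BitBAux

theorem bitsL_length {n : ℕ} (L : List (Fin n)) : (bitsL L).length = L.length * n := by
  rw [bitsL_eq, List.length_flatMap]
  simp

/-- the rows of `bitsL L`, with anything behind them -/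
theorem bitsL_row {n : ℕ} (L : List (Fin n)) (q : List Bool) (u : ℕ) (h : u < L.length)
    (x : Fin n) : g2 n (bitsL L ++ q) u x = true ↔ L[u] = x := by
  have hlt : u * n + x < (bitsL L).length := by
    rw [bitsL_length]
    calc u * n + x < u * n + n := by
          have := x.2
          omega
      _ = (u + 1) * n := by ring
      _ ≤ L.length * n := Nat.mul_le_mul_right _ h
  unfold g2
  rw [List.getD_append _ _ _ _ hlt, bitsL_eq]
  rw [TabAux.flatMap_getD (fun y : Fin n => (List.range n).map fun x => decide (x = (y : ℕ))) n L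
    (by intro y _; simp) u h x x.2, TabAux.map_getD x.2, decide_eq_true_iff]
  constructor
  · intro h1
    exact Fin.ext h1.symm
  · intro h1
    rw [h1]

namespace BitBAux

theorem row_eq {n : ℕ} (p : List Bool) (u : ℕ) (hu : (u + 1) * n ≤ p.length) (y : ℕ)
    (h : ∀ x ∈ range n, (g2 n p u x = true ↔ x = y)) :
    (p.drop (u * n)).take n = (List.range n).map fun x => decide (x = y) := by
  have h1 : (u + 1) * n = u * n + n := by ring
  apply List.ext_getElem
  · rw [List.length_take, List.length_drop, List.length_map, List.length_range]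
    omega
  · intro k hk1 hk2
    rw [List.length_map, List.length_range] at hk2
    rw [List.getElem_take, List.getElem_drop, List.getElem_map, List.getElem_range]
    have h2 := h k (mem_range.mpr hk2)
    unfold g2 at h2
    rw [List.getD_eq_getElem _ _ (by omega)] at h2
    rw [Bool.eq_iff_iff, h2, decide_eq_true_iff]

end BitBAux

open BitBAux

/-- a bit string whose first `t` rows are unit vectors -/
theorem rows_of_one (d : MDat) (p : List Bool) (t : ℕ) (ht : t * d.n ≤ p.length)
    (h : ∀ u ∈ range t, d.OneN p u) :
    ∃ L : List (Fin d.n), L.length = t ∧ Row d p L ∧ p.take (t * d.n) = bitsL L := by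
  induction t with
  | zero =>
    refine ⟨[], rfl, ?_, ?_⟩
    · intro u hu
      exact absurd hu (Nat.not_lt_zero _)
    · rw [Nat.zero_mul, List.take_zero]
      rfl
  | succ t ih =>
    have h1 : (t + 1) * d.n = t * d.n + d.n := by ring
    obtain ⟨L, hL, hR, hT⟩ := ih (by omega) fun u hu => h u (by
      rw [mem_range] at hu ⊢
      omega)
    obtain ⟨y, hy, hy2⟩ := h t (by simp)
    rw [mem_range] at hy
    refine ⟨L ++ [⟨y, hy⟩], by rw [List.length_append, hL]; rfl, ?_, ?_⟩
    · intro u hu x
      rw [List.length_append, hL, List.length_singleton] at hu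
      rcases Nat.lt_or_ge u t with h2 | h2
      · rw [List.getElem_append_left (by omega)]
        exact hR u (by omega) x
      · have h3 : u = t := by omega
        subst h3
        rw [List.getElem_append_right (by omega), hy2 x (mem_range.mpr x.2)]
        simp only [List.getElem_singleton]
        constructor
        · intro h4
          exact Fin.ext h4.symm
        · intro h4
          rw [← h4]
    · have h4 : bitsL (L ++ [⟨y, hy⟩]) =
          bitsL L ++ (List.range d.n).map fun x => decide (x = y) := by
        rw [bitsL_eq, bitsL_eq, List.flatMap_append]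
        simp
      rw [h4, h1, List.take_add, hT, row_eq p t ht y hy2]

theorem code_length {M : Perm (Fin d.n)} {c : List Bool} (h : Code rP rB M c) :
    c.length = 2 * (d.n * d.n) := by
  obtain ⟨L, hL, -, rfl⟩ := h
  rw [List.length_append, bitsL_length, permBits_length, hL]
  ring

theorem code_ex (M : Perm (Fin d.n)) (hM : StabF rP rB M) : ∃ c, Code rP rB M c := by
  obtain ⟨L, hL, hC⟩ := code_exists rP rB M hM
  exact ⟨_, L, hL, hC, rfl⟩

theorem code_unique {M : Perm (Fin d.n)} {c c' : List Bool} (h : Code rP rB M c)
    (h' : Code rP rB M c') : c = c' := by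
  obtain ⟨L, hL, hC, rfl⟩ := h
  obtain ⟨L', hL', hC', rfl⟩ := h'
  rw [isC_unique rP rB hC hC' (by rw [hL, hL'])]

/-- the matching can be read off -/
theorem code_drop {M : Perm (Fin d.n)} {c : List Bool} (h : Code rP rB M c) :
    c.drop (d.n * d.n) = permBits M := by
  obtain ⟨L, hL, -, rfl⟩ := h
  have h1 : (bitsL L).length = d.n * d.n := by rw [bitsL_length, hL]
  rw [← h1, List.drop_left]

/-- a beginning of the code with `t` men -/
theorem code_of_isC (M : Perm (Fin d.n)) (hM : StabF rP rB M) (L : List (Fin d.n))
    (hL : L.length ≤ d.n) (h : IsC rP rB M L) : ∃ c, Code rP rB M c ∧ bitsL L <+: c := by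
  obtain ⟨L', hL', hC'⟩ := code_exists rP rB M hM
  have h1 : L = L'.take L.length := isC_unique rP rB h (isC_take rP rB hC' L.length) (by
    rw [List.length_take]
    omega)
  refine ⟨_, ⟨L', hL', hC', rfl⟩, ?_⟩
  refine List.IsPrefix.trans ?_ (List.prefix_append _ _)
  refine ⟨bitsL (L'.drop L.length), ?_⟩
  have h2 : L' = L ++ L'.drop L.length := by
    conv_lhs => rw [← List.take_append_drop L.length L', ← h1]
  have h3 : bitsL L' = bitsL (L ++ L'.drop L.length) := congrArg bitsL h2
  rw [h3, bitsL_eq, bitsL_eq, bitsL_eq, List.flatMap_append]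

end Pool.Agent.Lib.Wml
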