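import Pool.Agent.Lib.Wml.BitB

/-! MODULE Wml.BitC: first half (Wml.BitA2, Wml.BitB, Wml.CoreA, Wml.CoreB are black boxes).
`p` has `t` complete rows (`rows_of_one`) and `r < n` bits of the next row; `XN p t y` is `ValL (L ++ [y])`
and, if `t + 1 < n`, `TsatL (L ++ [y])`: `core` (`t + 1 < n`), or `core_pm` with the permutation of
`FeasL (L ++ [y])` (`t + 1 = n`; `levL x < n` for all `x`). -/

set_option autoImplicit false

namespace Pool.Agent.Lib.Wml

open Finset Equiv Pool.Agent.Lib.Wsm

namespace BitCAux

theorem nodup_of_fresh {n : ℕ} (L : List (Fin n))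
    (h : ∀ (t : ℕ) (ht : t < L.length), L[t] ∉ L.take t) : L.Nodup := by
  rw [List.nodup_iff_injective_getElem]
  have key : ∀ (i j : ℕ) (hi : i < L.length) (hj : j < L.length), i < j → L[i] ≠ L[j] := by
    intro i j hi hj hij he
    apply h j hj
    rw [← he]
    rw [List.mem_iff_getElem]
    refine ⟨i, by rw [List.length_take]; omega, ?_⟩
    rw [List.getElem_take]
  intro a b hab
  rcases lt_trichotomy (a : ℕ) b with hlt | heq | hgt
  · exact absurd hab (key a b a.2 b.2 hlt)
  · exact Fin.ext heq
  · exact absurd hab.symm (key b a b.2 a.2 hgt)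

theorem valL_nodup {n : ℕ} {rP : Fin n → ℕ} {rB : Fin n → Fin n → ℕ} {L : List (Fin n)}
    (h : ValL rP rB L) : L.Nodup := nodup_of_fresh L fun t ht => (h t ht).1

theorem valL_feas {n : ℕ} {rP : Fin n → ℕ} {rB : Fin n → Fin n → ℕ} (L : List (Fin n)) (y : Fin n)
    (h : ValL rP rB (L ++ [y])) : FeasL rP rB (L ++ [y]) := by
  have h1 := (h L.length (by simp)).2.1
  have e : (L ++ [y]).take (L.length + 1) = L ++ [y] := by
    apply List.take_of_length_le
    simp
  rwa [e] at h1

/-- equality of a bit with the bit of a longer string -/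
theorem getD_of_prefix {p c : List Bool} (h : p <+: c) {i : ℕ} (hi : i < p.length) :
    p.getD i false = c.getD i false := by
  obtain ⟨q, rfl⟩ := h
  rw [List.getD_append _ _ _ _ hi]

theorem bitsL_append {n : ℕ} (L : List (Fin n)) (y : Fin n) :
    bitsL (L ++ [y]) = bitsL L ++ (List.range n).map fun x => decide (x = (y : ℕ)) := by
  simp [bitsL]

end BitCAux

open BitCAux

variable {d : MDat} {rP : Fin d.n → ℕ} {rB : Fin d.n → Fin d.n → ℕ}

theorem XN_iff (h : Rep d rP rB) (p : List Bool) (L : List (Fin d.n)) (hp : Row d p L)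
    (y : Fin d.n) (hL : L.length < d.n) :
    d.XN p L.length y ↔ ∃ M : Perm (Fin d.n), StabF rP rB M ∧ IsC rP rB M (L ++ [y]) := by
  unfold MDat.XN
  rw [ValN_iff h p L hp y hL]
  by_cases hs : L.length + 1 < d.n
  · rw [← core rP rB (L ++ [y]) (by simpa using hs)]
    constructor
    · rintro ⟨h1, h2⟩
      exact ⟨h1, (TsatN_iff h p L hp y (valL_nodup h1) hs).1 (h2 hs)⟩
    · rintro ⟨h1, h2⟩
      exact ⟨h1, fun _ => (TsatN_iff h p L hp y (valL_nodup h1) hs).2 h2⟩
  · have hn : (L ++ [y]).length = d.n := by
      rw [List.length_append, List.length_singleton]; omega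
    constructor
    · rintro ⟨h1, -⟩
      obtain ⟨σ, hσ⟩ := valL_feas L y h1
      exact ⟨σ, (core_pm rP rB (L ++ [y]) hn h1 σ).2 hσ⟩
    · rintro ⟨M, hM, hC⟩
      exact ⟨valL_of_isC rP rB M hM _ hC, fun h3 => absurd h3 hs⟩

theorem Ext1_length (p : List Bool) (h : d.Ext1 p) : p.length < d.n * d.n := by
  obtain ⟨t, ht, r, hr, hl, -⟩ := h
  rw [Finset.mem_range] at ht hr
  rw [hl]
  calc t * d.n + r < t * d.n + d.n := by omega
    _ = (t + 1) * d.n := by ring
    _ ≤ d.n * d.n := Nat.mul_le_mul_right _ ht

theorem Ext1_iff (h : Rep d rP rB) (p : List Bool) (hp : p.length < d.n * d.n) :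
    d.Ext1 p ↔ ∃ (M : Perm (Fin d.n)) (c : List Bool), StabF rP rB M ∧ Code rP rB M c ∧
      p <+: c := by
  constructor
  · rintro ⟨t, ht, r, hr, hl, h1, y, hy, hbit, hX⟩
    rw [Finset.mem_range] at ht hr hy
    obtain ⟨L, hLt, hrow, htake⟩ := rows_of_one d p t (by rw [hl]; omega) h1
    subst hLt
    obtain ⟨M, hM, hC⟩ := (XN_iff h p L hrow ⟨y, hy⟩ ht).1 hX
    obtain ⟨c, hc, hpre⟩ := code_of_isC M hM (L ++ [⟨y, hy⟩])
      (by rw [List.length_append, List.length_singleton]; omega) hC
    refine ⟨M, c, hM, hc, List.IsPrefix.trans ?_ hpre⟩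
    rw [bitsL_append, ← htake]
    have hdrop : p.drop (L.length * d.n) =
        ((List.range d.n).map fun x => decide (x = y)).take r := by
      apply List.ext_getElem
      · rw [List.length_drop, List.length_take, List.length_map, List.length_range, hl]
        omega
      · intro j hj1 hj2
        rw [List.length_drop, hl] at hj1
        have hjr : j < r := by omega
        rw [List.getElem_drop, List.getElem_take, List.getElem_map, List.getElem_range]
        have hb := hbit j (Finset.mem_range.2 hjr)
        unfold g2 at hb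
        rw [List.getD_eq_getElem _ _ (by rw [hl]; omega)] at hb
        by_cases hjy : j = y
        · rw [hb.2 hjy, decide_eq_true hjy]
        · rw [decide_eq_false hjy]
          by_contra hne
          exact hjy (hb.1 (by simpa using hne))
    have e : p = p.take (L.length * d.n) ++
        ((List.range d.n).map fun x => decide (x = y)).take r := by
      rw [← hdrop, List.take_append_drop]
    conv_lhs => rw [e]
    exact (List.prefix_append_right_inj _).2 (List.take_prefix _ _)
  · rintro ⟨M, c, hM, ⟨L, hLn, hC, hc⟩, hpre⟩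
    have hn : 0 < d.n := by
      rcases Nat.eq_zero_or_pos d.n with h0 | h0
      · rw [h0] at hp; simp at hp
      · exact h0
    have hdm := Nat.div_add_mod p.length d.n
    have hr : p.length % d.n < d.n := Nat.mod_lt _ hn
    have ht : p.length / d.n < d.n := Nat.div_lt_of_lt_mul hp
    set t := p.length / d.n with htdef
    set r := p.length % d.n with hrdef
    have hl : p.length = t * d.n + r := by rw [← hdm]; ring
    -- the bits of `p`
    have hbits : ∀ (u : ℕ) (hu : u < d.n) (x : Fin d.n), u * d.n + x < p.length →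
        (g2 d.n p u x = true ↔ L[u]'(by rw [hLn]; exact hu) = x) := by
      intro u hu x hux
      have h2 := bitsL_row L (permBits M) u (by rw [hLn]; exact hu) x
      rw [← h2, ← hc]
      unfold g2
      rw [getD_of_prefix hpre hux]
    have hfull : ∀ (u : ℕ) (x : Fin d.n), u < t → u * d.n + x < p.length := by
      intro u x hu
      rw [hl]
      have h3 : (u + 1) * d.n ≤ t * d.n := Nat.mul_le_mul_right _ hu
      have h4 : (u + 1) * d.n = u * d.n + d.n := by ring
      have := x.2
      omega
    refine ⟨t, Finset.mem_range.2 ht, r, Finset.mem_range.2 hr, hl, ?_,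
      L[t]'(by rw [hLn]; exact ht), Finset.mem_range.2 (Fin.is_lt _), ?_, ?_⟩
    · intro u hu
      rw [Finset.mem_range] at hu
      have hun : u < d.n := by omega
      refine ⟨L[u]'(by rw [hLn]; exact hun), Finset.mem_range.2 (Fin.is_lt _), ?_⟩
      intro x' hx'
      rw [Finset.mem_range] at hx'
      have h5 := hbits u hun ⟨x', hx'⟩ (hfull u ⟨x', hx'⟩ hu)
      simp only at h5
      rw [h5]
      constructor
      · intro h6; rw [h6]
      · intro h6; exact Fin.ext h6.symm
    · intro j hj
      rw [Finset.mem_range] at hj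
      have hjn : j < d.n := by omega
      have h5 := hbits t ht ⟨j, hjn⟩ (by simp only; rw [hl]; omega)
      simp only at h5
      rw [h5]
      constructor
      · intro h6; rw [h6]
      · intro h6; exact Fin.ext h6.symm
    · have hlen : (L.take t).length = t := by rw [List.length_take, hLn]; omega
      have hrow : Row d p (L.take t) := by
        intro u hu x
        rw [hlen] at hu
        rw [List.getElem_take]
        exact hbits u (by omega) x (hfull u x hu)
      have hX := (XN_iff h p (L.take t) hrow (L[t]'(by rw [hLn]; exact ht))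
        (by rw [hlen]; exact ht)).2 ⟨M, hM, by
          have h7 := isC_take rP rB hC (t + 1)
          rwa [List.take_succ_eq_append_getElem (by rw [hLn]; exact ht)] at h7⟩
      rwa [hlen] at hX

end Pool.Agent.Lib.Wml
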