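import Pool.Agent.Lib.Wml.BitC

/-! MODULE Wml.BitD: second half (Wml.BitA2, Wml.BitB, Wml.BitC (XN_iff), Wml.CoreA are black boxes).
All `n` rows are complete (`rows_of_one` with `t = n`, `L = L' ++ [y]`); `core_pm`: the weakly stable matchings
with the list `L` are the perfect matchings of `GF`; `GM` adds the agreement with the first `r` bits of the
matrix (`permBits`, `g2_permBits`).  `n = 0`: `p = []`, the only matching. -/

set_option autoImplicit false

namespace Pool.Agent.Lib.Wml

open Finset Equiv Pool.Agent.Lib.Wsm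

variable {d : MDat} {rP : Fin d.n → ℕ} {rB : Fin d.n → Fin d.n → ℕ}

theorem Ext2_length (p : List Bool) (h : d.Ext2 p) : d.n * d.n ≤ p.length := by
  obtain ⟨r, -, hl, -⟩ := h
  omega

namespace BitDAux

theorem row_take {p : List Bool} {L : List (Fin d.n)} (hp : Row d p L) (u : ℕ) :
    Row d p (L.take u) := by
  intro v hv x
  rw [List.getElem_take]
  exact hp v (by rw [List.length_take] at hv; omega) x

theorem take_last {n : ℕ} (L : List (Fin n)) (s : ℕ) (hs : s < L.length) (hs1 : s + 1 = L.length) :
    L.take s ++ [L[s]] = L := by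
  have h := List.take_concat_get' L s hs
  rw [h, hs1, List.take_length]

theorem forward (h : Rep d rP rB) (p : List Bool) (hs : ∃ r ∈ range (d.n * d.n + 1),
      p.length = d.n * d.n + r ∧ (∀ u ∈ range d.n, d.OneN p u) ∧
      ∃ s ∈ range d.n, s + 1 = d.n ∧ ∃ y ∈ range d.n, g2 d.n p s y = true ∧
        d.XN p s y ∧ hasPM d.n (d.GM p s y r)) :
    ∃ (M : Perm (Fin d.n)) (c : List Bool), StabF rP rB M ∧ Code rP rB M c ∧ p <+: c := by
  obtain ⟨r, hr, hl, h1, s, hs, hs1, y, hy, hg, hX, hPM⟩ := hs
  rw [Finset.mem_range] at hr hs hy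
  obtain ⟨L, hLn, hrow, htake⟩ := rows_of_one d p d.n (by omega) h1
  have hsL : s < L.length := by rw [hLn]; exact hs
  have hLs : L[s] = ⟨y, hy⟩ := (hrow s hsL ⟨y, hy⟩).1 hg
  have hlen : (L.take s).length = s := by rw [List.length_take]; omega
  have hcat : L.take s ++ [(⟨y, hy⟩ : Fin d.n)] = L := by
    rw [← hLs]
    exact take_last L s hsL (by rw [hLn]; exact hs1)
  have hrow' := row_take hrow s
  have hV : ValL rP rB L := by
    have h2 := (ValN_iff h p (L.take s) hrow' ⟨y, hy⟩ (by rw [hlen]; exact hs)).1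
      (by rw [hlen]; exact hX.1)
    rwa [hcat] at h2
  have hnd : L.Nodup := CoreAAux.nodup_of L fun t ht => (hV t ht).1
  obtain ⟨σ, hσ⟩ := (hasPM_iff _ _).1 hPM
  have hE : ∀ x, EF rP rB (levL rP L) x (σ x) := by
    intro x
    have h3 := (GF_iff h p (L.take s) hrow' ⟨y, hy⟩ (by rw [hcat]; exact hnd) x (σ x)).1
      (by rw [hlen]; exact (hσ x).1)
    rwa [hcat] at h3
  obtain ⟨hS, hC⟩ := (core_pm rP rB L hLn hV σ).2 hE
  refine ⟨σ, bitsL L ++ permBits σ, hS, ⟨L, hLn, hC, rfl⟩, ?_⟩
  have hdrop : p.drop (d.n * d.n) = (permBits σ).take r := by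
    apply List.ext_getElem
    · rw [List.length_drop, List.length_take, permBits_length, hl]
      omega
    · intro j hj1 hj2
      rw [List.length_drop, hl] at hj1
      have hjr : j < r := by omega
      have hn : 0 < d.n := by omega
      have hdm := Nat.div_add_mod j d.n
      have hw : j % d.n < d.n := Nat.mod_lt _ hn
      have hx : j / d.n < d.n := Nat.div_lt_of_lt_mul (by omega)
      have hj : j / d.n * d.n + j % d.n = j := by rw [mul_comm]; exact hdm
      have h4 := (hσ ⟨j / d.n, hx⟩).2 (j % d.n) (Finset.mem_range.2 hw)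
        (by simp only; rw [hj]; exact hjr)
      simp only at h4
      rw [hj, List.getD_eq_getElem _ _ (by omega)] at h4
      have h5 := g2_permBits σ ⟨j / d.n, hx⟩ ⟨j % d.n, hw⟩
      unfold g2 at h5
      simp only at h5
      rw [hj, List.getD_eq_getElem _ _ (by rw [permBits_length]; omega)] at h5
      rw [List.getElem_drop, List.getElem_take, h5]
      by_cases he : σ ⟨j / d.n, hx⟩ = ⟨j % d.n, hw⟩
      · rw [decide_eq_true he]
        exact h4.2 (by rw [he])
      · rw [decide_eq_false he]
        by_contra hne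
        apply he
        have h6 := h4.1 (by simpa using hne)
        exact (Fin.ext h6).symm
  have e : p = p.take (d.n * d.n) ++ (permBits σ).take r := by
    rw [← hdrop, List.take_append_drop]
  rw [e, htake]
  exact (List.prefix_append_right_inj _).2 (List.take_prefix _ _)

theorem backward (h : Rep d rP rB) (p : List Bool) (hp : d.n * d.n ≤ p.length)
    (hp' : p.length ≤ 2 * (d.n * d.n)) (hn : 0 < d.n) (M : Perm (Fin d.n)) (c : List Bool)
    (hM : StabF rP rB M) (hcode : Code rP rB M c) (hpre : p <+: c) : d.Ext2 p := by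
  obtain ⟨L, hLn, hC, hc⟩ := hcode
  have hLb : (bitsL L).length = d.n * d.n := by rw [bitsL_length, hLn]
  have hsn : d.n - 1 + 1 = d.n := by omega
  have hs : d.n - 1 < d.n := by omega
  set s := d.n - 1 with hsd
  have hsL : s < L.length := by rw [hLn]; exact hs
  have hlen : (L.take s).length = s := by rw [List.length_take]; omega
  have hcat : L.take s ++ [L[s]] = L := take_last L s hsL (by rw [hLn]; exact hsn)
  -- the bits of `p`
  have hbits : ∀ (u : ℕ) (hu : u < d.n) (x : Fin d.n),
      (g2 d.n p u x = true ↔ L[u]'(by rw [hLn]; exact hu) = x) := by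
    intro u hu x
    have hux : u * d.n + x < p.length := by
      have h3 : (u + 1) * d.n ≤ d.n * d.n := Nat.mul_le_mul_right _ hu
      have h4 : (u + 1) * d.n = u * d.n + d.n := by ring
      have := x.2
      omega
    have h2 := bitsL_row L (permBits M) u (by rw [hLn]; exact hu) x
    rw [← h2, ← hc]
    unfold g2
    rw [BitCAux.getD_of_prefix hpre hux]
  have hrow : Row d p L := fun u hu x => hbits u (by rw [← hLn]; exact hu) x
  have hrow' := row_take hrow s
  have hV := valL_of_isC rP rB M hM L hC
  have hnd : L.Nodup := CoreAAux.nodup_of L fun t ht => (hV t ht).1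
  refine ⟨p.length - d.n * d.n, Finset.mem_range.2 (by omega), by omega, ?_, Or.inr
    ⟨s, Finset.mem_range.2 hs, hsn, L[s], Finset.mem_range.2 (Fin.is_lt _), ?_, ?_, ?_⟩⟩
  · intro u hu
    rw [Finset.mem_range] at hu
    refine ⟨L[u]'(by rw [hLn]; exact hu), Finset.mem_range.2 (Fin.is_lt _), ?_⟩
    intro x' hx'
    rw [Finset.mem_range] at hx'
    have h5 := hbits u hu ⟨x', hx'⟩
    simp only at h5
    rw [h5]
    constructor
    · intro h6; rw [h6]
    · intro h6; exact Fin.ext h6.symm
  · exact (hbits s hs L[s]).2 rfl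
  · have hX := (XN_iff h p (L.take s) hrow' L[s] (by rw [hlen]; exact hs)).2
      ⟨M, hM, by rw [hcat]; exact hC⟩
    rwa [hlen] at hX
  · rw [hasPM_iff]
    refine ⟨M, fun x => ⟨?_, ?_⟩⟩
    · have h3 := (GF_iff h p (L.take s) hrow' L[s] (by rw [hcat]; exact hnd) x (M x)).2
        (by rw [hcat]; exact (core_pm rP rB L hLn hV M).1 ⟨hM, hC⟩ x)
      rwa [hlen] at h3
    · intro j hj hjr
      rw [Finset.mem_range] at hj
      rw [BitCAux.getD_of_prefix hpre (by omega), hc,
        List.getD_append_right _ _ _ _ (by rw [hLb]; omega), hLb, Nat.add_sub_cancel_left]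
      have h5 := g2_permBits M x ⟨j, hj⟩
      unfold g2 at h5
      simp only at h5
      rw [h5, decide_eq_true_eq]
      constructor
      · intro h6; rw [h6]
      · intro h6; exact Fin.ext h6.symm

end BitDAux

theorem Ext2_iff (h : Rep d rP rB) (p : List Bool) (hp : d.n * d.n ≤ p.length)
    (hp' : p.length ≤ 2 * (d.n * d.n)) :
    d.Ext2 p ↔ ∃ (M : Perm (Fin d.n)) (c : List Bool), StabF rP rB M ∧ Code rP rB M c ∧
      p <+: c := by
  rcases Nat.eq_zero_or_pos d.n with h0 | hn
  · have hp0 : p = [] := by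
      have : p.length = 0 := by rw [h0] at hp'; omega
      exact List.length_eq_zero_iff.1 this
    subst hp0
    constructor
    · intro _
      have hM : StabF rP rB (1 : Perm (Fin d.n)) := fun m => by
        exact absurd m.2 (by omega)
      obtain ⟨c, hc⟩ := code_ex (rP := rP) (rB := rB) 1 hM
      exact ⟨1, c, hM, hc, List.nil_prefix⟩
    · intro _
      refine ⟨0, Finset.mem_range.2 (by omega), by rw [h0]; rfl, ?_, Or.inl h0⟩
      intro u hu
      rw [h0] at hu
      simp at hu
  · constructor
    · rintro ⟨r, hr, hl, h1, h2⟩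
      rcases h2 with h2 | h2
      · omega
      · exact BitDAux.forward h p ⟨r, hr, hl, h1, h2⟩
    · rintro ⟨M, c, hM, hcode, hpre⟩
      exact BitDAux.backward h p hp hp' hn M c hM hcode hpre

end Pool.Agent.Lib.Wml
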