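import Pool.Agent.Lib.Wsm.Smt

/-!
# Instances in which one side has a common preference list
-/

namespace Pool.Agent.Lib.Wml

open Pool.Agent.Lib.Wsm

/-- All persons of the side with the ranks `r` have the same preference list: any two persons `p`
and `q` agree on which of `a` and `b` is strictly preferred. -/
def CommonList {n : ℕ} (r : Fin n → Fin n → Fin n) : Prop :=
  ∀ p q a b, r p a < r p b ↔ r q a < r q b

/-- All men have the same list, or all women have the same list.  The lists may contain ties, and
the lists of the other side are arbitrary. -/
def CommonSide (I : SMT) : Prop := CommonList I.man ∨ CommonList I.woman

end Pool.Agent.Lib.Wml
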