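import Pool.Agent.Lib.Wml.Ext

/-! MODULE Wml.CoreA: codes (uses Wml.Lev, Wml.Ext as black boxes).

`core_pm`: `→`: `levL L x = lvF (M x)`.  `←`: stability from the second part of `EF`; if the
minimality fails at `t` for `y` then `y = L[t']` for some `t' > t` with the same level, and
`OutL (L.take t') y`.  `core`: `→`: `ext_full` with `Out = OutL L`, `M` = the permutation of
`FeasL L'`.  `←`: `τ = M`.  `code_next`: `ext_one` with `lev' x = lvF (M x)` if this is
`≤ clF L.length`, else `n`. -/

set_option autoImplicit false

namespace Pool.Agent.Lib.Wml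

open Finset Equiv

variable {n : ℕ} (rP : Fin n → ℕ) (rB : Fin n → Fin n → ℕ)

namespace CoreAAux

theorem nodup_of (L : List (Fin n)) (h : ∀ (t : ℕ) (ht : t < L.length), L[t] ∉ L.take t) :
    L.Nodup := by
  rw [List.nodup_iff_injective_get]
  intro a b hab
  by_contra hne
  rcases lt_trichotomy a.1 b.1 with hlt | heq | hlt
  · apply h b.1 b.2
    rw [List.mem_take_iff_getElem]
    refine ⟨a.1, by have := a.2; omega, ?_⟩
    simpa using hab
  · exact hne (Fin.ext heq)
  · apply h a.1 a.2
    rw [List.mem_take_iff_getElem]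
    refine ⟨b.1, by have := b.2; omega, ?_⟩
    simpa using hab.symm

theorem mem_of_full (L : List (Fin n)) (hnd : L.Nodup) (hL : L.length = n) (x : Fin n) :
    x ∈ L := by
  have h1 : L.toFinset.card = n := by rw [List.toFinset_card_of_nodup hnd, hL]
  have h2 : L.toFinset = univ := by
    apply Finset.eq_univ_of_card
    rw [h1, Fintype.card_fin]
  have h3 : x ∈ L.toFinset := by rw [h2]; exact Finset.mem_univ _
  exact List.mem_toFinset.1 h3

theorem levL_get (L : List (Fin n)) (hnd : L.Nodup) (t : ℕ) (ht : t < L.length) :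
    levL rP L L[t] = clF rP t := by
  unfold levL
  rw [if_pos (List.getElem_mem ht), hnd.idxOf_getElem t ht]

theorem take_take_of_le (L : List (Fin n)) {s t : ℕ} (h : s ≤ t) :
    (L.take t).take s = L.take s := by
  rw [List.take_take, Nat.min_eq_left h]

theorem feasL_nil : FeasL rP rB ([] : List (Fin n)) := by
  refine ⟨1, fun x => ?_⟩
  intro hlt
  simp [levL] at hlt

end CoreAAux

open CoreAAux

theorem core_pm (L : List (Fin n)) (hL : L.length = n) (hV : ValL rP rB L) (M : Perm (Fin n)) :
    (StabF rP rB M ∧ IsC rP rB M L) ↔ ∀ x, EF rP rB (levL rP L) x (M x) := by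
  have hnd : L.Nodup := nodup_of L (fun t ht => (hV t ht).1)
  have hmem := mem_of_full L hnd hL
  constructor
  · rintro ⟨hS, hC⟩
    have hlev : ∀ x, levL rP L x = lvF rP (M x) := by
      intro x
      obtain ⟨t, ht, rfl⟩ := List.getElem_of_mem (hmem x)
      rw [levL_get rP L hnd t ht, (hC t ht).2.1]
    intro x _
    refine ⟨(hlev x).symm, fun m hm => ?_⟩
    rw [hlev, hlev]
    by_contra hlt
    push Not at hlt
    apply hS m (M x)
    refine ⟨(lvF_lt_iff rP _ _).1 hlt, ?_⟩
    rw [Equiv.symm_apply_apply]
    exact hm
  · intro hE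
    have hlev : ∀ x, levL rP L x = lvF rP (M x) := by
      intro x
      have hlt : levL rP L x < n := by
        obtain ⟨t, ht, rfl⟩ := List.getElem_of_mem (hmem x)
        rw [levL_get rP L hnd t ht]
        exact clF_lt_n rP t (hL ▸ ht)
      exact ((hE x) hlt).1.symm
    have hltn : ∀ x, levL rP L x < n := fun x => by rw [hlev]; exact lvF_lt_n rP _
    refine ⟨?_, ?_⟩
    · rintro m w ⟨h1, h2⟩
      have h3 := ((hE (M.symm w)) (hltn _)).2 m (by rw [Equiv.apply_symm_apply]; exact h2)
      rw [hlev, hlev, Equiv.apply_symm_apply] at h3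
      have h4 := (lvF_lt_iff rP w (M m)).2 h1
      omega
    · intro t ht
      refine ⟨(hV t ht).1, ?_, (hV t ht).2.1, ?_⟩
      · rw [← hlev, levL_get rP L hnd t ht]
      · intro y hy hyt hly hF
        obtain ⟨t', ht', rfl⟩ := List.getElem_of_mem (hmem y)
        have h1 : t ≤ t' := by
          by_contra hlt
          push Not at hlt
          apply hyt
          rw [List.mem_take_iff_getElem]
          exact ⟨t', by omega, rfl⟩
        have h2 : t ≠ t' := by
          rintro rfl
          exact lt_irrefl _ hy
        have h3 : t < t' := lt_of_le_of_ne h1 h2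
        apply (hV t' ht').2.2
        have hlen : (L.take t').length = t' := by rw [List.length_take]; omega
        refine ⟨t, by omega, ?_, ?_, ?_, ?_⟩
        · rw [hlen, ← hly, ← hlev, levL_get rP L hnd t' ht']
        · rw [List.getElem_take]; exact hy
        · rw [take_take_of_le L h1]; exact hyt
        · rw [take_take_of_le L h1]; exact hF

theorem valL_of_isC (M : Perm (Fin n)) (hM : StabF rP rB M) (L : List (Fin n))
    (h : IsC rP rB M L) : ValL rP rB L := by
  intro t ht
  refine ⟨(h t ht).1, (h t ht).2.2.1, ?_⟩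
  rintro ⟨s, hs, hcl, hlt, hnot, hF⟩
  have hlen : (L.take t).length = t := by rw [List.length_take]; omega
  have hst : s < t := by omega
  have hs' : s < L.length := by omega
  rw [List.getElem_take] at hlt
  rw [take_take_of_le L hst.le] at hnot hF
  refine (h s hs').2.2.2 L[t] hlt hnot ?_ hF
  rw [(h t ht).2.1, hcl, hlen]

theorem code_next (M : Perm (Fin n)) (hM : StabF rP rB M) (L : List (Fin n))
    (hL : L.length < n) (h : IsC rP rB M L) : ∃ y, IsC rP rB M (L ++ [y]) := by
  classical
  have hnd : L.Nodup := nodup_of L (fun t ht => (h t ht).1)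
  have hκ : clF rP L.length < n := clF_lt_n rP _ hL
  have hF : FeasL rP rB L := by
    rcases Nat.eq_zero_or_pos L.length with h0 | hpos
    · rw [List.length_eq_zero_iff.1 h0]
      exact feasL_nil rP rB
    · have h1 := (h (L.length - 1) (by omega)).2.2.1
      rwa [show L.length - 1 + 1 = L.length by omega, List.take_length] at h1
  set κ := clF rP L.length with hκd
  set lev' : Fin n → ℕ := fun x => if lvF rP (M x) ≤ κ then lvF rP (M x) else n with hlev'
  have hl1 : ∀ x, lvF rP (M x) ≤ κ → lev' x = lvF rP (M x) := fun x hx => if_pos hx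
  have hl2 : ∀ x, ¬ lvF rP (M x) ≤ κ → lev' x = n := fun x hx => if_neg hx
  have hlκ : ∀ x, lev' x = κ ↔ lvF rP (M x) = κ := by
    intro x
    by_cases hx : lvF rP (M x) ≤ κ
    · rw [hl1 x hx]
    · rw [hl2 x hx]; constructor <;> intro h0 <;> omega
  have hmemlev : ∀ x ∈ L, levL rP L x = lvF rP (M x) := by
    intro x hx
    obtain ⟨t, ht, rfl⟩ := List.getElem_of_mem hx
    rw [levL_get rP L hnd t ht, (h t ht).2.1]
  have hκle : κ ≤ L.length := clF_le rP _
  have hin : ∀ x, lvF rP (M x) < κ → x ∈ L := by
    intro x hx
    have hsub : (L.take κ).toFinset ⊆ univ.filter (fun x => lvF rP (M x) < κ) := by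
      intro y hy
      rw [List.mem_toFinset, List.mem_take_iff_getElem] at hy
      obtain ⟨t, ht, rfl⟩ := hy
      rw [Finset.mem_filter]
      refine ⟨Finset.mem_univ _, ?_⟩
      rw [(h t (by omega)).2.1]
      exact lt_of_le_of_lt (clF_le rP t) (by omega)
    have hcard1 : (L.take κ).toFinset.card = κ := by
      rw [List.toFinset_card_of_nodup (hnd.sublist (List.take_sublist _ _)), List.length_take]
      omega
    have hcard2 : (univ.filter (fun x => lvF rP (M x) < κ)).card = κ := by
      have h1 := card_lt_clF rP L.length hL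
      rw [← hκd] at h1
      refine Eq.trans ?_ h1
      apply Finset.card_bij (fun x _ => M x)
      · intro w hw
        rw [Finset.mem_filter] at hw ⊢
        exact ⟨Finset.mem_univ _, hw.2⟩
      · intro a _ b _ hab
        exact M.injective hab
      · intro b hb
        rw [Finset.mem_filter] at hb
        refine ⟨M.symm b, ?_, by simp⟩
        rw [Finset.mem_filter, Equiv.apply_symm_apply]
        exact ⟨Finset.mem_univ _, hb.2⟩
    have heq := Finset.eq_of_subset_of_card_le hsub (by rw [hcard1, hcard2])
    have hx2 : x ∈ univ.filter (fun x => lvF rP (M x) < κ) := by simpa using hx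
    rw [← heq, List.mem_toFinset] at hx2
    exact List.mem_of_mem_take hx2
  have hlow : ∀ x, (levL rP L x < κ ∨ lev' x < κ) → levL rP L x = lev' x := by
    intro x hx
    rcases hx with hx | hx
    · have hxL : x ∈ L := by
        by_contra hn
        unfold levL at hx
        rw [if_neg hn] at hx
        omega
      have h1 := hmemlev x hxL
      rw [hl1 x (by omega), h1]
    · have h1 : lvF rP (M x) ≤ κ := by
        by_contra hn
        rw [hl2 x hn] at hx
        omega
      rw [hl1 x h1] at hx
      rw [hl1 x h1, hmemlev x (hin x hx)]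
  have hF' : Feas rP rB lev' := by
    refine ⟨M, fun x hx => ?_⟩
    have h1 : lvF rP (M x) ≤ κ := by
      by_contra hn
      rw [hl2 x hn] at hx
      omega
    refine ⟨(hl1 x h1).symm, fun m hm => ?_⟩
    have h2 : lvF rP (M m) ≤ lvF rP (M x) := by
      by_contra hlt
      push Not at hlt
      apply hM m (M x)
      refine ⟨(lvF_lt_iff rP _ _).1 hlt, ?_⟩
      rw [Equiv.symm_apply_apply]
      exact hm
    rw [hl1 x h1, hl1 m (h2.trans h1)]
    exact h2
  have hc : (univ.filter fun x => lev' x = κ).card =
      (univ.filter fun w => lvF rP w = κ).card := by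
    apply Finset.card_bij (fun x _ => M x)
    · intro x hx
      rw [Finset.mem_filter] at hx ⊢
      exact ⟨Finset.mem_univ _, (hlκ x).1 hx.2⟩
    · intro a _ b _ hab
      exact M.injective hab
    · intro b hb
      rw [Finset.mem_filter] at hb
      refine ⟨M.symm b, ?_, by simp⟩
      rw [Finset.mem_filter]
      refine ⟨Finset.mem_univ _, (hlκ _).2 ?_⟩
      rw [Equiv.apply_symm_apply]
      exact hb.2
  have hbd : ∀ x, lev' x ≤ κ ∨ lev' x = n := by
    intro x
    by_cases hx : lvF rP (M x) ≤ κ
    · left; rw [hl1 x hx]; exact hx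
    · right; exact hl2 x hx
  obtain ⟨y, hy1, hy2, hy3⟩ := ext_one rP rB L hnd hL hF lev' hbd hlow hF' hc
  -- the smallest candidate
  have hne : (univ.filter fun y : Fin n => y ∉ L ∧ lvF rP (M y) = κ ∧
      FeasL rP rB (L ++ [y])).Nonempty :=
    ⟨y, by rw [Finset.mem_filter]; exact ⟨Finset.mem_univ _, hy1, (hlκ y).1 hy2, hy3⟩⟩
  obtain ⟨y0, hy0, hmin⟩ := Finset.exists_min_image _ id hne
  rw [Finset.mem_filter] at hy0
  obtain ⟨-, hy01, hy02, hy03⟩ := hy0
  refine ⟨y0, fun t ht => ?_⟩
  rw [List.length_append, List.length_singleton] at ht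
  rcases Nat.lt_or_ge t L.length with htl | htl
  · have e1 : (L ++ [y0])[t] = L[t] := List.getElem_append_left htl
    have e2 : (L ++ [y0]).take t = L.take t := List.take_append_of_le_length htl.le
    have e3 : (L ++ [y0]).take (t + 1) = L.take (t + 1) := List.take_append_of_le_length htl
    rw [e1, e2, e3]
    exact h t htl
  · have ht2 : t = L.length := by omega
    subst ht2
    have e1 : (L ++ [y0])[L.length] = y0 := by simp
    have e2 : (L ++ [y0]).take L.length = L := by simp
    have e3 : (L ++ [y0]).take (L.length + 1) = L ++ [y0] := by simp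
    rw [e1, e2, e3]
    refine ⟨hy01, hy02, hy03, ?_⟩
    intro y' hlt hnot hlv hFy
    have := hmin y' (by rw [Finset.mem_filter]; exact ⟨Finset.mem_univ _, hnot, hlv, hFy⟩)
    exact absurd hlt (not_lt.2 this)

theorem isC_take {M : Perm (Fin n)} {L : List (Fin n)} (h : IsC rP rB M L) (t : ℕ) :
    IsC rP rB M (L.take t) := by
  intro s hs
  rw [List.length_take] at hs
  have h1 : s < L.length := by omega
  have h2 : s < t := by omega
  have e1 : (L.take t)[s]'(by rw [List.length_take]; omega) = L[s] := List.getElem_take
  rw [e1, take_take_of_le L h2.le, take_take_of_le L h2]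
  exact h s h1

theorem isC_unique {M : Perm (Fin n)} {L L' : List (Fin n)} (h : IsC rP rB M L)
    (h' : IsC rP rB M L') (hl : L.length = L'.length) : L = L' := by
  have key : ∀ t, t ≤ L.length → L.take t = L'.take t := by
    intro t
    induction t with
    | zero => intro _; simp
    | succ t ih =>
      intro ht
      have iht := ih (by omega)
      have ht1 : t < L.length := by omega
      have ht2 : t < L'.length := by omega
      have c1 : L.take (t + 1) = L.take t ++ [L[t]] := (List.take_concat_get' L t ht1).symm
      have c2 : L'.take (t + 1) = L'.take t ++ [L'[t]] := (List.take_concat_get' L' t ht2).symm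
      have heq : L[t] = L'[t] := by
        rcases lt_trichotomy L[t] L'[t] with hlt | heq | hlt
        · exfalso
          refine (h' t ht2).2.2.2 L[t] hlt ?_ (h t ht1).2.1 ?_
          · rw [← iht]; exact (h t ht1).1
          · rw [← iht, ← c1]; exact (h t ht1).2.2.1
        · exact heq
        · exfalso
          refine (h t ht1).2.2.2 L'[t] hlt ?_ (h' t ht2).2.1 ?_
          · rw [iht]; exact (h' t ht2).1
          · rw [iht, ← c2]; exact (h' t ht2).2.2.1
      rw [c1, c2, iht, heq]
  have h1 := key L.length le_rfl
  rwa [List.take_length, hl, List.take_length] at h1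

theorem code_exists (M : Perm (Fin n)) (hM : StabF rP rB M) :
    ∃ L : List (Fin n), L.length = n ∧ IsC rP rB M L := by
  have key : ∀ k, k ≤ n → ∃ L : List (Fin n), L.length = k ∧ IsC rP rB M L := by
    intro k
    induction k with
    | zero =>
      intro _
      refine ⟨[], rfl, ?_⟩
      intro t ht
      exact absurd ht (by simp)
    | succ k ih =>
      intro hk
      obtain ⟨L, hLk, hC⟩ := ih (by omega)
      obtain ⟨y, hy⟩ := code_next rP rB M hM L (by omega) hC
      exact ⟨L ++ [y], by simp [hLk], hy⟩
  exact key n le_rfl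

end Pool.Agent.Lib.Wml
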