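import Pool.Agent.Lib.Wml.Core0

/-! MODULE Wml.Exch: the exchange lemma (greedoid property).  Proof: among all `σ` for `lev` take one
with the largest number of `x`, `lev x = κ`, `σ x = τ x` (`τ` for `lev'`).  As `|S| < |T|` there is
`x` with `lev' x = κ` and `w = τ x` not the `σ`-image of a man of `S = {lev = κ}`; then the man
`u = σ⁻¹ w` has `lev u = n` (if `lev u < n` then `lvF w = lev u`, and `lvF w = κ`).
Case 1: some man `z` with `lev z = n` and (`z = x` or `rB w z < rB w x`): take such a `z = y` with
`rB w y` least (ties arbitrary); `lev' y = κ` (as `lev' y ≤ κ` and not `< κ`); swap `y` and `u` in `σ`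
(`σ' y = w`, `σ' u = σ y`): it shows `Feas (update lev y κ)`.
Case 2: otherwise `x ∈ S` and `(x, w)` is admissible for `lev`: swap `x` and `u` in `σ`: more
agreements, contradiction. -/

set_option autoImplicit false

namespace Pool.Agent.Lib.Wml

open Finset Equiv

variable {n : ℕ} (rP : Fin n → ℕ) (rB : Fin n → Fin n → ℕ)

namespace ExchAux

/-- swapping an assigned man `y` and an unassigned man `u`, for a new level function -/
theorem swap_feas {κ : ℕ} {lev lev1 : Fin n → ℕ} {σ : Perm (Fin n)}
    (hσ : ∀ v, EF rP rB lev v (σ v)) {y u w : Fin n} (hu : σ u = w) (hun : u ≠ y → lev1 u = n)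
    (hne : ∀ v, v ≠ y → lev1 v = lev v) (hy : lev1 y = κ) (hyn : lev y = n ∨ lev y = κ)
    (hw : lvF rP w = κ) (hm : ∀ m, rB w m < rB w y → lev1 m ≤ κ) :
    ∀ v, EF rP rB lev1 v ((Equiv.swap y u).trans σ v) := by
  intro v
  by_cases hvy : v = y
  · subst hvy
    rw [Equiv.trans_apply, Equiv.swap_apply_left, hu]
    intro _
    rw [hy]
    exact ⟨hw, hm⟩
  · by_cases hvu : v = u
    · subst hvu
      intro hlt
      rw [hun hvy] at hlt
      exact absurd hlt (lt_irrefl _)
    · rw [Equiv.trans_apply, Equiv.swap_apply_of_ne_of_ne hvy hvu]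
      intro hlt
      rw [hne v hvy] at hlt ⊢
      obtain ⟨h1, h2⟩ := hσ v hlt
      refine ⟨h1, fun m hmv => ?_⟩
      have h3 := h2 m hmv
      by_cases hmy : m = y
      · subst hmy
        rcases hyn with h4 | h4
        · omega
        · rw [hy]; omega
      · rw [hne m hmy]; exact h3

end ExchAux

open ExchAux

theorem exch (κ : ℕ) (hκ : κ < n) (lev lev' : Fin n → ℕ)
    (h : ∀ x, lev x ≤ κ ∨ lev x = n) (h' : ∀ x, lev' x ≤ κ ∨ lev' x = n)
    (hlow : ∀ x, (lev x < κ ∨ lev' x < κ) → lev x = lev' x)
    (hF : Feas rP rB lev) (hF' : Feas rP rB lev')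
    (hc : (univ.filter fun x => lev x = κ).card < (univ.filter fun x => lev' x = κ).card) :
    ∃ y, lev y = n ∧ lev' y = κ ∧ Feas rP rB (Function.update lev y κ) := by
  classical
  obtain ⟨τ, hτ⟩ := hF'
  obtain ⟨σ0, hσ0⟩ := hF
  obtain ⟨σ, hσm, hmax⟩ := Finset.exists_max_image
    (univ.filter fun σ : Perm (Fin n) => ∀ x, EF rP rB lev x (σ x))
    (fun σ : Perm (Fin n) => (univ.filter fun x => lev x = κ ∧ σ x = τ x).card)
    ⟨σ0, mem_filter.2 ⟨mem_univ _, hσ0⟩⟩
  have hσ : ∀ x, EF rP rB lev x (σ x) := (mem_filter.1 hσm).2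
  -- a woman of the class used by `τ` and not by `σ`
  obtain ⟨w, hw1, hw2⟩ : ∃ w ∈ (univ.filter fun x => lev' x = κ).image τ,
      w ∉ (univ.filter fun x => lev x = κ).image σ := by
    refine Finset.exists_mem_notMem_of_card_lt_card ?_
    rw [Finset.card_image_of_injective _ τ.injective, Finset.card_image_of_injective _ σ.injective]
    exact hc
  obtain ⟨x, hx1, hx2⟩ := mem_image.1 hw1
  have hx' : lev' x = κ := (mem_filter.1 hx1).2
  have hτx := hτ x (by rw [hx']; exact hκ)
  rw [hx2, hx'] at hτx
  obtain ⟨hwκ, hwm⟩ := hτx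
  obtain ⟨u, hu⟩ : ∃ u, σ u = w := ⟨σ.symm w, by simp⟩
  have hun : lev u = n := by
    rcases h u with h1 | h1
    · exfalso
      have h2 := (hσ u (by omega)).1
      rw [hu] at h2
      apply hw2
      exact mem_image.2 ⟨u, mem_filter.2 ⟨mem_univ _, by omega⟩, hu⟩
    · exact h1
  by_cases hcase : ∃ z, lev z = n ∧ (z = x ∨ rB w z < rB w x)
  · -- Case 1
    obtain ⟨z0, hz0⟩ := hcase
    obtain ⟨y, hym, hymin⟩ := Finset.exists_min_image
      (univ.filter fun z => lev z = n ∧ (z = x ∨ rB w z < rB w x)) (fun z => rB w z)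
      ⟨z0, mem_filter.2 ⟨mem_univ _, hz0⟩⟩
    obtain ⟨hyn, hyx⟩ := (mem_filter.1 hym).2
    have hyle : rB w y ≤ rB w x := by
      rcases hyx with h1 | h1
      · rw [h1]
      · omega
    have hy' : lev' y = κ := by
      have h1 : lev' y ≤ κ := by
        rcases hyx with h1 | h1
        · rw [h1]; omega
        · exact hwm y h1
      by_contra h2
      have h3 := hlow y (Or.inr (by omega))
      omega
    refine ⟨y, hyn, hy', (Equiv.swap y u).trans σ, ?_⟩
    refine swap_feas rP rB hσ hu (fun h1 => ?_) (fun v hv => Function.update_of_ne hv _ _)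
      (Function.update_self _ _ _) (Or.inl hyn) hwκ (fun m hm => ?_)
    · rw [Function.update_of_ne h1]; exact hun
    · by_cases hmy : m = y
      · rw [hmy] at hm; omega
      · rw [Function.update_of_ne hmy]
        rcases h m with h1 | h1
        · exact h1
        · exfalso
          have h2 := hymin m (mem_filter.2 ⟨mem_univ _, h1, Or.inr (by omega)⟩)
          omega
  · -- Case 2
    exfalso
    push Not at hcase
    have hxκ : lev x = κ := by
      rcases h x with h1 | h1
      · by_contra h2
        have h3 := hlow x (Or.inl (by omega))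
        omega
      · exact absurd rfl (hcase x h1).1
    have hxu : x ≠ u := by
      intro e
      rw [e] at hxκ
      omega
    have hσ' : ∀ v, EF rP rB lev v ((Equiv.swap x u).trans σ v) := by
      refine swap_feas rP rB hσ hu (fun _ => hun) (fun _ _ => rfl) hxκ (Or.inr hxκ) hwκ
        (fun m hm => ?_)
      rcases h m with h1 | h1
      · exact h1
      · exact absurd hm (not_lt.2 (hcase m h1).2)
    have h1 := hmax ((Equiv.swap x u).trans σ) (mem_filter.2 ⟨mem_univ _, hσ'⟩)
    have h2 : (univ.filter fun v => lev v = κ ∧ σ v = τ v) ⊂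
        (univ.filter fun v => lev v = κ ∧ (Equiv.swap x u).trans σ v = τ v) := by
      rw [Finset.ssubset_iff_of_subset]
      · refine ⟨x, mem_filter.2 ⟨mem_univ _, hxκ, ?_⟩, ?_⟩
        · rw [Equiv.trans_apply, Equiv.swap_apply_left, hu, hx2]
        · intro h3
          have h4 := (mem_filter.1 h3).2.2
          rw [hx2, ← hu] at h4
          exact hxu (σ.injective h4)
      · intro v hv
        obtain ⟨h3, h4⟩ := (mem_filter.1 hv).2
        refine mem_filter.2 ⟨mem_univ _, h3, ?_⟩
        have h5 : v ≠ u := by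
          intro e
          rw [e] at h3
          omega
        have h6 : v ≠ x := by
          intro e
          rw [e, hx2, ← hu] at h4
          exact hxu (σ.injective h4)
        rw [Equiv.trans_apply, Equiv.swap_apply_of_ne_of_ne h6 h5]
        exact h4
    have h3 := Finset.card_lt_card h2
    omega

end Pool.Agent.Lib.Wml
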