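import Pool.Agent.Lib.Wml.Core0

/-! MODULE Wml.Impr: from a perfect matching `τ` of the T-graph to a full feasible class.
Proof: among all `τ` with the two properties take one with `∑ x, if lvF (τ x) = κ then rB (τ x) x else 0`
least.  `lev' x = lev x` if `lev x < κ`, `κ` if `lvF (τ x) = κ`, `n` otherwise.  If `lvF (τ x) = κ`,
`w = τ x`, `rB w m < rB w x` and `lev' m = n` then `lvF (τ m) > κ`, and swapping `x` and `m` in `τ`
keeps the properties and makes the sum smaller.  `Feas lev'`: the permutation `x ↦ σ x` if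
`lev x < κ` and `x ↦ τ x` otherwise (`σ` for `lev`; both map `{lev < κ}` onto `{lvF < κ}`, as the
two sets have the same number of elements because of `τ`). -/

set_option autoImplicit false

namespace Pool.Agent.Lib.Wml

open Finset Equiv

variable {n : ℕ} (rP : Fin n → ℕ) (rB : Fin n → Fin n → ℕ)

theorem impr (κ : ℕ) (hκ : κ < n) (lev : Fin n → ℕ) (h : ∀ x, lev x ≤ κ ∨ lev x = n)
    (hF : Feas rP rB lev) (Out : Fin n → Prop)
    (hT : ∃ τ : Perm (Fin n), ∀ x, (lev x < κ ↔ lvF rP (τ x) < κ) ∧
      (lvF rP (τ x) = κ → ¬ Out x ∧ ∀ o, Out o → ¬ rB (τ x) o < rB (τ x) x)) :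
    ∃ lev' : Fin n → ℕ, (∀ x, lev' x ≤ κ ∨ lev' x = n) ∧
      (∀ x, (lev x < κ ∨ lev' x < κ) → lev x = lev' x) ∧ Feas rP rB lev' ∧
      (univ.filter fun x => lev' x = κ).card = (univ.filter fun w => lvF rP w = κ).card ∧
      ∀ x, lev' x = κ → ¬ Out x := by
  classical
  obtain ⟨τ0, h0⟩ := hT
  obtain ⟨τ, hτ, hmin⟩ : ∃ τ : Perm (Fin n), (∀ x, (lev x < κ ↔ lvF rP (τ x) < κ) ∧
      (lvF rP (τ x) = κ → ¬ Out x ∧ ∀ o, Out o → ¬ rB (τ x) o < rB (τ x) x)) ∧
      ∀ τ' : Perm (Fin n), (∀ x, (lev x < κ ↔ lvF rP (τ' x) < κ) ∧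
      (lvF rP (τ' x) = κ → ¬ Out x ∧ ∀ o, Out o → ¬ rB (τ' x) o < rB (τ' x) x)) →
      (∑ x, if lvF rP (τ x) = κ then rB (τ x) x else 0) ≤
      (∑ x, if lvF rP (τ' x) = κ then rB (τ' x) x else 0) := by
    obtain ⟨τ, hτ, hm⟩ := Finset.exists_min_image
      (univ.filter fun τ : Perm (Fin n) => ∀ x, (lev x < κ ↔ lvF rP (τ x) < κ) ∧
        (lvF rP (τ x) = κ → ¬ Out x ∧ ∀ o, Out o → ¬ rB (τ x) o < rB (τ x) x))
      (fun τ => ∑ x, if lvF rP (τ x) = κ then rB (τ x) x else 0)
      ⟨τ0, Finset.mem_filter.2 ⟨Finset.mem_univ _, h0⟩⟩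
    exact ⟨τ, (Finset.mem_filter.1 hτ).2, fun τ' h' =>
      hm τ' (Finset.mem_filter.2 ⟨Finset.mem_univ _, h'⟩)⟩
  -- the minimality
  have key : ∀ x m, lvF rP (τ x) = κ → rB (τ x) m < rB (τ x) x →
      lev m < κ ∨ lvF rP (τ m) = κ := by
    intro x m hx hm
    by_contra hcon
    push Not at hcon
    obtain ⟨hm1, hm2⟩ := hcon
    have hm3 : ¬ lvF rP (τ m) < κ := fun h3 => absurd ((hτ m).1.2 h3) (by omega)
    have hx1 : ¬ lev x < κ := fun h3 => absurd ((hτ x).1.1 h3) (by omega)
    have hxm : x ≠ m := by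
      rintro rfl
      exact hm2 hx
    have hmx : m ≠ x := fun h3 => hxm h3.symm
    have hgood := hmin ((Equiv.swap x m).trans τ) (by
      intro y
      rw [Equiv.trans_apply]
      by_cases hyx : y = x
      · subst hyx
        rw [Equiv.swap_apply_left]
        refine ⟨⟨fun h3 => absurd h3 hx1, fun h3 => absurd h3 hm3⟩, fun h3 => absurd h3 hm2⟩
      · by_cases hym : y = m
        · subst hym
          rw [Equiv.swap_apply_right]
          refine ⟨⟨fun h3 => absurd h3 (by omega), fun h3 => absurd h3 (by omega)⟩, fun _ => ?_⟩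
          refine ⟨fun hO => ((hτ x).2 hx).2 y hO hm, fun o hO h4 => ?_⟩
          exact ((hτ x).2 hx).2 o hO (lt_trans h4 hm)
        · rw [Equiv.swap_apply_of_ne_of_ne hyx hym]
          exact hτ y)
    have e1 : ∀ g : Fin n → ℕ, (∑ y, g y) = g x + (g m + ∑ y ∈ (univ.erase x).erase m, g y) := by
      intro g
      rw [← Finset.add_sum_erase _ g (Finset.mem_univ x),
        ← Finset.add_sum_erase _ g (Finset.mem_erase.2 ⟨hmx, Finset.mem_univ m⟩)]
    rw [e1 (fun y => if lvF rP (τ y) = κ then rB (τ y) y else 0),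
      e1 (fun y => if lvF rP ((Equiv.trans (Equiv.swap x m) τ) y) = κ then
        rB ((Equiv.trans (Equiv.swap x m) τ) y) y else 0)] at hgood
    have e2 : (∑ y ∈ (univ.erase x).erase m,
        (if lvF rP ((Equiv.trans (Equiv.swap x m) τ) y) = κ then
          rB ((Equiv.trans (Equiv.swap x m) τ) y) y else 0)) =
        ∑ y ∈ (univ.erase x).erase m, (if lvF rP (τ y) = κ then rB (τ y) y else 0) := by
      refine Finset.sum_congr rfl fun y hy => ?_
      rw [Finset.mem_erase, Finset.mem_erase] at hy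
      rw [Equiv.trans_apply, Equiv.swap_apply_of_ne_of_ne hy.2.1 hy.1]
    rw [e2] at hgood
    simp only [Equiv.trans_apply, Equiv.swap_apply_left, Equiv.swap_apply_right] at hgood
    rw [if_pos hx, if_neg hm2, if_neg hm2, if_pos hx] at hgood
    omega
  obtain ⟨σ, hσ⟩ := hF
  -- the new levels
  have hlev : ∀ x, lvF rP (τ x) = κ → ¬ lev x < κ := fun x hx h3 =>
    absurd ((hτ x).1.1 h3) (by omega)
  have hL : ∀ x, lvF rP (τ x) = κ →
      (if lev x < κ then lev x else if lvF rP (τ x) = κ then κ else n) = κ := by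
    intro x hx
    rw [if_neg (hlev x hx), if_pos hx]
  have hL' : ∀ x, (if lev x < κ then lev x else if lvF rP (τ x) = κ then κ else n) = κ →
      lvF rP (τ x) = κ := by
    intro x hx
    by_contra hne
    by_cases h1 : lev x < κ
    · rw [if_pos h1] at hx
      omega
    · rw [if_neg h1, if_neg hne] at hx
      omega
  refine ⟨fun x => if lev x < κ then lev x else if lvF rP (τ x) = κ then κ else n,
    ?_, ?_, ?_, ?_, ?_⟩
  · intro x
    dsimp only
    split_ifs
    · left; omega
    · left; omega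
    · right; rfl
  · intro x hx
    dsimp only at hx ⊢
    by_cases h1 : lev x < κ
    · rw [if_pos h1]
    · rw [if_neg h1] at hx
      exfalso
      rcases hx with hx | hx
      · exact h1 hx
      · split_ifs at hx
        · omega
        · omega
  · -- feasibility
    have hinj : Function.Injective (fun x => if lev x < κ then σ x else τ x) := by
      intro x y hxy
      dsimp only at hxy
      by_cases h1 : lev x < κ
      · by_cases h2 : lev y < κ
        · rw [if_pos h1, if_pos h2] at hxy
          exact σ.injective hxy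
        · rw [if_pos h1, if_neg h2] at hxy
          exfalso
          have e1 := (hσ x (by omega)).1
          rw [hxy] at e1
          exact h2 ((hτ y).1.2 (by omega))
      · by_cases h2 : lev y < κ
        · rw [if_neg h1, if_pos h2] at hxy
          exfalso
          have e1 := (hσ y (by omega)).1
          rw [← hxy] at e1
          exact h1 ((hτ x).1.2 (by omega))
        · rw [if_neg h1, if_neg h2] at hxy
          exact τ.injective hxy
    refine ⟨Equiv.ofBijective _ (Finite.injective_iff_bijective.1 hinj), ?_⟩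
    intro x hx
    rw [Equiv.ofBijective_apply]
    dsimp only at hx ⊢
    by_cases h1 : lev x < κ
    · rw [if_pos h1, if_pos h1]
      obtain ⟨e1, e2⟩ := hσ x (by omega)
      refine ⟨e1, fun m hm => ?_⟩
      have e3 := e2 m hm
      rw [if_pos (by omega)]
      exact e3
    · rw [if_neg h1] at hx
      rw [if_neg h1, if_neg h1]
      by_cases h2 : lvF rP (τ x) = κ
      · rw [if_pos h2]
        refine ⟨h2, fun m hm => ?_⟩
        rcases key x m h2 hm with h3 | h3
        · rw [if_pos h3]
          omega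
        · rw [hL m h3]
      · rw [if_neg h2] at hx
        omega
  · -- number of new men
    refine Finset.card_bij' (fun x _ => τ x) (fun w _ => τ.symm w) ?_ ?_ ?_ ?_
    · intro x hx
      rw [Finset.mem_filter] at hx ⊢
      exact ⟨Finset.mem_univ _, hL' x hx.2⟩
    · intro w hw
      rw [Finset.mem_filter] at hw ⊢
      refine ⟨Finset.mem_univ _, hL _ ?_⟩
      rw [Equiv.apply_symm_apply]
      exact hw.2
    · intro x _
      exact Equiv.symm_apply_apply τ x
    · intro w _
      exact Equiv.apply_symm_apply τ w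
  · intro x hx
    exact ((hτ x).2 (hL' x hx)).1

end Pool.Agent.Lib.Wml
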