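import Pool.Agent.Lib.Wml.Lev
import Pool.Agent.Lib.Wml.Exch
import Pool.Agent.Lib.Wml.Impr

/-! MODULE Wml.Ext: extension of feasible lists (uses Wml.Lev, Wml.Exch, Wml.Impr as black boxes). -/

set_option autoImplicit false

namespace Pool.Agent.Lib.Wml

open Finset Equiv

variable {n : ℕ} (rP : Fin n → ℕ) (rB : Fin n → Fin n → ℕ)

/-- levels of a longer list -/
theorem levL_append (L : List (Fin n)) (y : Fin n) (hy : y ∉ L) :
    levL rP (L ++ [y]) = Function.update (levL rP L) y (clF rP L.length) := by
  funext x
  unfold levL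
  by_cases hx : x = y
  · subst hx
    rw [Function.update_self, if_pos (by simp), List.idxOf_append_of_notMem hy]
    simp
  · rw [Function.update_of_ne hx]
    by_cases hxL : x ∈ L
    · rw [if_pos (by simp [hxL]), if_pos hxL, List.idxOf_append_of_mem hxL]
    · rw [if_neg (by simp [hxL, hx]), if_neg hxL]

namespace ExtAux

theorem levL_le (L : List (Fin n)) (x : Fin n) : levL rP L x ≤ clF rP L.length ∨ levL rP L x = n := by
  unfold levL
  by_cases hx : x ∈ L
  · left
    rw [if_pos hx]
    exact clF_mono rP (List.idxOf_lt_length_of_mem hx).le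
  · right
    rw [if_neg hx]

theorem levL_notMem (L : List (Fin n)) (x : Fin n) (hx : x ∉ L) : levL rP L x = n := by
  unfold levL
  rw [if_neg hx]

theorem mem_of_levL (L : List (Fin n)) (x : Fin n) (h : levL rP L x ≠ n) : x ∈ L := by
  by_contra hx
  exact h (levL_notMem rP L x hx)

theorem levL_lt_n (L : List (Fin n)) (hL : L.length < n) (x : Fin n) (hx : x ∈ L) :
    levL rP L x < n := by
  unfold levL
  rw [if_pos hx]
  exact clF_lt_n rP _ (lt_trans (List.idxOf_lt_length_of_mem hx) hL)

theorem notMem_of_levL (L : List (Fin n)) (hL : L.length < n) (x : Fin n)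
    (h : levL rP L x = n) : x ∉ L := by
  intro hx
  have := levL_lt_n rP L hL x hx
  omega

/-- a man of the list is in the class of the position `L.length` iff his position is -/
theorem levL_lt_iff (L : List (Fin n)) (hL : L.length < n) (x : Fin n) :
    levL rP L x < clF rP L.length ↔ x ∈ L ∧ L.idxOf x < clF rP L.length := by
  have hk : clF rP L.length < n := clF_lt_n rP _ hL
  constructor
  · intro h
    have hx : x ∈ L := mem_of_levL rP L x (by omega)
    refine ⟨hx, ?_⟩
    by_contra hge
    have hge' : clF rP L.length ≤ L.idxOf x := by omega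
    have := clF_eq rP hge' (List.idxOf_lt_length_of_mem hx).le
    unfold levL at h
    rw [if_pos hx, this] at h
    exact lt_irrefl _ h
  · rintro ⟨hx, h⟩
    unfold levL
    rw [if_pos hx]
    exact lt_of_le_of_lt (clF_le rP _) h

theorem levL_eq_iff (L : List (Fin n)) (hL : L.length < n) (x : Fin n) :
    levL rP L x = clF rP L.length ↔ x ∈ L ∧ clF rP L.length ≤ L.idxOf x := by
  have hk : clF rP L.length < n := clF_lt_n rP _ hL
  constructor
  · intro h
    have hx : x ∈ L := mem_of_levL rP L x (by omega)
    refine ⟨hx, ?_⟩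
    by_contra hge
    have := (levL_lt_iff rP L hL x).2 ⟨hx, by omega⟩
    omega
  · rintro ⟨hx, h⟩
    have := clF_eq rP h (List.idxOf_lt_length_of_mem hx).le
    unfold levL
    rw [if_pos hx, this]

theorem card_idx (L : List (Fin n)) (hnd : L.Nodup) (k : ℕ) (hk : k ≤ L.length) :
    (univ.filter fun x => x ∈ L ∧ L.idxOf x < k).card = k := by
  have : (univ.filter fun x => x ∈ L ∧ L.idxOf x < k) = (L.take k).toFinset := by
    ext x
    simp only [mem_filter, mem_univ, true_and, List.mem_toFinset]
    constructor
    · rintro ⟨hx, h⟩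
      exact (List.mem_take_iff_idxOf_lt hx).2 h
    · intro h
      have hx : x ∈ L := List.mem_of_mem_take h
      exact ⟨hx, (List.mem_take_iff_idxOf_lt hx).1 h⟩
  rw [this, List.toFinset_card_of_nodup (hnd.sublist (List.take_sublist k L)), List.length_take]
  omega

theorem card_low (L : List (Fin n)) (hnd : L.Nodup) (hL : L.length < n) :
    (univ.filter fun x => levL rP L x < clF rP L.length).card = clF rP L.length := by
  have : (univ.filter fun x => levL rP L x < clF rP L.length) =
      univ.filter fun x => x ∈ L ∧ L.idxOf x < clF rP L.length := by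
    ext x
    simp only [mem_filter, mem_univ, true_and]
    exact levL_lt_iff rP L hL x
  rw [this]
  exact card_idx L hnd _ (clF_le rP _)

theorem card_mid (L : List (Fin n)) (hnd : L.Nodup) (hL : L.length < n) :
    (univ.filter fun x => levL rP L x = clF rP L.length).card + clF rP L.length = L.length := by
  have h1 : (univ.filter fun x => levL rP L x = clF rP L.length) =
      univ.filter fun x => x ∈ L ∧ ¬ L.idxOf x < clF rP L.length := by
    ext x
    simp only [mem_filter, mem_univ, true_and, not_lt]
    exact levL_eq_iff rP L hL x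
  have h2 : (univ.filter fun x => x ∈ L ∧ ¬ L.idxOf x < clF rP L.length) =
      L.toFinset.filter fun x => ¬ L.idxOf x < clF rP L.length := by
    ext x
    simp
  have h3 : (univ.filter fun x => x ∈ L ∧ L.idxOf x < clF rP L.length) =
      L.toFinset.filter fun x => L.idxOf x < clF rP L.length := by
    ext x
    simp
  have h4 := card_idx L hnd _ (clF_le rP L.length)
  have h5 := Finset.card_filter_add_card_filter_not (s := L.toFinset)
    (fun x => L.idxOf x < clF rP L.length)
  rw [List.toFinset_card_of_nodup hnd] at h5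
  rw [h3] at h4
  rw [h1, h2]
  omega

end ExtAux

/-- one more man, out of a given full class -/
theorem ext_one (L : List (Fin n)) (hnd : L.Nodup) (hL : L.length < n) (hF : FeasL rP rB L)
    (lev' : Fin n → ℕ) (h' : ∀ x, lev' x ≤ clF rP L.length ∨ lev' x = n)
    (hlow : ∀ x, (levL rP L x < clF rP L.length ∨ lev' x < clF rP L.length) →
      levL rP L x = lev' x) (hF' : Feas rP rB lev')
    (hc : (univ.filter fun x => lev' x = clF rP L.length).card =
      (univ.filter fun w => lvF rP w = clF rP L.length).card) :
    ∃ y, y ∉ L ∧ lev' y = clF rP L.length ∧ FeasL rP rB (L ++ [y]) := by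
  have hk : clF rP L.length < n := clF_lt_n rP _ hL
  have h1 := ExtAux.card_mid rP L hnd hL
  have h2 := lt_card rP L.length hL
  obtain ⟨y, hy1, hy2, hy3⟩ := exch rP rB (clF rP L.length) hk (levL rP L) lev'
    (ExtAux.levL_le rP L) h' hlow hF hF' (by omega)
  have hyL : y ∉ L := ExtAux.notMem_of_levL rP L hL y hy1
  refine ⟨y, hyL, hy2, ?_⟩
  unfold FeasL
  rw [levL_append rP L y hyL]
  exact hy3

/-- one more man -/
theorem ext_any (L : List (Fin n)) (hnd : L.Nodup) (hL : L.length < n) (hF : FeasL rP rB L) :
    ∃ y, y ∉ L ∧ FeasL rP rB (L ++ [y]) := by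
  have hk : clF rP L.length < n := clF_lt_n rP _ hL
  obtain ⟨σ, hσ⟩ := id hF
  have hσ1 : ∀ x, levL rP L x < clF rP L.length → lvF rP (σ x) < clF rP L.length := by
    intro x hx
    rw [(hσ x (lt_trans hx hk)).1]
    exact hx
  have hσ2 : ∀ x, lvF rP (σ x) < clF rP L.length → levL rP L x < clF rP L.length := by
    intro x hx
    have himg : (univ.filter fun x => levL rP L x < clF rP L.length).map σ.toEmbedding =
        univ.filter fun w => lvF rP w < clF rP L.length := by
      apply Finset.eq_of_subset_of_card_le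
      · intro w hw
        simp only [mem_map, mem_filter, mem_univ, true_and, Equiv.coe_toEmbedding] at hw ⊢
        obtain ⟨z, hz, rfl⟩ := hw
        exact hσ1 z hz
      · rw [Finset.card_map, ExtAux.card_low rP L hnd hL, card_lt_clF rP _ hL]
    have hmem : σ x ∈ (univ.filter fun x => levL rP L x < clF rP L.length).map σ.toEmbedding := by
      rw [himg]
      simp [hx]
    simp only [mem_map, mem_filter, mem_univ, true_and, Equiv.coe_toEmbedding] at hmem
    obtain ⟨z, hz, hzx⟩ := hmem
    rw [← σ.injective hzx]
    exact hz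
  obtain ⟨lev', h1, h2, h3, h4, -⟩ := impr rP rB (clF rP L.length) hk (levL rP L)
    (ExtAux.levL_le rP L) hF (fun _ => False)
    ⟨σ, fun x => ⟨⟨hσ1 x, hσ2 x⟩, fun _ => ⟨fun h => h, fun _ h => h.elim⟩⟩⟩
  obtain ⟨y, hy, -, hy3⟩ := ext_one rP rB L hnd hL hF lev' h1 h2 h3 h4
  exact ⟨y, hy, hy3⟩

namespace ExtAux

theorem go (L : List (Fin n)) (κ : ℕ) (hκ : clF rP L.length = κ) (hκn : κ < n)
    (lev' : Fin n → ℕ) (h' : ∀ x, lev' x ≤ κ ∨ lev' x = n) (hF' : Feas rP rB lev')
    (hc : (univ.filter fun x => lev' x = κ).card = (univ.filter fun w => lvF rP w = κ).card)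
    (Out : Fin n → Prop) (hO : ∀ x, lev' x = κ → ¬ Out x) :
    ∀ (d : ℕ) (L1 : List (Fin n)), L1.length + d = n → L <+: L1 → L1.Nodup →
      FeasL rP rB L1 →
      (∀ x, (levL rP L1 x < κ ∨ lev' x < κ) → levL rP L1 x = lev' x) →
      (∀ (t : ℕ) (h : t < L1.length), L.length ≤ t → clF rP t = κ → ¬ Out L1[t]) →
      ∃ L' : List (Fin n), L <+: L' ∧ L'.length = n ∧ L'.Nodup ∧ FeasL rP rB L' ∧
        ∀ (t : ℕ) (h : t < L'.length), L.length ≤ t → clF rP t = κ → ¬ Out L'[t] := by
  intro d
  induction d with
  | zero =>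
    intro L1 hlen hpre hnd hF _ hout
    exact ⟨L1, hpre, by omega, hnd, hF, hout⟩
  | succ d ih =>
    intro L1 hlen hpre hnd hF hlow hout
    have hL1 : L1.length < n := by omega
    have hle : L.length ≤ L1.length := hpre.length_le
    have hmono : κ ≤ clF rP L1.length := hκ ▸ clF_mono rP hle
    have key : ∃ y, y ∉ L1 ∧ FeasL rP rB (L1 ++ [y]) ∧ (clF rP L1.length = κ → ¬ Out y) := by
      by_cases hcl : clF rP L1.length = κ
      · subst hcl
        obtain ⟨y, hy1, hy2, hy3⟩ := ext_one rP rB L1 hnd hL1 hF lev' h' hlow hF' hc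
        exact ⟨y, hy1, hy3, fun _ => hO y hy2⟩
      · obtain ⟨y, hy1, hy3⟩ := ext_any rP rB L1 hnd hL1 hF
        exact ⟨y, hy1, hy3, fun h => (hcl h).elim⟩
    obtain ⟨y, hy1, hy2, hy3⟩ := key
    refine ih (L1 ++ [y]) (by simp; omega) (hpre.trans (List.prefix_append L1 [y])) ?_ hy2 ?_ ?_
    · rw [List.nodup_append]
      refine ⟨hnd, List.nodup_singleton y, ?_⟩
      intro a ha b hb hab
      rw [List.mem_singleton] at hb
      subst hb
      subst hab
      exact hy1 ha
    · intro x hx
      rw [levL_append rP L1 y hy1] at hx ⊢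
      by_cases hxy : x = y
      · subst hxy
        rw [Function.update_self] at hx ⊢
        rcases hx with hx | hx
        · omega
        · have := hlow x (Or.inr hx)
          rw [levL_notMem rP L1 x hy1] at this
          omega
      · rw [Function.update_of_ne hxy] at hx ⊢
        exact hlow x hx
    · intro t ht hLt hcl
      by_cases htl : t < L1.length
      · rw [List.getElem_append_left htl]
        exact hout t htl hLt hcl
      · have hteq : t = L1.length := by
          simp only [List.length_append, List.length_singleton] at ht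
          omega
        subst hteq
        rw [List.getElem_append_right (le_refl _)]
        simp only [Nat.sub_self, List.getElem_cons_zero]
        exact hy3 hcl

end ExtAux

/-- a full feasible list which avoids `Out` in the class of the position `L.length` -/
theorem ext_full (L : List (Fin n)) (hnd : L.Nodup) (hL : L.length < n) (hF : FeasL rP rB L)
    (Out : Fin n → Prop)
    (hT : ∃ τ : Perm (Fin n), ∀ x,
      (levL rP L x < clF rP L.length ↔ lvF rP (τ x) < clF rP L.length) ∧
      (lvF rP (τ x) = clF rP L.length →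
        ¬ Out x ∧ ∀ o, Out o → ¬ rB (τ x) o < rB (τ x) x)) :
    ∃ L' : List (Fin n), L <+: L' ∧ L'.length = n ∧ L'.Nodup ∧ FeasL rP rB L' ∧
      ∀ (t : ℕ) (h : t < L'.length), L.length ≤ t → clF rP t = clF rP L.length →
        ¬ Out L'[t] := by
  have hk : clF rP L.length < n := clF_lt_n rP _ hL
  obtain ⟨lev', h1, h2, h3, h4, h5⟩ := impr rP rB (clF rP L.length) hk (levL rP L)
    (ExtAux.levL_le rP L) hF Out hT
  exact ExtAux.go rP rB L _ rfl hk lev' h1 h3 h4 Out h5 (n - L.length) L (by omega)
    (List.prefix_refl L) hnd hF h2 (fun t ht hLt _ => absurd ht (by omega))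

end Pool.Agent.Lib.Wml
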