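import Pool.Agent.Lib.Wml.FlashA

/-! MODULE Wml.FlashB (file Flash.lean): the backtracking lists all codes (Wml.FlashA is a black box).
`Lx` is a strict linear order on the lists of length `l` (finitely many), so the iteration of `nextC` stops,
is injective and meets every solution. -/

set_option autoImplicit false

namespace Pool.Agent.Lib.Wml

open Finset Equiv Pool.Agent.Lib.Wsm

namespace FlashAux

theorem lx_irrefl (c : List Bool) : ¬ Lx c c := by
  rintro ⟨i, -, -, h1, h2⟩
  rw [h1] at h2
  cases h2

theorem getD_of_take {a b : List Bool} {i j : ℕ} (h : a.take j = b.take j) (hij : i < j) :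
    a.getD i false = b.getD i false := by
  have h1 := congrArg (fun c : List Bool => c.getD i false) h
  simp only [List.getD_eq_getElem?_getD, List.getElem?_take, if_pos hij] at h1
  rw [List.getD_eq_getElem?_getD, List.getD_eq_getElem?_getD]
  exact h1

theorem take_of_take {a b : List Bool} {i j : ℕ} (h : a.take j = b.take j) (hij : i ≤ j) :
    a.take i = b.take i := by
  have h1 := congrArg (List.take i) h
  rwa [List.take_take, List.take_take, Nat.min_eq_left hij] at h1

theorem lx_trans {a b c : List Bool} (hl : a.length = b.length) (h1 : Lx a b) (h2 : Lx b c) :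
    Lx a c := by
  obtain ⟨i, hi, e1, f1, g1⟩ := h1
  obtain ⟨j, hj, e2, f2, g2⟩ := h2
  rcases lt_trichotomy i j with h | h | h
  · refine ⟨i, hi, ?_, f1, ?_⟩
    · rw [e1, take_of_take e2 h.le]
    · rw [← getD_of_take e2 h]
      exact g1
  · subst h
    rw [g1] at f2
    cases f2
  · refine ⟨j, by omega, ?_, ?_, g2⟩
    · rw [take_of_take e1 h.le, e2]
    · rw [getD_of_take e1 h]
      exact f2

theorem fin_set (E : List Bool → Prop) (l : ℕ) (c : List Bool) :
    {p : List Bool | p.length = l ∧ E p ∧ Lx c p}.Finite := by
  apply Set.Finite.subset (List.finite_length_eq Bool l)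
  intro p hp
  exact hp.1

theorem run (E : List Bool → Prop) (l : ℕ)
    (hE : ∀ p, p.length < l → (E p ↔ E (p ++ [false]) ∨ E (p ++ [true]))) :
    ∀ (N : ℕ) (c : List Bool), c.length = l → E c →
      {p : List Bool | p.length = l ∧ E p ∧ Lx c p}.ncard = N →
    ∃ (k : ℕ) (g : ℕ → List Bool) (y : ℕ → List Bool),
      y 0 = true :: c ∧ (∀ i < k, y i = true :: g i ∧ y (i + 1) = nextC E l (g i)) ∧ y k = [] ∧
      (∀ i < k, (g i).length = l ∧ E (g i)) ∧ (∀ i < k, ∀ j < k, g i = g j → i = j) ∧
      (∀ i < k, g i = c ∨ Lx c (g i)) ∧
      ∀ p : List Bool, p.length = l → E p → (p = c ∨ Lx c p) → ∃ i < k, g i = p := by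
  intro N
  induction N using Nat.strong_induction_on with
  | _ N ih =>
    intro c hc hEc hN
    rcases next_spec E l hE c hc hEc with ⟨h1, h2⟩ | ⟨c1, h1, h2, h3, h4, h5⟩
    · refine ⟨1, fun _ => c, fun i => if i = 0 then true :: c else [], by simp, ?_, by simp, ?_, ?_,
        ?_, ?_⟩
      · intro i hi
        have : i = 0 := by omega
        subst this
        simp [h1]
      · intro i _
        exact ⟨hc, hEc⟩
      · intro i hi j hj _
        omega
      · intro i _
        exact Or.inl rfl
      · intro p hp hEp hpc
        rcases hpc with hpc | hpc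
        · exact ⟨0, by omega, hpc.symm⟩
        · exact absurd hpc (h2 p hp hEp)
    · have hsub : {p : List Bool | p.length = l ∧ E p ∧ Lx c1 p} ⊂
          {p : List Bool | p.length = l ∧ E p ∧ Lx c p} := by
        refine ⟨?_, ?_⟩
        · intro p hp
          exact ⟨hp.1, hp.2.1, lx_trans (by rw [hc, h2]) h4 hp.2.2⟩
        · intro hcon
          have : c1 ∈ {p : List Bool | p.length = l ∧ E p ∧ Lx c1 p} := hcon ⟨h2, h3, h4⟩
          exact lx_irrefl c1 this.2.2
      have hcard := Set.ncard_lt_ncard hsub (fin_set E l c)
      obtain ⟨k, g, y, y0, y1, y2, y3, y4, y5, y6⟩ := ih _ (by rw [← hN]; exact hcard) c1 h2 h3 rfl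
      have hne : ∀ i < k, g i ≠ c := by
        intro i hi he
        rcases y5 i hi with h6 | h6
        · rw [he] at h6
          rw [← h6] at h4
          exact lx_irrefl c h4
        · have h7 := lx_trans (by rw [hc, h2]) h4 h6
          rw [he] at h7
          exact lx_irrefl c h7
      refine ⟨k + 1, fun i => Nat.casesOn i c g, fun i => Nat.casesOn i (true :: c) y, rfl, ?_, y2,
        ?_, ?_, ?_, ?_⟩
      · intro i hi
        cases i with
        | zero =>
          refine ⟨rfl, ?_⟩
          show y 0 = nextC E l c
          rw [y0, h1]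
        | succ i => exact y1 i (by omega)
      · intro i hi
        cases i with
        | zero => exact ⟨hc, hEc⟩
        | succ i => exact y3 i (by omega)
      · intro i hi j hj hij
        cases i with
        | zero =>
          cases j with
          | zero => rfl
          | succ j => exact absurd (show g j = c from hij.symm) (hne j (by omega))
        | succ i =>
          cases j with
          | zero => exact absurd (show g i = c from hij) (hne i (by omega))
          | succ j => rw [y4 i (by omega) j (by omega) hij]
      · intro i hi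
        cases i with
        | zero => exact Or.inl rfl
        | succ i =>
          right
          show Lx c (g i)
          rcases y5 i (by omega) with h6 | h6
          · rw [h6]; exact h4
          · exact lx_trans (by rw [hc, h2]) h4 h6
      · intro p hp hEp hpc
        rcases hpc with hpc | hpc
        · exact ⟨0, by omega, hpc.symm⟩
        · obtain ⟨i, hi, he⟩ := y6 p hp hEp (h5 p hp hEp hpc)
          exact ⟨i + 1, by omega, he⟩

end FlashAux

open FlashAux

theorem flash (E : List Bool → Prop) (l : ℕ)
    (hE : ∀ p, p.length < l → (E p ↔ E (p ++ [false]) ∨ E (p ++ [true]))) :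
    ∃ (k : ℕ) (c : ℕ → List Bool) (y : ℕ → List Bool),
      y 0 = first E l ∧ (∀ i < k, y i = true :: c i ∧ y (i + 1) = nextC E l (c i)) ∧ y k = [] ∧
      (∀ i < k, (c i).length = l ∧ E (c i)) ∧ (∀ i < k, ∀ j < k, c i = c j → i = j) ∧
      ∀ p : List Bool, p.length = l → E p → ∃ i < k, c i = p := by
  by_cases h : E []
  · obtain ⟨c, h1, h2, h3, h4⟩ := first_spec E l hE h
    obtain ⟨k, g, y, y0, y1, y2, y3, y4, -, y6⟩ := run E l hE _ c h2 h3 rfl
    refine ⟨k, g, y, by rw [y0, h1], y1, y2, y3, y4, ?_⟩
    intro p hp hEp
    exact y6 p hp hEp (h4 p hp hEp)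
  · refine ⟨0, fun _ => [], fun _ => [], (first_nil E l h).symm, by intro i hi; omega, rfl,
      by intro i hi; omega, by intro i hi; omega, ?_⟩
    intro p hp hEp
    exact absurd (by simpa using E_take E l hE p hp hEp 0) h

end Pool.Agent.Lib.Wml
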