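import Pool.Agent.Lib.Wsm.Loop

/-! MODULE Wml.Mach: a machine which repeats a polynomial-time step and collects the output in front
of a register which the step does not touch, so that its time is LINEAR in the number of steps.

Registers: 0 = `x`, 1 = the state `y`, 2 = the collected output `z`, 3, 4, ... = work space.  The
programs of `hsucc` and `hout` use `0, 1, 2, ...`; rename by `ρ i = if i < 2 then i else i + 1`
(`Run.rename`; see the proof of `PolyC.weakenRight`), so that they leave register 2 unchanged and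
their time is bounded in terms of `x` and `y` only.  Body of `loop 1`: `out` into register 3,
`move 3 2 tmp` (time `8 * |out| + 2`), `succ` into register 3, `clear 1`, `move 3 1 tmp`.
Before: `first` (program on `[x]`, result in register 1).  After (`y = []`): `clear 0`, `move 2 1 3` (time
`8 * |z| + 2`, `|z| ≤ k * bound`).  Compare `loop_machine` in Lib/Wsm/Loop.lean. -/

set_option autoImplicit false

namespace Pool.Agent.Lib.Wml

open Pool.Agent.Lib.PolyTime Pool.Agent.Lib.Wsm

/-- the collected output -/
def outs (out : List Bool → List Bool → List Bool) (x : List Bool) (y : ℕ → List Bool) :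
    ℕ → List Bool
  | 0 => []
  | i + 1 => out x (y i) ++ outs out x y i

namespace MachAux

/-- The renaming which frees register 2. -/
def rho (i : ℕ) : ℕ := if i < 2 then i else i + 1

theorem rho_inj : Function.Injective rho := by
  intro i j hij
  unfold rho at hij
  split_ifs at hij <;> omega

theorem run_rho {P : Prog} {x y w : List Bool} {n : ℕ} (h : Run P (R [x, y]) (R [x, y, w]) n)
    (z : List Bool) : Run (P.rename rho) (R [x, y, z]) (R [x, y, z, w]) n := by
  obtain ⟨T', h1, h2, h3⟩ := h.rename rho_inj (R [x, y, z]) (by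
    intro i
    rcases i with _ | _ | i
    · rfl
    · rfl
    · have : rho (i + 2) = i + 3 := by unfold rho; split_ifs <;> omega
      show R [x, y, z] (rho (i + 2)) = R [x, y] (i + 2)
      rw [this]
      simp [R])
  refine h1.cast ?_ rfl
  funext j
  rcases j with _ | _ | _ | j
  · exact h2 0
  · exact h2 1
  · rw [h3 2]
    · rfl
    · intro i
      unfold rho
      split_ifs <;> omega
  · have h4 := h2 (j + 2)
    have : rho (j + 2) = j + 3 := by unfold rho; split_ifs <;> omega
    rw [this] at h4
    rw [show j + 1 + 1 + 1 = j + 3 by omega, h4]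
    rcases j with _ | j
    · rfl
    · simp [R]

theorem run_a (x y z o : List Bool) :
    Run (move 3 2 4) (R [x, y, z, o]) (R [x, y, o ++ z]) (8 * o.length + 2) := by
  have h := run_move (r := 3) (s := 2) (tmp := 4) (by omega) (by omega) (by omega)
    (R [x, y, z, o]) rfl
  refine h.cast ?_ rfl
  funext i
  rcases i with _ | _ | _ | _ | i
  · rfl
  · rfl
  · rfl
  · rfl
  · simp [R]

theorem run_b (x y z s : List Bool) :
    Run (clear 1) (R [x, y, z, s]) (R [x, [], z, s]) (2 * y.length + 1) := by
  have h := run_clear 1 (R [x, y, z, s])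
  refine h.cast ?_ rfl
  funext i
  rcases i with _ | _ | _ | _ | i
  · rfl
  · rfl
  · rfl
  · rfl
  · simp [R]

theorem run_c (x z s : List Bool) :
    Run (move 3 1 4) (R [x, [], z, s]) (R [x, s, z]) (8 * s.length + 2) := by
  have h := run_move (r := 3) (s := 1) (tmp := 4) (by omega) (by omega) (by omega)
    (R [x, [], z, s]) rfl
  refine h.cast ?_ rfl
  funext i
  rcases i with _ | _ | _ | _ | i
  · rfl
  · change s ++ [] = s
    simp
  · rfl
  · rfl
  · simp [R]

theorem run_d (x z : List Bool) :
    Run (clear 0) (R [x, [], z]) (R [[], [], z]) (2 * x.length + 1) := by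
  have h := run_clear 0 (R [x, [], z])
  refine h.cast ?_ rfl
  funext i
  rcases i with _ | _ | _ | i
  · rfl
  · rfl
  · rfl
  · simp [R]

theorem run_e (z : List Bool) :
    Run (move 2 1 3) (R [[], [], z]) (outputRegs z) (8 * z.length + 2) := by
  have h := run_move (r := 2) (s := 1) (tmp := 3) (by omega) (by omega) (by omega)
    (R [[], [], z]) rfl
  refine h.cast ?_ rfl
  funext i
  rcases i with _ | _ | _ | i
  · rfl
  · change z ++ [] = z
    simp
  · rfl
  · simp [R, outputRegs]

theorem inputRegs_eq (x : List Bool) : inputRegs x = R [x] := by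
  funext i
  rcases i with _ | i
  · rfl
  · simp [inputRegs, R]

/-- The body of the loop. -/
def body (P₂ P₃ : Prog) : Prog :=
  .seq (P₃.rename rho) (.seq (move 3 2 4) (.seq (P₂.rename rho) (.seq (clear 1) (move 3 1 4))))

theorem run_body {P₂ P₃ : Prog} {x y s o : List Bool} {m n : ℕ}
    (h2 : Run P₂ (R [x, y]) (R [x, y, s]) m) (h3 : Run P₃ (R [x, y]) (R [x, y, o]) n)
    (z : List Bool) :
    Run (body P₂ P₃) (R [x, y, z]) (R [x, s, o ++ z])
      (n + (8 * o.length + 2 + (m + (2 * y.length + 1 + (8 * s.length + 2))))) :=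
  Run.seq (run_rho h3 z) (Run.seq (run_a x y z o) (Run.seq (run_rho h2 (o ++ z))
    (Run.seq (run_b x y (o ++ z) s) (run_c x (o ++ z) s))))

theorem len_of_run {P : Prog} {x y w : List Bool} {n : ℕ}
    (h : Run P (R [x, y]) (R [x, y, w]) n) : w.length ≤ n := by
  have h1 := h.length_le 2
  have e1 : R [x, y, w] 2 = w := rfl
  have e2 : R [x, y] 2 = [] := rfl
  rw [e1, e2] at h1
  simpa using h1

end MachAux

theorem lin_machine (first : List Bool → List Bool) (succ out : List Bool → List Bool → List Bool)
    (D : List Bool × List Bool → Prop)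
    (hfirst : PolyC (fun _ => True) [fun x => x] (fun x : List Bool => first x))
    (hsucc : PolyC D [fun p => p.1, fun p => p.2]
      (fun p : List Bool × List Bool => succ p.1 p.2))
    (hout : PolyC D [fun p => p.1, fun p => p.2]
      (fun p : List Bool × List Bool => out p.1 p.2)) :
    ∃ (P : Prog) (q : Polynomial ℕ), ∀ (x : List Bool) (k l : ℕ) (y : ℕ → List Bool),
      y 0 = first x → (∀ i < k, D (x, y i) ∧ y i ≠ [] ∧ y (i + 1) = succ x (y i)) → y k = [] →
      (∀ i ≤ k, (y i).length ≤ l) →
      ∃ t ≤ (k + 1) * q.eval (x.length + l),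
        Run P (inputRegs x) (outputRegs (outs out x y k)) t := by
  obtain ⟨P₁, p₁, hP₁⟩ := hfirst
  obtain ⟨P₂, p₂, hP₂⟩ := hsucc
  obtain ⟨P₃, p₃, hP₃⟩ := hout
  have h₁ : ∀ x : List Bool, ∃ n, n ≤ p₁.eval x.length ∧ Run P₁ (R [x]) (R [x, first x]) n := by
    intro x
    obtain ⟨n, h1, h2⟩ := hP₁ x trivial
    refine ⟨n, ?_, h2⟩
    simpa using h1
  have h₂ : ∀ x y : List Bool, D (x, y) → ∃ n, n ≤ p₂.eval (x.length + y.length) ∧
      Run P₂ (R [x, y]) (R [x, y, succ x y]) n := by
    intro x y hD
    obtain ⟨n, h1, h2⟩ := hP₂ (x, y) hD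
    refine ⟨n, ?_, h2⟩
    simpa using h1
  have h₃ : ∀ x y : List Bool, D (x, y) → ∃ n, n ≤ p₃.eval (x.length + y.length) ∧
      Run P₃ (R [x, y]) (R [x, y, out x y]) n := by
    intro x y hD
    obtain ⟨n, h1, h2⟩ := hP₃ (x, y) hD
    refine ⟨n, ?_, h2⟩
    simpa using h1
  refine ⟨.seq P₁ (.seq (.loop 1 (MachAux.body P₂ P₃)) (.seq (clear 0) (move 2 1 3))),
    p₁ + 9 * p₂ + 17 * p₃ + 4 * Polynomial.X + 10, ?_⟩
  intro x k l y hy0 hst hend hlen
  set M := x.length + l with hM
  set C := 9 * p₂.eval M + 9 * p₃.eval M + 2 * l + 6 with hC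
  have houts : ∀ i ≤ k, (outs out x y i).length ≤ i * p₃.eval M := by
    intro i
    induction i with
    | zero => intro _; simp [outs]
    | succ i ih =>
      intro hi
      have h1 := ih (by omega)
      obtain ⟨hD, -, -⟩ := hst i (by omega)
      obtain ⟨n, hn, hr⟩ := h₃ x (y i) hD
      have h2 := MachAux.len_of_run hr
      have h3 : p₃.eval (x.length + (y i).length) ≤ p₃.eval M :=
        eval_mono p₃ (by have := hlen i (by omega); omega)
      have h4 : (outs out x y (i + 1)).length =
          (out x (y i)).length + (outs out x y i).length := by simp [outs]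
      rw [h4, Nat.add_mul, Nat.one_mul]
      omega
  have hloop : ∀ j ≤ k, ∃ t ≤ j * C + 1,
      Run (.loop 1 (MachAux.body P₂ P₃)) (R [x, y (k - j), outs out x y (k - j)])
        (R [x, [], outs out x y k]) t := by
    intro j
    induction j with
    | zero =>
      intro _
      refine ⟨1, by omega, ?_⟩
      rw [Nat.sub_zero, hend]
      exact Run.loopNil rfl
    | succ j ih =>
      intro hj
      obtain ⟨t, ht, hr⟩ := ih (by omega)
      obtain ⟨hD, hne, hs⟩ := hst (k - (j + 1)) (by omega)
      obtain ⟨m, hm, hrm⟩ := h₂ x (y (k - (j + 1))) hD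
      obtain ⟨n, hn, hrn⟩ := h₃ x (y (k - (j + 1))) hD
      have hl1 := hlen (k - (j + 1)) (by omega)
      have b1 := MachAux.len_of_run hrm
      have b2 := MachAux.len_of_run hrn
      have b3 : p₂.eval (x.length + (y (k - (j + 1))).length) ≤ p₂.eval M :=
        eval_mono p₂ (by omega)
      have b4 : p₃.eval (x.length + (y (k - (j + 1))).length) ≤ p₃.eval M :=
        eval_mono p₃ (by omega)
      have hb := MachAux.run_body hrm hrn (outs out x y (k - (j + 1)))
      have e1 : out x (y (k - (j + 1))) ++ outs out x y (k - (j + 1)) =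
          outs out x y (k - j) := by
        rw [show k - j = k - (j + 1) + 1 by omega]
        rfl
      have e2 : succ x (y (k - (j + 1))) = y (k - j) := by
        rw [← hs, show k - (j + 1) + 1 = k - j by omega]
      rw [e1, e2] at hb
      have h5 := Run.loopCons (r := 1) (P := MachAux.body P₂ P₃)
        (S := R [x, y (k - (j + 1)), outs out x y (k - (j + 1))]) hne hb hr
      refine ⟨_, ?_, h5⟩
      rw [e2] at b1
      have h7 : (j + 1) * C = j * C + C := by ring
      omega
  obtain ⟨n, hn, hrun⟩ := h₁ x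
  obtain ⟨t, ht, hr⟩ := hloop k le_rfl
  rw [Nat.sub_self] at hr
  have hin : inputRegs x = R [x] := MachAux.inputRegs_eq x
  have e3 : R [x, first x] = R [x, y 0, outs out x y 0] := by
    rw [hy0]
    exact (R_append_nil [x, first x]).symm
  rw [e3] at hrun
  rw [hin]
  refine ⟨_, ?_, Run.seq hrun (Run.seq hr (Run.seq (MachAux.run_d x (outs out x y k))
    (MachAux.run_e (outs out x y k))))⟩
  simp only [Polynomial.eval_add, Polynomial.eval_mul, Polynomial.eval_X, Polynomial.eval_ofNat]
  have c1 : p₁.eval x.length ≤ p₁.eval M := eval_mono p₁ (by omega)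
  have c2 := houts k le_rfl
  have c3 : (k + 1) * (p₁.eval M + 9 * p₂.eval M + 17 * p₃.eval M + 4 * M + 10) =
      k * C + 8 * (k * p₃.eval M) + (p₁.eval M + 9 * p₂.eval M + 17 * p₃.eval M + 4 * M + 10) +
      k * (p₁.eval M + 4 * M + 4 - 2 * l) := by
    have : p₁.eval M + 9 * p₂.eval M + 17 * p₃.eval M + 4 * M + 10 =
        C + 8 * p₃.eval M + (p₁.eval M + 4 * M + 4 - 2 * l) := by omega
    rw [Nat.add_mul, Nat.one_mul]
    conv_lhs => rw [this]
    ring_nf
    omega
  omega

end Pool.Agent.Lib.Wml
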