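import Pool.Agent.Lib.Wml.PAuc

/-! MODULE Wml.PExt: the extension test in polynomial time (`poly_hasPM` is a black box).
One lemma for every definition of `MDat` (`lv` by `n_card`, `cl` by `poly_lst`, the others by `PolyP.*`,
`poly_g2`, `poly_g3`, `PolyB.getD`), stated for arbitrary `s y u x w : α → ℕ` with `PolyN`, as in
Lib/Wsm/PNext.lean, so that they can be used inside quantifiers. -/

set_option autoImplicit false

namespace Pool.Agent.Lib.Wml

open Finset Equiv Pool.Agent.Lib.PolyTime Pool.Agent.Lib.Pa7c826 Pool.Agent.Lib.P8e91ed.PT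
open Pool.Agent.Lib.Wsm

variable {α : Type*} {D : α → Prop} {ctx : List (α → List Bool)}

namespace PExtAux

theorem p_iff {P Q : α → Prop} (h : PolyP D ctx P) (h' : PolyP D ctx Q) :
    PolyP D ctx (fun a => P a ↔ Q a) :=
  ((h.imp h').and (h'.imp h)).congr (fun a _ => by tauto)

/-- the data are computable in polynomial time -/
structure PM {α : Type*} (D : α → Prop) (ctx : List (α → List Bool)) (d : α → MDat)
    (p : α → List Bool) : Prop where
  n : PolyN D ctx (fun a => (d a).n)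
  P : PolyC D ctx (fun a => (d a).tP)
  B : PolyC D ctx (fun a => (d a).tB)
  p : PolyC D ctx p

variable {d : α → MDat} {p : α → List Bool} {s y u x w o r m : α → ℕ}

theorem PM.up {m : α → ℕ} (h : PM D ctx d p) :
    PM (Dx D m) (cx ctx) (fun q => d q.1) (fun q => p q.1) where
  n := nU h.n
  P := cU h.P
  B := cU h.B
  p := cU h.p

theorem poly_lv (h : PM D ctx d p) (hw : PolyN D ctx w) :
    PolyN D ctx (fun a => (d a).lv (w a)) :=
  n_card (P := fun a v => g2 (d a).n (d a).tP v (w a) = true) h.n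
    (PolyP.ofB (poly_g2 (nU h.n) (cU h.P) nL (nU hw)))

theorem poly_cl (h : PM D ctx d p) (hu : PolyN D ctx u) :
    PolyN D ctx (fun a => (d a).cl (u a)) := by
  unfold MDat.cl
  refine poly_lst (P := fun a v => ∀ w ∈ range (d a).n, (d a).lv w ≤ u a → (d a).lv w ≤ v)
    h.n.succ ?_
  refine PolyP.forall_range
    (P := fun (q : α × ℕ) w => (d q.1).lv w ≤ u q.1 → (d q.1).lv w ≤ q.2) (nU h.n) ?_
  exact (PolyP.le (poly_lv h.up.up nL) (nU (nU hu))).imp
    (PolyP.le (poly_lv h.up.up nL) (nU nL))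

theorem poly_At (h : PM D ctx d p) (hs : PolyN D ctx s) (hy : PolyN D ctx y)
    (hu : PolyN D ctx u) (hx : PolyN D ctx x) :
    PolyP D ctx (fun a => (d a).At (p a) (s a) (y a) (u a) (x a)) :=
  ((PolyP.lt hu hs).and (PolyP.ofB (poly_g2 h.n h.p hu hx))).or
    ((PolyP.eq hu hs).and (PolyP.eq hx hy))

theorem poly_GF (h : PM D ctx d p) (hs : PolyN D ctx s) (hy : PolyN D ctx y)
    (hx : PolyN D ctx x) (hw : PolyN D ctx w) :
    PolyP D ctx (fun a => (d a).GF (p a) (s a) (y a) (x a) (w a)) := by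
  unfold MDat.GF
  refine PolyP.or ?_ ?_
  · refine PolyP.forall_range
      (P := fun a u => ¬ (d a).At (p a) (s a) (y a) u (x a)) hs.succ ?_
    exact (poly_At h.up (nU hs) (nU hy) nL (nU hx)).not
  · refine PolyP.exists_range
      (P := fun a u => (d a).At (p a) (s a) (y a) u (x a) ∧ (d a).lv (w a) = (d a).cl u ∧
        ∀ m ∈ range (d a).n, g3 (d a).n (d a).tB (w a) m (x a) = true →
          ∃ v ∈ range (s a + 1), (d a).At (p a) (s a) (y a) v m ∧ (d a).cl v ≤ (d a).cl u)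
      hs.succ ?_
    refine (poly_At h.up (nU hs) (nU hy) nL (nU hx)).and
      ((PolyP.eq (poly_lv h.up (nU hw)) (poly_cl h.up nL)).and ?_)
    refine PolyP.forall_range
      (P := fun (q : α × ℕ) m => g3 (d q.1).n (d q.1).tB (w q.1) m (x q.1) = true →
          ∃ v ∈ range (s q.1 + 1), (d q.1).At (p q.1) (s q.1) (y q.1) v m ∧
            (d q.1).cl v ≤ (d q.1).cl q.2) (nU h.n) ?_
    refine (PolyP.ofB (poly_g3 h.up.up.n h.up.up.B (nU (nU hw)) nL (nU (nU hx)))).imp ?_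
    refine PolyP.exists_range
      (P := fun (q : (α × ℕ) × ℕ) v => (d q.1.1).At (p q.1.1) (s q.1.1) (y q.1.1) v q.2 ∧
            (d q.1.1).cl v ≤ (d q.1.1).cl q.1.2) (nU (nU hs)).succ ?_
    exact (poly_At h.up.up.up (nU (nU (nU hs))) (nU (nU (nU hy))) nL (nU nL)).and
      (PolyP.le (poly_cl h.up.up.up nL) (poly_cl h.up.up.up (nU (nU nL))))

theorem poly_FeaN (h : PM D ctx d p) (hs : PolyN D ctx s) (hy : PolyN D ctx y) :
    PolyP D ctx (fun a => (d a).FeaN (p a) (s a) (y a)) :=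
  poly_hasPM (n := fun a => (d a).n) (G := fun a => (d a).GF (p a) (s a) (y a)) h.n
    (poly_GF h.up.up (nU (nU hs)) (nU (nU hy)) (nU nL) nL)

theorem poly_OutN (h : PM D ctx d p) (hs : PolyN D ctx s) (hy : PolyN D ctx y)
    (ho : PolyN D ctx o) : PolyP D ctx (fun a => (d a).OutN (p a) (s a) (y a) (o a)) := by
  unfold MDat.OutN
  refine PolyP.exists_range
    (P := fun a u => (d a).cl u = (d a).cl (s a + 1) ∧
      (∃ x ∈ range (d a).n, (d a).At (p a) (s a) (y a) u x ∧ o a < x) ∧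
      (∀ v ∈ range u, g2 (d a).n (p a) v (o a) = false) ∧ (d a).FeaN (p a) u (o a)) hs.succ ?_
  refine (PolyP.eq (poly_cl h.up nL) (poly_cl h.up (nU hs).succ)).and (PolyP.and ?_
    (PolyP.and ?_ (poly_FeaN h.up nL (nU ho))))
  · refine PolyP.exists_range
      (P := fun (q : α × ℕ) x => (d q.1).At (p q.1) (s q.1) (y q.1) q.2 x ∧ o q.1 < x)
      (nU h.n) ?_
    exact (poly_At h.up.up (nU (nU hs)) (nU (nU hy)) (nU nL) nL).and
      (PolyP.lt (nU (nU ho)) nL)
  · refine PolyP.forall_range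
      (P := fun (q : α × ℕ) v => g2 (d q.1).n (p q.1) v (o q.1) = false) nL ?_
    exact p_eqB (poly_g2 h.up.up.n h.up.up.p nL (nU (nU ho))) (PolyB.const false)

theorem poly_ValN (h : PM D ctx d p) (hs : PolyN D ctx s) (hy : PolyN D ctx y) :
    PolyP D ctx (fun a => (d a).ValN (p a) (s a) (y a)) := by
  unfold MDat.ValN
  refine PolyP.forall_range
    (P := fun a u => ∀ x ∈ range (d a).n, (d a).At (p a) (s a) (y a) u x →
      (∀ v ∈ range u, g2 (d a).n (p a) v x = false) ∧ (d a).FeaN (p a) u x ∧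
      ∀ v ∈ range u, (d a).cl v = (d a).cl u →
        (∃ x' ∈ range (d a).n, g2 (d a).n (p a) v x' = true ∧ x < x') →
        ¬ (d a).FeaN (p a) v x) hs.succ ?_
  refine PolyP.forall_range
    (P := fun (q : α × ℕ) x => (d q.1).At (p q.1) (s q.1) (y q.1) q.2 x →
      (∀ v ∈ range q.2, g2 (d q.1).n (p q.1) v x = false) ∧ (d q.1).FeaN (p q.1) q.2 x ∧
      ∀ v ∈ range q.2, (d q.1).cl v = (d q.1).cl q.2 →
        (∃ x' ∈ range (d q.1).n, g2 (d q.1).n (p q.1) v x' = true ∧ x < x') →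
        ¬ (d q.1).FeaN (p q.1) v x) (nU h.n) ?_
  refine (poly_At h.up.up (nU (nU hs)) (nU (nU hy)) (nU nL) nL).imp (PolyP.and ?_
    (PolyP.and (poly_FeaN h.up.up (nU nL) nL) ?_))
  · refine PolyP.forall_range
      (P := fun (q : (α × ℕ) × ℕ) v => g2 (d q.1.1).n (p q.1.1) v q.2 = false) (nU nL) ?_
    exact p_eqB (poly_g2 h.up.up.up.n h.up.up.up.p nL (nU nL)) (PolyB.const false)
  · refine PolyP.forall_range
      (P := fun (q : (α × ℕ) × ℕ) v => (d q.1.1).cl v = (d q.1.1).cl q.1.2 →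
        (∃ x' ∈ range (d q.1.1).n, g2 (d q.1.1).n (p q.1.1) v x' = true ∧ q.2 < x') →
        ¬ (d q.1.1).FeaN (p q.1.1) v q.2) (nU nL) ?_
    refine (PolyP.eq (poly_cl h.up.up.up nL) (poly_cl h.up.up.up (nU (nU nL)))).imp
      (PolyP.imp ?_ (poly_FeaN h.up.up.up nL (nU nL)).not)
    refine PolyP.exists_range
      (P := fun (q : ((α × ℕ) × ℕ) × ℕ) x' =>
        g2 (d q.1.1.1).n (p q.1.1.1) q.2 x' = true ∧ q.1.2 < x') h.up.up.up.n ?_
    exact (PolyP.ofB (poly_g2 h.up.up.up.up.n h.up.up.up.up.p (nU nL) nL)).and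
      (PolyP.lt (nU (nU nL)) nL)

theorem poly_GT (h : PM D ctx d p) (hs : PolyN D ctx s) (hy : PolyN D ctx y)
    (hx : PolyN D ctx x) (hw : PolyN D ctx w) :
    PolyP D ctx (fun a => (d a).GT (p a) (s a) (y a) (x a) (w a)) := by
  unfold MDat.GT
  refine PolyP.and (p_iff ?_ (PolyP.lt (poly_lv h hw) (poly_cl h hs.succ)))
    ((PolyP.eq (poly_lv h hw) (poly_cl h hs.succ)).imp
      ((poly_OutN h hs hy hx).not.and ?_))
  · refine PolyP.exists_range
      (P := fun a u => (d a).At (p a) (s a) (y a) u (x a) ∧ (d a).cl u < (d a).cl (s a + 1))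
      hs.succ ?_
    exact (poly_At h.up (nU hs) (nU hy) nL (nU hx)).and
      (PolyP.lt (poly_cl h.up nL) (poly_cl h.up (nU hs).succ))
  · refine PolyP.forall_range
      (P := fun a o => (d a).OutN (p a) (s a) (y a) o →
        g3 (d a).n (d a).tB (w a) o (x a) = false) h.n ?_
    exact (poly_OutN h.up (nU hs) (nU hy) nL).imp
      (p_eqB (poly_g3 h.up.n h.up.B (nU hw) nL (nU hx)) (PolyB.const false))

theorem poly_XN (h : PM D ctx d p) (hs : PolyN D ctx s) (hy : PolyN D ctx y) :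
    PolyP D ctx (fun a => (d a).XN (p a) (s a) (y a)) :=
  (poly_ValN h hs hy).and ((PolyP.lt hs.succ h.n).imp
    (poly_hasPM (n := fun a => (d a).n) (G := fun a => (d a).GT (p a) (s a) (y a)) h.n
      (poly_GT h.up.up (nU (nU hs)) (nU (nU hy)) (nU nL) nL)))

theorem poly_OneN (h : PM D ctx d p) (hu : PolyN D ctx u) :
    PolyP D ctx (fun a => (d a).OneN (p a) (u a)) := by
  unfold MDat.OneN
  refine PolyP.exists_range
    (P := fun a x => ∀ x' ∈ range (d a).n, (g2 (d a).n (p a) (u a) x' = true ↔ x' = x)) h.n ?_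
  refine PolyP.forall_range
    (P := fun (q : α × ℕ) x' => (g2 (d q.1).n (p q.1) (u q.1) x' = true ↔ x' = q.2)) (nU h.n) ?_
  exact p_iff (PolyP.ofB (poly_g2 h.up.up.n h.up.up.p (nU (nU hu)) nL)) (PolyP.eq nL (nU nL))

theorem poly_GM (h : PM D ctx d p) (hs : PolyN D ctx s) (hy : PolyN D ctx y)
    (hr : PolyN D ctx r) (hx : PolyN D ctx x) (hw : PolyN D ctx w) :
    PolyP D ctx (fun a => (d a).GM (p a) (s a) (y a) (r a) (x a) (w a)) := by
  unfold MDat.GM
  refine (poly_GF h hs hy hx hw).and ?_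
  refine PolyP.forall_range
    (P := fun a j => x a * (d a).n + j < r a →
      ((p a).getD ((d a).n * (d a).n + (x a * (d a).n + j)) false = true ↔ j = w a)) h.n ?_
  exact (PolyP.lt (((nU hx).mul h.up.n).add nL) (nU hr)).imp
    (p_iff (PolyP.ofB (PolyB.getD h.up.p ((h.up.n.mul h.up.n).add (((nU hx).mul h.up.n).add nL))))
      (PolyP.eq nL (nU hw)))

theorem poly_Ext1 (h : PM D ctx d p) : PolyP D ctx (fun a => (d a).Ext1 (p a)) := by
  unfold MDat.Ext1
  refine PolyP.exists_range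
    (P := fun a t => ∃ r ∈ range (d a).n, (p a).length = t * (d a).n + r ∧
      (∀ u ∈ range t, (d a).OneN (p a) u) ∧
      ∃ y ∈ range (d a).n, (∀ j ∈ range r, (g2 (d a).n (p a) t j = true ↔ j = y)) ∧
        (d a).XN (p a) t y) h.n ?_
  refine PolyP.exists_range
    (P := fun (q : α × ℕ) r => (p q.1).length = q.2 * (d q.1).n + r ∧
      (∀ u ∈ range q.2, (d q.1).OneN (p q.1) u) ∧
      ∃ y ∈ range (d q.1).n, (∀ j ∈ range r, (g2 (d q.1).n (p q.1) q.2 j = true ↔ j = y)) ∧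
        (d q.1).XN (p q.1) q.2 y) (nU h.n) ?_
  refine (PolyP.eq (PolyN.length h.up.up.p) (((nU nL).mul h.up.up.n).add nL)).and
    (PolyP.and ?_ ?_)
  · refine PolyP.forall_range
      (P := fun (q : (α × ℕ) × ℕ) u => (d q.1.1).OneN (p q.1.1) u) (nU nL) ?_
    exact poly_OneN h.up.up.up nL
  · refine PolyP.exists_range
      (P := fun (q : (α × ℕ) × ℕ) y =>
        (∀ j ∈ range q.2, (g2 (d q.1.1).n (p q.1.1) q.1.2 j = true ↔ j = y)) ∧
        (d q.1.1).XN (p q.1.1) q.1.2 y) h.up.up.n ?_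
    refine PolyP.and ?_ (poly_XN h.up.up.up (nU (nU nL)) nL)
    refine PolyP.forall_range
      (P := fun (q : ((α × ℕ) × ℕ) × ℕ) j =>
        (g2 (d q.1.1.1).n (p q.1.1.1) q.1.1.2 j = true ↔ j = q.2)) (nU nL) ?_
    exact p_iff (PolyP.ofB (poly_g2 h.up.up.up.up.n h.up.up.up.up.p (nU (nU (nU nL))) nL))
      (PolyP.eq nL (nU nL))

theorem poly_Ext2 (h : PM D ctx d p) : PolyP D ctx (fun a => (d a).Ext2 (p a)) := by
  unfold MDat.Ext2
  refine PolyP.exists_range
    (P := fun a r => (p a).length = (d a).n * (d a).n + r ∧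
      (∀ u ∈ range (d a).n, (d a).OneN (p a) u) ∧
      ((d a).n = 0 ∨ ∃ s ∈ range (d a).n, s + 1 = (d a).n ∧
        ∃ y ∈ range (d a).n, g2 (d a).n (p a) s y = true ∧
        (d a).XN (p a) s y ∧ hasPM (d a).n ((d a).GM (p a) s y r)))
    (h.n.mul h.n).succ ?_
  refine (PolyP.eq (PolyN.length h.up.p) ((h.up.n.mul h.up.n).add nL)).and
    (PolyP.and ?_ (PolyP.or (PolyP.eq h.up.n (PolyN.const 0)) ?_))
  · refine PolyP.forall_range
      (P := fun (q : α × ℕ) u => (d q.1).OneN (p q.1) u) (nU h.n) ?_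
    exact poly_OneN h.up.up nL
  · refine PolyP.exists_range
      (P := fun (q : α × ℕ) s => s + 1 = (d q.1).n ∧
        ∃ y ∈ range (d q.1).n, g2 (d q.1).n (p q.1) s y = true ∧
        (d q.1).XN (p q.1) s y ∧ hasPM (d q.1).n ((d q.1).GM (p q.1) s y q.2)) (nU h.n) ?_
    refine (PolyP.eq nL.succ h.up.up.n).and ?_
    refine PolyP.exists_range
      (P := fun (q : (α × ℕ) × ℕ) y => g2 (d q.1.1).n (p q.1.1) q.2 y = true ∧
        (d q.1.1).XN (p q.1.1) q.2 y ∧
        hasPM (d q.1.1).n ((d q.1.1).GM (p q.1.1) q.2 y q.1.2)) h.up.up.n ?_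
    refine (PolyP.ofB (poly_g2 h.up.up.up.n h.up.up.up.p (nU nL) nL)).and
      ((poly_XN h.up.up.up (nU nL) nL).and ?_)
    exact poly_hasPM (n := fun q : ((α × ℕ) × ℕ) × ℕ => (d q.1.1.1).n)
      (G := fun q => (d q.1.1.1).GM (p q.1.1.1) q.1.2 q.2 q.1.1.2) h.up.up.up.n
      (poly_GM h.up.up.up.up.up (nU (nU (nU nL))) (nU (nU nL)) (nU (nU (nU (nU nL)))) (nU nL) nL)

end PExtAux

open PExtAux

theorem poly_ExtN {d : α → MDat} {p : α → List Bool} (hn : PolyN D ctx (fun a => (d a).n))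
    (hP : PolyC D ctx (fun a => (d a).tP)) (hB : PolyC D ctx (fun a => (d a).tB))
    (hp : PolyC D ctx p) : PolyP D ctx (fun a => (d a).ExtN (p a)) :=
  (poly_Ext1 ⟨hn, hP, hB, hp⟩).or (poly_Ext2 ⟨hn, hP, hB, hp⟩)

end Pool.Agent.Lib.Wml
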