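import Pool.Agent.Lib.Wml.Alg
import Pool.Agent.Lib.Wsm.PTab

/-! MODULE Wml.PFlash: the backtracking functions in polynomial time. -/

set_option autoImplicit false

namespace Pool.Agent.Lib.Wml

open Finset Equiv Pool.Agent.Lib.PolyTime Pool.Agent.Lib.Pa7c826 Pool.Agent.Lib.P8e91ed.PT
open Pool.Agent.Lib.Wsm

variable {α : Type*} {D : α → Prop} {ctx : List (α → List Bool)}

namespace PFlashAux

/-- the predicate at a computed list -/
theorem subE {β : Type*} {E : α → List Bool → Prop} {D' : β → Prop}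
    {ctx' : List (β → List Bool)}
    (hE : PolyP (fun q : α × List Bool => D q.1) (PolyTime.lift ctx ++ [fun q => q.2])
      (fun q => E q.1 q.2)) (π : β → α) (hD : ∀ b, D' b → D (π b))
    (hctx : ∀ f ∈ ctx, PolyC D' ctx' (fun b => f (π b)))
    {t : β → List Bool} (ht : PolyC D' ctx' t) :
    PolyP D' ctx' (fun b => E (π b) (t b)) := by
  obtain ⟨φ, h1, h2⟩ := hE
  refine ⟨fun b => φ (π b, t b), ?_, fun b hb => h2 (π b, t b) (hD b hb)⟩
  refine (PolyC.reindex h1 (fun b => (π b, t b)) hD).comp ?_
  intro f hf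
  simp only [List.map_append, List.map_cons, List.map_nil, List.mem_append, List.mem_map,
    List.mem_cons, List.not_mem_nil, or_false, PolyTime.lift] at hf
  rcases hf with ⟨g, ⟨g', hg', rfl⟩, rfl⟩ | rfl
  · exact hctx g' hg'
  · exact ht

theorem chg {β : Type*} {E : α → List Bool → Prop} {D' : β → Prop}
    {ctx' : List (β → List Bool)}
    (hE : PolyP (fun q : α × List Bool => D q.1) (PolyTime.lift ctx ++ [fun q => q.2])
      (fun q => E q.1 q.2)) (π : β → α) (hD : ∀ b, D' b → D (π b))
    (hctx : ∀ f ∈ ctx, PolyC D' ctx' (fun b => f (π b)))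
    {c : β → List Bool} {i : β → ℕ} (hc : PolyC D' ctx' c) (hi : PolyN D' ctx' i) :
    PolyP D' ctx' (fun b => Chg (E (π b)) (c b) (i b)) := by
  unfold Chg
  exact PolyP.and (p_eqB (PolyB.getD hc hi) (PolyB.const false))
    (subE hE π hD hctx (PolyC.append (PolyC.take hc hi) (PolyC.const [true])))

theorem fillN_length (E : List Bool → Prop) (l k : ℕ) (p : List Bool) :
    (fillN E l k p).length ≤ p.length + k := by
  induction k with
  | zero => simp [fillN]
  | succ k ih =>
    simp only [fillN]
    split_ifs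
    · rw [List.length_append]
      simp only [List.length_cons, List.length_nil]
      omega
    · rw [List.length_append]
      simp only [List.length_cons, List.length_nil]
      omega
    · omega

theorem poly_fillN {E : α → List Bool → Prop} {l k : α → ℕ} {p : α → List Bool}
    (hl : PolyN D ctx l) (hk : PolyN D ctx k) (hp : PolyC D ctx p)
    (hE : PolyP (fun q : α × List Bool => D q.1) (PolyTime.lift ctx ++ [fun q => q.2])
      (fun q => E q.1 q.2)) : PolyC D ctx (fun a => fillN (E a) (l a) (k a) (p a)) := by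
  obtain ⟨pp, hpp⟩ := hp.length_le
  obtain ⟨pk, hpk⟩ := PolyC.length_le hk
  refine PolyC.natRec (fun a k => fillN (E a) (l a) k (p a)) hk (hp.congr (fun a _ => rfl)) ?_
    ⟨pp + pk, fun a ha i hi => ?_⟩
  · have hD : ∀ q : α × ℕ, (D q.1 ∧ q.2 < k q.1) → D q.1 := fun q h => h.1
    have hctx : ∀ f ∈ ctx, PolyC (fun q : α × ℕ => D q.1 ∧ q.2 < k q.1)
        (PolyTime.lift ctx ++ [fun q => un q.2, fun q => fillN (E q.1) (l q.1) q.2 (p q.1)])
        (fun q => f q.1) := fun f hf => up2 (PolyC.var hf)
    have hF : PolyC (fun q : α × ℕ => D q.1 ∧ q.2 < k q.1)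
        (PolyTime.lift ctx ++ [fun q => un q.2, fun q => fillN (E q.1) (l q.1) q.2 (p q.1)])
        (fun q => fillN (E q.1) (l q.1) q.2 (p q.1)) := PolyC.var (by simp)
    have hlu : PolyN (fun q : α × ℕ => D q.1 ∧ q.2 < k q.1)
        (PolyTime.lift ctx ++ [fun q => un q.2, fun q => fillN (E q.1) (l q.1) q.2 (p q.1)])
        (fun q => l q.1) := up2 hl
    have h0 := PolyC.append hF (PolyC.const [false])
    have h1 := PolyC.append hF (PolyC.const [true])
    simp only [fillN]
    exact c_ite (PolyP.lt (PolyN.length hF) hlu)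
      (c_ite (subE hE Prod.fst hD hctx h0) h0 h1) hF
  · have h1 := hpp a ha
    have h2 := hpk a ha
    rw [un_length] at h2
    rw [Polynomial.eval_add]
    exact (fillN_length _ _ _ _).trans (Nat.add_le_add h1 (hi.trans h2))

theorem poly_fill {E : α → List Bool → Prop} {l : α → ℕ} {p : α → List Bool}
    (hl : PolyN D ctx l) (hp : PolyC D ctx p)
    (hE : PolyP (fun q : α × List Bool => D q.1) (PolyTime.lift ctx ++ [fun q => q.2])
      (fun q => E q.1 q.2)) : PolyC D ctx (fun a => fill (E a) (l a) (p a)) :=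
  poly_fillN hl hl hp hE

end PFlashAux

open PFlashAux

theorem poly_first {E : α → List Bool → Prop} {l : α → ℕ} (hl : PolyN D ctx l)
    (hE : PolyP (fun q : α × List Bool => D q.1) (PolyTime.lift ctx ++ [fun q => q.2])
      (fun q => E q.1 q.2)) : PolyC D ctx (fun a => first (E a) (l a)) := by
  unfold first
  exact c_ite (subE hE (fun a => a) (fun _ h => h) (fun f hf => PolyC.var hf) PolyC.nil)
    (PolyC.cons true (poly_fill hl PolyC.nil hE)) PolyC.nil

theorem poly_nextC {E : α → List Bool → Prop} {l : α → ℕ} {c : α → List Bool}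
    (hl : PolyN D ctx l) (hc : PolyC D ctx c) (hcl : ∀ a, D a → (c a).length = l a)
    (hE : PolyP (fun q : α × List Bool => D q.1) (PolyTime.lift ctx ++ [fun q => q.2])
      (fun q => E q.1 q.2)) : PolyC D ctx (fun a => nextC (E a) (l a) (c a)) := by
  have hlast : PolyN D ctx (fun a => lastC (E a) (l a) (c a)) := by
    unfold lastC
    refine poly_lst (P := fun a e => ∃ i ∈ range (l a), i + e + 1 = l a ∧ Chg (E a) (c a) i) hl ?_
    refine PolyP.exists_range (n := fun p : α × ℕ => l p.1)
      (P := fun (p : α × ℕ) i => i + p.2 + 1 = l p.1 ∧ Chg (E p.1) (c p.1) i) (nU hl) ?_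
    refine PolyP.and (PolyP.eq ((nL.add (nU nL)).succ) (nU (nU hl))) ?_
    exact chg hE (fun q : (α × ℕ) × ℕ => q.1.1) (fun q h => h.1.1)
      (fun f hf => cU (cU (PolyC.var hf))) (cU (cU hc)) nL
  unfold nextC
  refine c_ite ?_ (PolyC.cons true (poly_fill hl (PolyC.append
    (PolyC.take hc (PolyN.sub (PolyN.sub hl (PolyN.const 1)) hlast)) (PolyC.const [true])) hE))
    PolyC.nil
  refine PolyP.exists_range (P := fun a i => Chg (E a) (c a) i) hl ?_
  exact chg hE (fun q : α × ℕ => q.1) (fun q h => h.1)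
    (fun f hf => cU (PolyC.var hf)) (cU hc) nL

end Pool.Agent.Lib.Wml
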