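import Pool.Agent.Lib.Wml.BitD
import Pool.Agent.Lib.Wml.Mach
import Pool.Agent.Lib.Wml.Flash
import Pool.Agent.Lib.Wml.PFlash
import Pool.Agent.Lib.Wml.PExt
import Pool.Agent.Lib.Wml.Com
import Pool.Agent.Lib.Wsm.StepSpec
import Pool.Agent.Lib.Wsm.Final

/-!
# The listing machine for instances with a common list
-/

set_option autoImplicit false

namespace Pool.Agent.Lib.Wml

open Finset Equiv Pool.Agent.Lib.PolyTime Pool.Agent.Lib.P8e91ed.PT
open Pool.Agent.Lib.Wsm

namespace FinAux

open StepSpecAux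

/-- all lists of the table are the first one -/
def ComT (n : ℕ) (tA : List Bool) : Prop :=
  ∀ p ∈ range n, ∀ a ∈ range n, ∀ b ∈ range n, g3 n tA p a b = g3 n tA 0 a b

open Classical in
/-- the data of the code of an instance -/
noncomputable def dat (x : List Bool) : MDat :=
  { n := nOf x
    tP := if ComT (nOf x) (t1Of x) then t1Of x else t2Of x
    tB := if ComT (nOf x) (t1Of x) then t2Of x else t1Of x }

def len (x : List Bool) : ℕ := 2 * (nOf x * nOf x)

noncomputable def firstM (x : List Bool) : List Bool := first (fun p => (dat x).ExtN p) (len x)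

noncomputable def succM (x y : List Bool) : List Bool :=
  nextC (fun p => (dat x).ExtN p) (len x) y.tail

open Classical in
noncomputable def outM (x y : List Bool) : List Bool :=
  true :: (if ComT (nOf x) (t1Of x) then y.drop (nOf x * nOf x + 1)
    else trn (nOf x) (y.drop (nOf x * nOf x + 1)))

section poly

variable {α : Type*} {D : α → Prop} {ctx : List (α → List Bool)} {x y : α → List Bool}

theorem poly_ComT (hx : PolyC D ctx x) :
    PolyP D ctx (fun a => ComT (nOf (x a)) (t1Of (x a))) := by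
  unfold ComT
  have hn := poly_nOf hx
  refine PolyP.forall_range (P := fun a p => ∀ u ∈ range (nOf (x a)), ∀ b ∈ range (nOf (x a)),
    g3 (nOf (x a)) (t1Of (x a)) p u b = g3 (nOf (x a)) (t1Of (x a)) 0 u b) hn ?_
  refine PolyP.forall_range (n := fun q : α × ℕ => nOf (x q.1))
    (P := fun (q : α × ℕ) u => ∀ b ∈ range (nOf (x q.1)),
    g3 (nOf (x q.1)) (t1Of (x q.1)) q.2 u b = g3 (nOf (x q.1)) (t1Of (x q.1)) 0 u b) (nU hn) ?_
  refine PolyP.forall_range (n := fun q : (α × ℕ) × ℕ => nOf (x q.1.1))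
    (P := fun (q : (α × ℕ) × ℕ) b =>
    g3 (nOf (x q.1.1)) (t1Of (x q.1.1)) q.1.2 q.2 b =
      g3 (nOf (x q.1.1)) (t1Of (x q.1.1)) 0 q.2 b) (nU (nU hn)) ?_
  have ht := poly_t1Of hx
  exact p_eqB (poly_g3 (nU (nU (nU hn))) (cU (cU (cU ht))) (nU (nU nL)) (nU nL) nL)
    (poly_g3 (nU (nU (nU hn))) (cU (cU (cU ht))) (PolyN.const 0) (nU nL) nL)

theorem poly_len (hx : PolyC D ctx x) : PolyN D ctx (fun a => len (x a)) :=
  (PolyN.const 2).mul ((poly_nOf hx).mul (poly_nOf hx))

theorem poly_E {p : α → List Bool} (hx : PolyC D ctx x) (hp : PolyC D ctx p) :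
    PolyP D ctx (fun a => (dat (x a)).ExtN (p a)) := by
  classical
  refine poly_ExtN (d := fun a => dat (x a)) (poly_nOf hx) ?_ ?_ hp
  · exact c_ite (poly_ComT hx) (poly_t1Of hx) (poly_t2Of hx)
  · exact c_ite (poly_ComT hx) (poly_t2Of hx) (poly_t1Of hx)

theorem poly_firstM (hx : PolyC D ctx x) : PolyC D ctx (fun a => firstM (x a)) := by
  refine poly_first (E := fun a p => (dat (x a)).ExtN p) (poly_len hx) ?_
  exact poly_E (x := fun q : α × List Bool => x q.1) (p := fun q : α × List Bool => q.2)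
    ((PolyC.lift hx (fun _ h => h)).weakenRight _) (PolyC.var (by simp))

theorem poly_succM (hx : PolyC D ctx x) (hy : PolyC D ctx y)
    (hl : ∀ a, D a → (y a).tail.length = len (x a)) :
    PolyC D ctx (fun a => succM (x a) (y a)) := by
  refine poly_nextC (E := fun a p => (dat (x a)).ExtN p) (c := fun a => (y a).tail)
    (poly_len hx) (PolyC.tail hy) hl ?_
  exact poly_E (x := fun q : α × List Bool => x q.1) (p := fun q : α × List Bool => q.2)
    ((PolyC.lift hx (fun _ h => h)).weakenRight _) (PolyC.var (by simp))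

theorem poly_outM (hx : PolyC D ctx x) (hy : PolyC D ctx y) :
    PolyC D ctx (fun a => outM (x a) (y a)) := by
  classical
  have h1 : PolyC D ctx (fun a => (y a).drop (nOf (x a) * nOf (x a) + 1)) :=
    PolyC.drop hy (((poly_nOf hx).mul (poly_nOf hx)).succ)
  exact PolyC.cons true (c_ite (poly_ComT hx) h1 (poly_trn (poly_nOf hx) h1))

end poly

/-! ### Correctness -/

theorem extN_iff {d : MDat} {rP : Fin d.n → ℕ} {rB : Fin d.n → Fin d.n → ℕ} (h : Rep d rP rB)
    (p : List Bool) (hp : p.length ≤ 2 * (d.n * d.n)) :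
    d.ExtN p ↔ ∃ (M : Perm (Fin d.n)) (c : List Bool), StabF rP rB M ∧ Code rP rB M c ∧
      p <+: c := by
  unfold MDat.ExtN
  rcases lt_or_ge p.length (d.n * d.n) with h1 | h1
  · rw [← Ext1_iff h p h1]
    constructor
    · rintro (h2 | h2)
      · exact h2
      · exact absurd (Ext2_length p h2) (by omega)
    · exact Or.inl
  · rw [← Ext2_iff h p h1 hp]
    constructor
    · rintro (h2 | h2)
      · exact absurd (Ext1_length p h2) (by omega)
      · exact h2
    · exact Or.inr

theorem extN_step {d : MDat} {rP : Fin d.n → ℕ} {rB : Fin d.n → Fin d.n → ℕ} (h : Rep d rP rB)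
    (p : List Bool) (hp : p.length < 2 * (d.n * d.n)) :
    d.ExtN p ↔ d.ExtN (p ++ [false]) ∨ d.ExtN (p ++ [true]) := by
  have hl : ∀ b : Bool, (p ++ [b]).length ≤ 2 * (d.n * d.n) := by
    intro b; simp; omega
  rw [extN_iff h p hp.le, extN_iff h _ (hl false), extN_iff h _ (hl true)]
  constructor
  · rintro ⟨M, c, hM, hc, q, hq⟩
    have hlen := code_length hc
    rcases q with _ | ⟨b, q⟩
    · rw [List.append_nil] at hq
      rw [hq] at hp
      omega
    · cases b with
      | false => exact Or.inl ⟨M, c, hM, hc, q, by rw [← hq]; simp⟩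
      | true => exact Or.inr ⟨M, c, hM, hc, q, by rw [← hq]; simp⟩
  · rintro (⟨M, c, hM, hc, hq⟩ | ⟨M, c, hM, hc, hq⟩)
    · exact ⟨M, c, hM, hc, (List.prefix_append _ _).trans hq⟩
    · exact ⟨M, c, hM, hc, (List.prefix_append _ _).trans hq⟩

theorem list_of {d : MDat} {rP : Fin d.n → ℕ} {rB : Fin d.n → Fin d.n → ℕ} (h : Rep d rP rB) :
    ∃ (k : ℕ) (M : ℕ → Perm (Fin d.n)) (c y : ℕ → List Bool),
      y 0 = first (fun p => d.ExtN p) (2 * (d.n * d.n)) ∧
      (∀ i < k, y i = true :: c i ∧ y (i + 1) = nextC (fun p => d.ExtN p) (2 * (d.n * d.n)) (c i)) ∧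
      y k = [] ∧
      (∀ i < k, StabF rP rB (M i) ∧ (c i).length = 2 * (d.n * d.n) ∧
        (c i).drop (d.n * d.n) = permBits (M i)) ∧
      (∀ i < k, ∀ j < k, M i = M j → i = j) ∧
      ∀ N : Perm (Fin d.n), StabF rP rB N → ∃ i < k, M i = N := by
  classical
  obtain ⟨k, c, y, h0, h1, h2, h3, h4, h5⟩ := flash (fun p => d.ExtN p) (2 * (d.n * d.n))
    (fun p hp => extN_step h p hp)
  have hM : ∀ i < k, ∃ M : Perm (Fin d.n), StabF rP rB M ∧ Code rP rB M (c i) := by
    intro i hi
    obtain ⟨e1, e2⟩ := h3 i hi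
    obtain ⟨M, c', hM, hc, hq⟩ := (extN_iff h (c i) e1.le).1 e2
    refine ⟨M, hM, ?_⟩
    have : c i = c' := hq.eq_of_length (by rw [e1, code_length hc])
    rw [this]; exact hc
  choose! M hM1 hM2 using hM
  refine ⟨k, M, c, y, h0, h1, h2, fun i hi => ⟨hM1 i hi, (h3 i hi).1, code_drop (hM2 i hi)⟩,
    ?_, ?_⟩
  · intro i hi j hj e
    apply h4 i hi j hj
    have h6 := hM2 i hi
    rw [e] at h6
    exact code_unique h6 (hM2 j hj)
  · intro N hN
    obtain ⟨cN, hcN⟩ := code_ex N hN
    have h7 := code_length hcN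
    obtain ⟨i, hi, e⟩ := h5 cN h7 ((extN_iff h cN h7.le).2 ⟨N, cN, hN, hcN, List.prefix_refl _⟩)
    refine ⟨i, hi, ?_⟩
    have h8 := code_drop (hM2 i hi)
    rw [e, code_drop hcN] at h8
    exact (permBits_inj h8).symm

theorem comT_iff {n : ℕ} (r : Fin n → Fin n → Fin n) : ComT n (encR r) ↔ CommonList r := by
  constructor
  · intro h p q a b
    have hn : 0 < n := p.pos
    have h1 := h p (mem_range.2 p.2) a (mem_range.2 a.2) b (mem_range.2 b.2)
    have h2 := h q (mem_range.2 q.2) a (mem_range.2 a.2) b (mem_range.2 b.2)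
    rw [← h2, encR_g3, encR_g3, decide_eq_decide] at h1
    exact h1
  · intro h p hp a ha b hb
    rw [mem_range] at hp ha hb
    have h1 := encR_g3 r ⟨p, hp⟩ ⟨a, ha⟩ ⟨b, hb⟩
    have h2 := encR_g3 r ⟨0, by omega⟩ ⟨a, ha⟩ ⟨b, hb⟩
    simp only at h1 h2
    rw [h1, h2, decide_eq_decide]
    exact h _ _ _ _

/-- rank in the common list -/
def rk {n : ℕ} (r : Fin n → Fin n → Fin n) (w : Fin n) : ℕ := (r ⟨0, w.pos⟩ w : ℕ)

theorem rk_lt {n : ℕ} {r : Fin n → Fin n → Fin n} (h : CommonList r) (p a b : Fin n) :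
    rk r a < rk r b ↔ r p a < r p b := by
  unfold rk
  rw [Fin.val_fin_lt]
  exact h _ _ _ _

theorem rep_of {n : ℕ} (r s : Fin n → Fin n → Fin n) (h : CommonList r) :
    Rep ⟨n, encR r, encR s⟩ (rk r) (fun w m => (s w m : ℕ)) where
  hP := by
    intro v w
    have h1 := encR_g3 r ⟨0, w.pos⟩ v w
    have h2 : g2 n (encR r) v w = g3 n (encR r) ((⟨0, w.pos⟩ : Fin n) : ℕ) v w := by
      unfold g2 g3
      simp
    change g2 n (encR r) v w = true ↔ _
    rw [h2, h1, decide_eq_true_eq, rk_lt h ⟨0, w.pos⟩]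
  hB := by
    intro w a b
    change g3 n (encR s) w a b = true ↔ _
    rw [encR_g3, decide_eq_true_eq, Fin.val_fin_lt]

theorem stabF_man (I : SMT) (h : CommonList I.man) (M : Perm (Fin I.n)) :
    StabF (rk I.man) (fun w m => (I.woman w m : ℕ)) M ↔ WeaklyStable I M := by
  unfold StabF WeaklyStable
  refine forall_congr' fun m => forall_congr' fun w => not_congr (and_congr ?_ ?_)
  · exact rk_lt h m w (M m)
  · exact Fin.val_fin_lt

theorem stabF_woman (I : SMT) (h : CommonList I.woman) (M : Perm (Fin I.n)) :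
    StabF (rk I.woman) (fun m w => (I.man m w : ℕ)) M ↔ WeaklyStable I M.symm := by
  unfold StabF WeaklyStable
  constructor
  · intro hs m w hb
    refine hs w m ⟨(rk_lt h w m (M w)).2 (by simpa using hb.2), Fin.val_fin_lt.2 hb.1⟩
  · intro hs w m hb
    exact hs m w ⟨Fin.val_fin_lt.1 hb.2, by simpa using (rk_lt h w m (M w)).1 hb.1⟩

theorem nOf_pos_seq (I : SMT) (r s : Fin I.n → Fin I.n → Fin I.n) (hr : CommonList r)
    (hdat : dat (encI I) = ⟨I.n, encR r, encR s⟩) :
    ∃ (k : ℕ) (M : ℕ → Perm (Fin I.n)) (y : ℕ → List Bool),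
      y 0 = firstM (encI I) ∧
      (∀ i < k, (y i).tail.length = len (encI I) ∧ y i ≠ [] ∧ y (i + 1) = succM (encI I) (y i)) ∧
      y k = [] ∧
      (∀ i < k, (y i).length = 2 * (I.n * I.n) + 1) ∧
      (∀ i < k, StabF (rk r) (fun w m => (s w m : ℕ)) (M i) ∧
        (y i).drop (I.n * I.n + 1) = permBits (M i)) ∧
      (∀ i < k, ∀ j < k, M i = M j → i = j) ∧
      ∀ N : Perm (Fin I.n), StabF (rk r) (fun w m => (s w m : ℕ)) N → ∃ i < k, M i = N := by
  obtain ⟨k, M, c, y, h0, h1, h2, h3, h4, h5⟩ := list_of (rep_of r s hr)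
  have hlen : len (encI I) = 2 * (I.n * I.n) := by unfold len; rw [nOf_encI]
  refine ⟨k, M, y, ?_, ?_, h2, ?_, ?_, h4, h5⟩
  · rw [h0]
    unfold firstM
    rw [hlen, hdat]
  · intro i hi
    obtain ⟨e1, e2⟩ := h1 i hi
    refine ⟨?_, ?_, ?_⟩
    · rw [e1, List.tail_cons, hlen]
      exact (h3 i hi).2.1
    · rw [e1]; simp
    · rw [e2]
      unfold succM
      rw [e1, List.tail_cons, hlen, hdat]
  · intro i hi
    rw [(h1 i hi).1, List.length_cons]
    have := (h3 i hi).2.1
    simp only at this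
    omega
  · intro i hi
    refine ⟨(h3 i hi).1, ?_⟩
    rw [(h1 i hi).1, List.drop_succ_cons]
    exact (h3 i hi).2.2

theorem main_seq (I : SMT) (hI : CommonSide I) :
    ∃ (k : ℕ) (N : ℕ → Perm (Fin I.n)) (y : ℕ → List Bool),
      y 0 = firstM (encI I) ∧
      (∀ i < k, (y i).tail.length = len (encI I) ∧ y i ≠ [] ∧ y (i + 1) = succM (encI I) (y i)) ∧
      y k = [] ∧
      (∀ i < k, (y i).length = 2 * (I.n * I.n) + 1) ∧
      (∀ i < k, WeaklyStable I (N i) ∧ outM (encI I) (y i) = true :: encM (N i)) ∧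
      (∀ i < k, ∀ j < k, N i = N j → i = j) ∧
      ∀ M : Perm (Fin I.n), WeaklyStable I M → ∃ i < k, N i = M := by
  classical
  by_cases hm : CommonList I.man
  · have hc : ComT (nOf (encI I)) (t1Of (encI I)) := by
      rw [nOf_encI, t1_encI, comT_iff]; exact hm
    have hdat : dat (encI I) = ⟨I.n, encR I.man, encR I.woman⟩ := by
      unfold dat
      rw [if_pos hc, if_pos hc, nOf_encI, t1_encI, t2_encI]
    obtain ⟨k, M, y, h0, h1, h2, h3, h4, h5, h6⟩ := nOf_pos_seq I I.man I.woman hm hdat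
    refine ⟨k, M, y, h0, h1, h2, h3, ?_, h5, ?_⟩
    · intro i hi
      refine ⟨(stabF_man I hm _).1 (h4 i hi).1, ?_⟩
      unfold outM
      rw [if_pos hc, nOf_encI, (h4 i hi).2, encM_eq]
    · intro N hN
      exact h6 N ((stabF_man I hm _).2 hN)
  · have hw : CommonList I.woman := hI.resolve_left hm
    have hc : ¬ ComT (nOf (encI I)) (t1Of (encI I)) := by
      rw [nOf_encI, t1_encI, comT_iff]; exact hm
    have hdat : dat (encI I) = ⟨I.n, encR I.woman, encR I.man⟩ := by
      unfold dat
      rw [if_neg hc, if_neg hc, nOf_encI, t1_encI, t2_encI]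
    obtain ⟨k, M, y, h0, h1, h2, h3, h4, h5, h6⟩ := nOf_pos_seq I I.woman I.man hw hdat
    refine ⟨k, fun i => (M i).symm, y, h0, h1, h2, h3, ?_, ?_, ?_⟩
    · intro i hi
      refine ⟨(stabF_woman I hw _).1 (h4 i hi).1, ?_⟩
      unfold outM
      rw [if_neg hc, nOf_encI, (h4 i hi).2, encM_eq, trn_permBits]
    · intro i hi j hj e
      apply h5 i hi j hj
      have := congrArg Equiv.symm e
      simpa using this
    · intro N hN
      obtain ⟨i, hi, e⟩ := h6 N.symm ((stabF_woman I hw _).2 (by simpa using hN))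
      exact ⟨i, hi, by simp only [e]; simp⟩

theorem outs_eq (I : SMT) (y : ℕ → List Bool) (N : ℕ → Perm (Fin I.n)) (k : ℕ)
    (h : ∀ i < k, outM (encI I) (y i) = true :: encM (N i)) :
    ∀ j ≤ k, outs outM (encI I) y j = encL (((List.range j).map N).reverse) := by
  intro j
  induction j with
  | zero => intro _; simp [outs, encL]
  | succ j ih =>
    intro hj
    have e1 := ih (by omega)
    rw [outs, e1, h j (by omega), List.range_succ, List.map_append, List.reverse_append]
    simp [encL]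

end FinAux

open FinAux StepSpecAux

/-- **Listing machine, linear in the number of matchings.** -/
theorem listing2 :
    ∃ (tm : Turing.FinTM2) (ein : tm.Γ tm.k₀ ≃ Bool) (eout : tm.Γ tm.k₁ ≃ Bool)
      (P Q : Polynomial ℕ), ∀ I : SMT, CommonSide I →
      ∃ L : List (Perm (Fin I.n)), L.Nodup ∧ (∀ M, M ∈ L ↔ WeaklyStable I M) ∧
        Nonempty (Turing.TM2OutputsInTime tm ((encI I).map ein.symm)
          (some ((encL L).map eout.symm)) (P.eval I.n + L.length * Q.eval I.n)) := by
  obtain ⟨P, q, hP⟩ := lin_machine firstM succM outM (fun p => p.2.tail.length = len p.1)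
    (poly_firstM (PolyC.var (by simp)))
    (poly_succM (PolyC.var (by simp)) (PolyC.var (by simp)) (fun p hp => hp))
    (poly_outM (PolyC.var (by simp)) (PolyC.var (by simp)))
  set R : Polynomial ℕ := q.comp (Polynomial.X + 1 + 2 * (Polynomial.X * (Polynomial.X *
    Polynomial.X)) + (2 * (Polynomial.X * Polynomial.X) + 1)) with hR
  refine ⟨machine P, Equiv.refl Bool, Equiv.refl Bool, R + 1, R, fun I hI => ?_⟩
  obtain ⟨k, N, y, h0, h1, h2, h3, h4, h5, h6⟩ := main_seq I hI
  have houts := outs_eq I y N k (fun i hi => (h4 i hi).2) k le_rfl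
  refine ⟨((List.range k).map N).reverse, ?_, ?_, ?_⟩
  · rw [List.nodup_reverse]
    refine List.Nodup.map_on ?_ List.nodup_range
    intro a ha b hb e
    exact h5 a (List.mem_range.1 ha) b (List.mem_range.1 hb) e
  · intro M
    rw [List.mem_reverse, List.mem_map]
    constructor
    · rintro ⟨i, hi, rfl⟩
      exact (h4 i (List.mem_range.1 hi)).1
    · intro hM
      obtain ⟨i, hi, e⟩ := h6 M hM
      exact ⟨i, List.mem_range.2 hi, e⟩
  · obtain ⟨t, ht, hrun⟩ := hP (encI I) k (2 * (I.n * I.n) + 1) y h0 h1 h2 (by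
      intro i hi
      rcases Nat.lt_or_ge i k with h | h
      · exact (h3 i h).le
      · have : i = k := by omega
        rw [this, h2]; simp)
    rw [houts] at hrun
    have hm := machine_outputs P _ _ t hrun
    have hx : (encI I).length = I.n + 1 + 2 * (I.n * (I.n * I.n)) := by
      unfold encI
      rw [List.length_append, List.length_cons, List.length_append, encR_length, encR_length,
        List.length_replicate]
      ring
    have hle : t + 1 ≤ (R + 1).eval I.n +
        (((List.range k).map N).reverse).length * R.eval I.n := by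
      have e1 : R.eval I.n = q.eval ((encI I).length + (2 * (I.n * I.n) + 1)) := by
        rw [hR, Polynomial.eval_comp, hx]
        simp only [Polynomial.eval_add, Polynomial.eval_mul, Polynomial.eval_X,
          Polynomial.eval_one, Polynomial.eval_ofNat]
      rw [List.length_reverse, List.length_map, List.length_range, Polynomial.eval_add,
        Polynomial.eval_one, e1]
      have e2 : (k + 1) * q.eval ((encI I).length + (2 * (I.n * I.n) + 1)) =
        k * q.eval ((encI I).length + (2 * (I.n * I.n) + 1)) +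
          q.eval ((encI I).length + (2 * (I.n * I.n) + 1)) := by ring
      omega
    have hmono := outputs_mono hle hm
    have hmap : ∀ l : List Bool, List.map (Equiv.refl Bool).symm l = l := fun l => List.map_id l
    exact cast (congrArg₂ (fun x y => Nonempty (Turing.TM2OutputsInTime (machine P) x (some y)
      ((R + 1).eval I.n + (((List.range k).map N).reverse).length * R.eval I.n)))
      (hmap (encI I)).symm (hmap (encL (((List.range k).map N).reverse))).symm) hmono

end Pool.Agent.Lib.Wml
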