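import Pool.Agent.Lib.Wml.Alg

/-! MODULE Wml.FlashA: first and next code (`lst_spec`, `lst_le` are in Wsm.Tab).
`fill p` for `E p`, `p.length ≤ l`: length `l`, `E`, begins with `p`, and it is the least such list.
`nextC c`: the last position `i` with `c i = false` and `E (c.take i ++ [true])`. -/

set_option autoImplicit false

namespace Pool.Agent.Lib.Wml

open Finset Equiv Pool.Agent.Lib.Wsm

/-- `c` is before `c'` (lists of the same length) -/
def Lx (c c' : List Bool) : Prop :=
  ∃ i < c.length, c.take i = c'.take i ∧ c.getD i false = false ∧ c'.getD i false = true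

namespace FlashAAux

theorem take_succ_getD (c : List Bool) {i : ℕ} (h : i < c.length) :
    c.take (i + 1) = c.take i ++ [c.getD i false] := by
  rw [List.getD_eq_getElem _ _ h]
  exact List.take_succ_eq_append_getElem h

theorem E_take' (E : List Bool → Prop) (l : ℕ)
    (hE : ∀ p, p.length < l → (E p ↔ E (p ++ [false]) ∨ E (p ++ [true])))
    (c : List Bool) (hc : c.length = l) (h : E c) : ∀ k i, i + k = l → E (c.take i) := by
  intro k
  induction k with
  | zero =>
    intro i hi
    rw [List.take_of_length_le (by omega)]
    exact h
  | succ k ih =>
    intro i hi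
    have t := ih (i + 1) (by omega)
    rw [take_succ_getD c (by omega)] at t
    rw [hE (c.take i) (by rw [List.length_take]; omega)]
    cases hb : c.getD i false with
    | false => rw [hb] at t; exact Or.inl t
    | true => rw [hb] at t; exact Or.inr t

open Classical in
theorem fillN_spec (E : List Bool → Prop) (l : ℕ)
    (hE : ∀ p, p.length < l → (E p ↔ E (p ++ [false]) ∨ E (p ++ [true])))
    (p : List Bool) (hp : p.length ≤ l) (h : E p) :
    ∀ k, (fillN E l k p).length = min (p.length + k) l ∧ E (fillN E l k p) ∧
      (fillN E l k p).take p.length = p ∧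
      ∀ c' : List Bool, c'.length = l → E c' → c'.take p.length = p →
        c'.take (fillN E l k p).length = fillN E l k p ∨
        ∃ i < (fillN E l k p).length, (fillN E l k p).take i = c'.take i ∧
          (fillN E l k p).getD i false = false ∧ c'.getD i false = true := by
  intro k
  induction k with
  | zero =>
    refine ⟨?_, h, ?_, ?_⟩
    · show p.length = _
      omega
    · show p.take p.length = p
      exact List.take_length
    · intro c' h1 h2 h3
      exact Or.inl h3
  | succ k ih =>
    obtain ⟨a, b, c, d⟩ := ih
    have hf : fillN E l (k + 1) p = if (fillN E l k p).length < l then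
      (if E (fillN E l k p ++ [false]) then fillN E l k p ++ [false] else fillN E l k p ++ [true])
      else fillN E l k p := by
      simp only [fillN]
    generalize hq : fillN E l k p = q at *
    have hext : ∀ (x : Bool) (c' : List Bool), c'.length = l → E c' → c'.take p.length = p →
        q.length < l →
        (c'.take q.length = q → c'.getD q.length false = x ∨
          (x = false ∧ c'.getD q.length false = true)) →
        c'.take (q ++ [x]).length = q ++ [x] ∨
        ∃ i < (q ++ [x]).length, (q ++ [x]).take i = c'.take i ∧
          (q ++ [x]).getD i false = false ∧ c'.getD i false = true := by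
      intro x c' h1 h2 h3 h4 h5
      rcases d c' h1 h2 h3 with h6 | ⟨i, hi, h6, h7, h8⟩
      · rcases h5 h6 with h7 | ⟨h7, h8⟩
        · left
          rw [List.length_append, List.length_singleton, take_succ_getD c' (by omega), h6, h7]
        · right
          refine ⟨q.length, by simp, ?_, ?_, h8⟩
          · rw [List.take_left', h6]
            rfl
          · rw [List.getD_append_right _ _ _ _ le_rfl, Nat.sub_self, h7]
            rfl
      · right
        refine ⟨i, by rw [List.length_append]; omega, ?_, ?_, h8⟩
        · rw [List.take_append_of_le_length (by omega)]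
          exact h6
        · rw [List.getD_append _ _ _ _ hi]
          exact h7
    by_cases hl : q.length < l
    · rw [if_pos hl] at hf
      by_cases he : E (q ++ [false])
      · rw [if_pos he] at hf
        rw [hf]
        refine ⟨by rw [List.length_append, List.length_singleton]; omega, he, ?_, ?_⟩
        · rw [List.take_append_of_le_length (by omega)]
          exact c
        · intro c' h1 h2 h3
          refine hext false c' h1 h2 h3 hl ?_
          intro _
          cases c'.getD q.length false
          · exact Or.inl rfl
          · exact Or.inr ⟨rfl, rfl⟩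
      · rw [if_neg he] at hf
        rw [hf]
        have ht : E (q ++ [true]) := ((hE q hl).1 b).resolve_left he
        refine ⟨by rw [List.length_append, List.length_singleton]; omega, ht, ?_, ?_⟩
        · rw [List.take_append_of_le_length (by omega)]
          exact c
        · intro c' h1 h2 h3
          refine hext true c' h1 h2 h3 hl ?_
          intro h4
          left
          cases hb : c'.getD q.length false with
          | true => rfl
          | false =>
            exfalso
            apply he
            have t := E_take' E l hE c' h1 h2 (l - (q.length + 1)) (q.length + 1) (by omega)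
            rw [take_succ_getD c' (by omega), h4, hb] at t
            exact t
    · rw [if_neg hl] at hf
      rw [hf]
      exact ⟨by omega, b, c, d⟩

theorem fill_spec (E : List Bool → Prop) (l : ℕ)
    (hE : ∀ p, p.length < l → (E p ↔ E (p ++ [false]) ∨ E (p ++ [true])))
    (p : List Bool) (hp : p.length ≤ l) (h : E p) :
    (fill E l p).length = l ∧ E (fill E l p) ∧ (fill E l p).take p.length = p ∧
      ∀ c' : List Bool, c'.length = l → E c' → c'.take p.length = p →
        c' = fill E l p ∨ Lx (fill E l p) c' := by
  obtain ⟨a, b, c, d⟩ := fillN_spec E l hE p hp h l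
  have a' : (fill E l p).length = l := by
    show (fillN E l l p).length = l
    omega
  refine ⟨a', b, c, ?_⟩
  intro c' h1 h2 h3
  rcases d c' h1 h2 h3 with h4 | h4
  · left
    have : (fillN E l l p).length = l := a'
    rw [this, List.take_of_length_le (by omega)] at h4
    exact h4
  · exact Or.inr h4

end FlashAAux

open FlashAAux

variable (E : List Bool → Prop) (l : ℕ)

theorem first_nil (h : ¬ E []) : first E l = [] := by
  unfold first
  rw [if_neg h]

theorem first_spec (hE : ∀ p, p.length < l → (E p ↔ E (p ++ [false]) ∨ E (p ++ [true])))
    (h : E []) : ∃ c, first E l = true :: c ∧ c.length = l ∧ E c ∧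
      ∀ c', c'.length = l → E c' → c' = c ∨ Lx c c' := by
  obtain ⟨a, b, c, d⟩ := fill_spec E l hE [] (Nat.zero_le _) h
  refine ⟨fill E l [], ?_, a, b, fun c' h1 h2 => d c' h1 h2 (by simp)⟩
  unfold first
  rw [if_pos h]

/-- beginnings of solutions satisfy `E` -/
theorem E_take (hE : ∀ p, p.length < l → (E p ↔ E (p ++ [false]) ∨ E (p ++ [true])))
    (c : List Bool) (hc : c.length = l) (h : E c) (i : ℕ) : E (c.take i) := by
  by_cases hi : i ≤ l
  · exact E_take' E l hE c hc h (l - i) i (by omega)
  · rw [List.take_of_length_le (by omega)]
    exact h

theorem next_spec (hE : ∀ p, p.length < l → (E p ↔ E (p ++ [false]) ∨ E (p ++ [true])))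
    (c : List Bool) (hc : c.length = l) (h : E c) :
    (nextC E l c = [] ∧ ∀ c', c'.length = l → E c' → ¬ Lx c c') ∨
    ∃ c', nextC E l c = true :: c' ∧ c'.length = l ∧ E c' ∧ Lx c c' ∧
      ∀ c'', c''.length = l → E c'' → Lx c c'' → c'' = c' ∨ Lx c' c'' := by
  have hchg : ∀ c', c'.length = l → E c' → ∀ j < c.length, c.take j = c'.take j →
      c.getD j false = false → c'.getD j false = true → Chg E c j := by
    intro c' h1 h2 j hj h3 h4 h5
    refine ⟨h4, ?_⟩
    have t := E_take E l hE c' h1 h2 (j + 1)
    rw [take_succ_getD c' (by omega), h5, ← h3] at t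
    exact t
  by_cases hex : ∃ i ∈ range l, Chg E c i
  · right
    have hn : nextC E l c = true :: fill E l (c.take (l - 1 - lastC E l c) ++ [true]) := by
      unfold nextC
      rw [if_pos hex]
    obtain ⟨k1, k2, k3⟩ := lst_spec (n := l)
      (P := fun e => ∃ i ∈ range l, i + e + 1 = l ∧ Chg E c i) (by
        obtain ⟨i, hi, hi'⟩ := hex
        rw [Finset.mem_range] at hi
        exact ⟨l - 1 - i, by omega, i, by rw [Finset.mem_range]; exact hi, by omega, hi'⟩)
    have hl : lastC E l c = lst l (fun e => ∃ i ∈ range l, i + e + 1 = l ∧ Chg E c i) := rfl
    rw [← hl] at k1 k2 k3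
    obtain ⟨i0, hi0, e0, hch⟩ := k2
    rw [Finset.mem_range] at hi0
    have ei : l - 1 - lastC E l c = i0 := by omega
    rw [ei] at hn
    have hlast : ∀ j, j < l → Chg E c j → j ≤ i0 := by
      intro j hj hj'
      by_contra hlt
      exact k3 (l - 1 - j) (by omega) ⟨j, by rw [Finset.mem_range]; exact hj, by omega, hj'⟩
    have hpl : (c.take i0 ++ [true]).length = i0 + 1 := by
      rw [List.length_append, List.length_take, List.length_singleton]
      omega
    obtain ⟨a, b, d, e⟩ := fill_spec E l hE (c.take i0 ++ [true]) (by omega) hch.2
    rw [hpl] at d e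
    generalize hg : fill E l (c.take i0 ++ [true]) = g at *
    have htg : g.take (i0 + 1) = g.take i0 ++ [g.getD i0 false] := take_succ_getD g (by omega)
    rw [htg] at d
    have hd := List.append_inj' d rfl
    have hd1 : g.take i0 = c.take i0 := hd.1
    have hd2 : g.getD i0 false = true := by
      have := hd.2
      simpa using this
    refine ⟨g, hn, a, b, ⟨i0, by omega, hd1.symm, hch.1, hd2⟩, ?_⟩
    intro c'' h1 h2 h3
    obtain ⟨j, hj, h4, h5, h6⟩ := h3
    have hj0 := hlast j (by omega) (hchg c'' h1 h2 j hj h4 h5 h6)
    rcases Nat.lt_or_ge j i0 with hlt | hge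
    · right
      refine ⟨j, by omega, ?_, ?_, h6⟩
      · have := congrArg (List.take j) hd1
        rw [List.take_take, List.take_take, Nat.min_eq_left (by omega)] at this
        rw [this, h4]
      · have t1 : (g.take i0).getD j false = g.getD j false := by
          rw [List.getD_eq_getElem _ _ (by rw [List.length_take]; omega),
            List.getD_eq_getElem _ _ (by omega), List.getElem_take]
        have t2 : (c.take i0).getD j false = c.getD j false := by
          rw [List.getD_eq_getElem _ _ (by rw [List.length_take]; omega),
            List.getD_eq_getElem _ _ (by omega), List.getElem_take]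
        rw [← t1, hd1, t2]
        exact h5
    · have hjj : j = i0 := by omega
      subst hjj
      apply e c'' h1 h2
      rw [take_succ_getD c'' (by omega), h6, ← h4]
  · left
    refine ⟨?_, ?_⟩
    · unfold nextC
      rw [if_neg hex]
    · intro c' h1 h2 h3
      obtain ⟨j, hj, h4, h5, h6⟩ := h3
      exact hex ⟨j, by rw [Finset.mem_range]; omega, hchg c' h1 h2 j hj h4 h5 h6⟩

end Pool.Agent.Lib.Wml
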