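import Pool.Agent.Lib.Wml.Core0

/-! MODULE Wml.Lev: levels and positions. Prove all; auxiliary lemmas in namespace `LevAux`. -/

set_option autoImplicit false

namespace Pool.Agent.Lib.Wml

open Finset Equiv

variable {n : ℕ} (rP : Fin n → ℕ)

theorem lvF_lt_n (w : Fin n) : lvF rP w < n := by
  unfold lvF
  have h1 : (univ.filter fun v => rP v < rP w) ⊆ univ.erase w := by
    intro v hv
    rw [Finset.mem_filter] at hv
    rw [Finset.mem_erase]
    refine ⟨?_, Finset.mem_univ _⟩
    rintro rfl
    exact lt_irrefl _ hv.2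
  have h2 := Finset.card_le_card h1
  rw [Finset.card_erase_of_mem (Finset.mem_univ _), Finset.card_fin] at h2
  have := w.2
  omega

theorem lvF_lt_iff (v w : Fin n) : lvF rP v < lvF rP w ↔ rP v < rP w := by
  constructor
  · intro h
    by_contra hn
    push Not at hn
    have : lvF rP w ≤ lvF rP v := by
      unfold lvF
      apply Finset.card_le_card
      intro x hx
      rw [Finset.mem_filter] at hx ⊢
      exact ⟨hx.1, lt_of_lt_of_le hx.2 hn⟩
    omega
  · intro h
    unfold lvF
    apply Finset.card_lt_card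
    rw [Finset.ssubset_iff_of_subset]
    · refine ⟨v, ?_, ?_⟩
      · rw [Finset.mem_filter]; exact ⟨Finset.mem_univ _, h⟩
      · rw [Finset.mem_filter]; rintro ⟨-, h2⟩; exact lt_irrefl _ h2
    · intro x hx
      rw [Finset.mem_filter] at hx ⊢
      exact ⟨hx.1, hx.2.trans h⟩

theorem clF_le (t : ℕ) : clF rP t ≤ t := by
  unfold clF
  apply Finset.sup_le
  intro w hw
  exact (Finset.mem_filter.1 hw).2

namespace LevAux

theorem ex_zero (h : 0 < n) : ∃ w, lvF rP w = 0 := by
  have hne : (univ : Finset (Fin n)).Nonempty := ⟨⟨0, h⟩, Finset.mem_univ _⟩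
  obtain ⟨w, -, hw⟩ := Finset.exists_min_image univ rP hne
  refine ⟨w, ?_⟩
  unfold lvF
  rw [Finset.card_eq_zero, Finset.filter_eq_empty_iff]
  intro v _
  exact not_lt.2 (hw v (Finset.mem_univ _))

end LevAux

theorem clF_mem (t : ℕ) (ht : t < n) : ∃ w, lvF rP w = clF rP t := by
  obtain ⟨w0, hw0⟩ := LevAux.ex_zero rP (by omega : 0 < n)
  have hne : (univ.filter fun w => lvF rP w ≤ t).Nonempty :=
    ⟨w0, by rw [Finset.mem_filter]; exact ⟨Finset.mem_univ _, by omega⟩⟩
  obtain ⟨w, -, hw⟩ := Finset.exists_mem_eq_sup _ hne (lvF rP)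
  exact ⟨w, hw.symm⟩

theorem clF_lt_n (t : ℕ) (ht : t < n) : clF rP t < n := lt_of_le_of_lt (clF_le rP t) ht

theorem le_clF {w : Fin n} {t : ℕ} (h : lvF rP w ≤ t) : lvF rP w ≤ clF rP t := by
  unfold clF
  exact Finset.le_sup (f := lvF rP) (by rw [Finset.mem_filter]; exact ⟨Finset.mem_univ _, h⟩)

theorem clF_mono {s t : ℕ} (h : s ≤ t) : clF rP s ≤ clF rP t := by
  unfold clF
  apply Finset.sup_mono
  intro w hw
  rw [Finset.mem_filter] at hw ⊢
  exact ⟨hw.1, hw.2.trans h⟩

/-- positions of a class -/
theorem clF_eq {s t : ℕ} (h1 : clF rP t ≤ s) (h2 : s ≤ t) : clF rP s = clF rP t := by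
  apply le_antisymm (clF_mono rP h2)
  have : clF rP (clF rP t) ≤ clF rP s := clF_mono rP h1
  refine le_trans ?_ this
  conv_lhs => unfold clF
  apply Finset.sup_le
  intro w hw
  exact le_clF rP (le_clF rP (Finset.mem_filter.1 hw).2)

/-- number of women before a class -/
theorem card_lt_clF (t : ℕ) (ht : t < n) :
    (univ.filter fun w => lvF rP w < clF rP t).card = clF rP t := by
  obtain ⟨w, hw⟩ := clF_mem rP t ht
  rw [← hw]
  conv_rhs => unfold lvF
  congr 1
  ext v
  rw [Finset.mem_filter, Finset.mem_filter, lvF_lt_iff]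

/-- a position is inside its class -/
theorem lt_card (t : ℕ) (ht : t < n) :
    t < clF rP t + (univ.filter fun w => lvF rP w = clF rP t).card := by
  classical
  have h0 := card_lt_clF rP t ht
  have h1 : (univ.filter fun w => lvF rP w ≤ clF rP t) =
      (univ.filter fun w => lvF rP w < clF rP t) ∪ (univ.filter fun w => lvF rP w = clF rP t) := by
    ext w
    simp only [Finset.mem_union, Finset.mem_filter, Finset.mem_univ, true_and]
    omega
  have h2 : (univ.filter fun w => lvF rP w ≤ clF rP t).card =
      clF rP t + (univ.filter fun w => lvF rP w = clF rP t).card := by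
    rw [h1, Finset.card_union_of_disjoint, h0]
    rw [Finset.disjoint_left]
    intro w hw hw'
    rw [Finset.mem_filter] at hw hw'
    omega
  rw [← h2]
  by_cases hex : ∃ w, clF rP t < lvF rP w
  · have hne : (univ.filter fun w => clF rP t < lvF rP w).Nonempty := by
      obtain ⟨w, hw⟩ := hex
      exact ⟨w, by rw [Finset.mem_filter]; exact ⟨Finset.mem_univ _, hw⟩⟩
    obtain ⟨w, hw, hmin⟩ := Finset.exists_min_image _ (lvF rP) hne
    rw [Finset.mem_filter] at hw
    have h3 : t < lvF rP w := by
      by_contra hn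
      push Not at hn
      have := le_clF rP hn
      omega
    have h4 : (univ.filter fun v => rP v < rP w) ⊆ (univ.filter fun w => lvF rP w ≤ clF rP t) := by
      intro v hv
      rw [Finset.mem_filter] at hv ⊢
      refine ⟨Finset.mem_univ _, ?_⟩
      by_contra hn
      push Not at hn
      have h5 := hmin v (by rw [Finset.mem_filter]; exact ⟨Finset.mem_univ _, hn⟩)
      have h6 := (lvF_lt_iff rP v w).2 hv.2
      omega
    have h5 := Finset.card_le_card h4
    have h6 : (univ.filter fun v => rP v < rP w).card = lvF rP w := rfl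
    omega
  · push Not at hex
    have : (univ.filter fun w => lvF rP w ≤ clF rP t) = univ := by
      rw [Finset.filter_eq_self]
      intro w _
      exact hex w
    rw [this, Finset.card_fin]
    exact ht

end Pool.Agent.Lib.Wml
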