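import Pool.Agent.Lib.Wml.Alg
import Pool.Agent.Lib.Wsm.PTab

/-! MODULE Wml.PAuc: the auction in polynomial time.  As `poly_rejT` in Lib/Wsm/PNext.lean:
`PolyC.natRec` with `F a k = auc (n a) (G a) k` (length `2 * n * n`), step `poly_mk2`, `b_ofP`, `PolyP.*`,
`poly_g2`.  The graph `G` is written into a table first: only the values `x, w < n` matter. -/

set_option autoImplicit false

namespace Pool.Agent.Lib.Wml

open Finset Equiv Pool.Agent.Lib.PolyTime Pool.Agent.Lib.Pa7c826 Pool.Agent.Lib.P8e91ed.PT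
open Pool.Agent.Lib.Wsm

variable {α : Type*} {D : α → Prop} {ctx : List (α → List Bool)}

namespace PAucAux

section congr

variable {n : ℕ} {G G' : ℕ → ℕ → Prop} (hG : ∀ x < n, ∀ w < n, (G x w ↔ G' x w))
include hG

theorem free_congr (T : List Bool) {x : ℕ} (hx : x < n) : FreeB n G T x ↔ FreeB n G' T x := by
  unfold FreeB
  refine and_congr Iff.rfl (exists_congr fun w => and_congr_right fun hw => ?_)
  rw [hG x hx w (mem_range.1 hw)]

theorem sel_congr (T : List Bool) {x : ℕ} (hx : x < n) : SelB n G T x ↔ SelB n G' T x := by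
  unfold SelB
  rw [free_congr hG T hx]
  refine and_congr Iff.rfl (forall_congr' fun x' => forall_congr' fun h => ?_)
  rw [free_congr hG T ((mem_range.1 h).trans hx)]

theorem tgt_congr (T : List Bool) {x w : ℕ} (hx : x < n) (hw : w < n) :
    Tgt n G T x w ↔ Tgt n G' T x w := by
  unfold Tgt
  rw [hG x hx w hw]
  refine and_congr Iff.rfl (and_congr Iff.rfl (forall_congr' fun w' => forall_congr' fun h => ?_))
  rw [hG x hx w' (mem_range.1 h)]

theorem bid_congr (T : List Bool) {w : ℕ} (hw : w < n) : Bid n G T w ↔ Bid n G' T w := by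
  unfold Bid
  refine exists_congr fun x => and_congr_right fun h => ?_
  rw [sel_congr hG T (mem_range.1 h), tgt_congr hG T (mem_range.1 h) hw]

theorem nx_congr (T : List Bool) {i j : ℕ} (hj : j < n) : NX n G T i j ↔ NX n G' T i j := by
  unfold NX
  refine or_congr
    (exists_congr fun w => and_congr_right fun h => and_congr_right fun _ => ?_)
    (exists_congr fun w => and_congr_right fun h => and_congr_right fun _ => ?_)
  · rw [sel_congr hG T hj, tgt_congr hG T hj (mem_range.1 h), bid_congr hG T (mem_range.1 h)]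
  · rw [bid_congr hG T (mem_range.1 h)]

theorem auc_congr (k : ℕ) : auc n G k = auc n G' k := by
  induction k with
  | zero => rw [auc, auc]
  | succ k ih =>
    rw [auc, auc, ih]
    apply mk2_congr
    intro i hi j hj
    exact decide_eq_decide.2 (nx_congr hG _ hj)

theorem hasPM_congr : hasPM n G ↔ hasPM n G' := by
  unfold hasPM
  rw [auc_congr hG]

end congr

/-- the graph of a table -/
def TG (n : ℕ) (t : List Bool) (x w : ℕ) : Prop := g2 n t x w = true

/-- the size, the graph and the state are computable -/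
structure AD {α : Type*} (D : α → Prop) (ctx : List (α → List Bool)) (n : α → ℕ)
    (tG T : α → List Bool) : Prop where
  n : PolyN D ctx n
  G : PolyC D ctx tG
  T : PolyC D ctx T

variable {n : α → ℕ} {tG T : α → List Bool}

theorem AD.up (h : AD D ctx n tG T) {m : α → ℕ} :
    AD (Dx D m) (cx ctx) (fun p => n p.1) (fun p => tG p.1) (fun p => T p.1) :=
  ⟨nU h.n, cU h.G, cU h.T⟩

theorem pF {φ : α → Bool} (h : PolyB D ctx φ) : PolyP D ctx (fun a => φ a = false) :=
  (PolyP.ofB h).not.congr (fun a _ => by simp)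

theorem pG (h : AD D ctx n tG T) {x w : α → ℕ} (hx : PolyN D ctx x) (hw : PolyN D ctx w) :
    PolyP D ctx (fun a => TG (n a) (tG a) (x a) (w a)) :=
  PolyP.ofB (poly_g2 h.n h.G hx hw)

theorem pPrLe (h : AD D ctx n tG T) {w w' : α → ℕ} (hw : PolyN D ctx w) (hw' : PolyN D ctx w') :
    PolyP D ctx (fun a => PrLe (n a) (T a) (w a) (w' a)) :=
  PolyP.forall_range (P := fun a j => g2 (n a) (T a) (n a + w a) j = true →
    g2 (n a) (T a) (n a + w' a) j = true) h.n
    ((PolyP.ofB (poly_g2 h.up.n h.up.T (h.up.n.add (nU hw)) nL)).imp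
      (PolyP.ofB (poly_g2 h.up.n h.up.T (h.up.n.add (nU hw')) nL)))

theorem pAff (h : AD D ctx n tG T) {w : α → ℕ} (hw : PolyN D ctx w) :
    PolyP D ctx (fun a => Aff (n a) (T a) (w a)) :=
  PolyP.exists_range (P := fun a j => g2 (n a) (T a) (n a + w a) j = false) h.n
    (pF (poly_g2 h.up.n h.up.T (h.up.n.add (nU hw)) nL))

theorem pFree (h : AD D ctx n tG T) {x : α → ℕ} (hx : PolyN D ctx x) :
    PolyP D ctx (fun a => FreeB (n a) (TG (n a) (tG a)) (T a) (x a)) :=
  (PolyP.forall_range (P := fun a w => g2 (n a) (T a) w (x a) = false) h.n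
    (pF (poly_g2 h.up.n h.up.T nL (nU hx)))).and
  (PolyP.exists_range (P := fun a w => TG (n a) (tG a) (x a) w ∧ Aff (n a) (T a) w) h.n
    ((pG h.up (nU hx) nL).and (pAff h.up nL)))

theorem pSel (h : AD D ctx n tG T) {x : α → ℕ} (hx : PolyN D ctx x) :
    PolyP D ctx (fun a => SelB (n a) (TG (n a) (tG a)) (T a) (x a)) :=
  (pFree h hx).and
  (PolyP.forall_range (P := fun a x' => ¬ FreeB (n a) (TG (n a) (tG a)) (T a) x') hx
    (pFree h.up nL).not)

theorem pTgt (h : AD D ctx n tG T) {x w : α → ℕ} (hx : PolyN D ctx x) (hw : PolyN D ctx w) :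
    PolyP D ctx (fun a => Tgt (n a) (TG (n a) (tG a)) (T a) (x a) (w a)) :=
  (pG h hx hw).and ((pAff h hw).and
  (PolyP.forall_range (P := fun a w' => TG (n a) (tG a) (x a) w' →
      PrLe (n a) (T a) (w a) w' ∧ (PrLe (n a) (T a) w' (w a) → w a ≤ w')) h.n
    ((pG h.up (nU hx) nL).imp ((pPrLe h.up (nU hw) nL).and
      ((pPrLe h.up nL (nU hw)).imp (PolyP.le (nU hw) nL))))))

theorem pBid (h : AD D ctx n tG T) {w : α → ℕ} (hw : PolyN D ctx w) :
    PolyP D ctx (fun a => Bid (n a) (TG (n a) (tG a)) (T a) (w a)) :=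
  PolyP.exists_range (P := fun a x => SelB (n a) (TG (n a) (tG a)) (T a) x ∧
      Tgt (n a) (TG (n a) (tG a)) (T a) x (w a)) h.n
    ((pSel h.up nL).and (pTgt h.up nL (nU hw)))

theorem pNX (h : AD D ctx n tG T) {i j : α → ℕ} (hi : PolyN D ctx i) (hj : PolyN D ctx j) :
    PolyP D ctx (fun a => NX (n a) (TG (n a) (tG a)) (T a) (i a) (j a)) :=
  (PolyP.exists_range (P := fun a w => i a = w ∧
      ((SelB (n a) (TG (n a) (tG a)) (T a) (j a) ∧ Tgt (n a) (TG (n a) (tG a)) (T a) (j a) w) ∨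
        (g2 (n a) (T a) w (j a) = true ∧ ¬ Bid (n a) (TG (n a) (tG a)) (T a) w))) h.n
    ((PolyP.eq (nU hi) nL).and
      (((pSel h.up (nU hj)).and (pTgt h.up (nU hj) nL)).or
        ((PolyP.ofB (poly_g2 h.up.n h.up.T nL (nU hj))).and (pBid h.up nL).not)))).or
  (PolyP.exists_range (P := fun a w => i a = n a + w ∧
      (g2 (n a) (T a) (n a + w) (j a) = true ∨ (Bid (n a) (TG (n a) (tG a)) (T a) w ∧
        ∀ j' ∈ range (j a), g2 (n a) (T a) (n a + w) j' = true))) h.n
    ((PolyP.eq (nU hi) (h.up.n.add nL)).and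
      ((PolyP.ofB (poly_g2 h.up.n h.up.T (h.up.n.add nL) (nU hj))).or
        ((pBid h.up nL).and
          (PolyP.forall_range (P := fun (p : α × ℕ) j' =>
              g2 (n p.1) (T p.1) (n p.1 + p.2) j' = true) (nU hj)
            (PolyP.ofB (poly_g2 h.up.up.n h.up.up.T (h.up.up.n.add (nU nL)) nL)))))))

theorem auc_length (n : ℕ) (G : ℕ → ℕ → Prop) (k : ℕ) : (auc n G k).length = 2 * n * n := by
  cases k with
  | zero => rw [auc, mk2_length]
  | succ k => rw [auc, mk2_length]

theorem poly_auc (hn : PolyN D ctx n) (hG : PolyC D ctx tG) {s : α → ℕ} (hs : PolyN D ctx s) :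
    PolyC D ctx (fun a => auc (n a) (TG (n a) (tG a)) (s a)) := by
  obtain ⟨pn, hpn⟩ := PolyC.length_le hn
  refine PolyC.natRec (fun a k => auc (n a) (TG (n a) (tG a)) k) hs ?_ ?_
    ⟨2 * pn * pn, fun a ha k hk => ?_⟩
  · have h2 : PolyN D ctx (fun a => 2 * n a) := (PolyN.const 2).mul hn
    exact (poly_mk2 (f := fun _ _ _ => false) h2 hn (PolyB.const false)).congr
      (fun a _ => by rw [auc])
  · have hE : ∀ p : α × ℕ, (D p.1 ∧ p.2 < s p.1) → D p.1 := fun p hp => hp.1
    have hA : AD (fun p : α × ℕ => D p.1 ∧ p.2 < s p.1)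
        (PolyTime.lift ctx ++ [fun p => un p.2, fun p => auc (n p.1) (TG (n p.1) (tG p.1)) p.2])
        (fun p => n p.1) (fun p => tG p.1) (fun p => auc (n p.1) (TG (n p.1) (tG p.1)) p.2) :=
      ⟨cWeak hn hE _, cWeak hG hE _, PolyC.var (by simp)⟩
    revert hA
    generalize (PolyTime.lift ctx ++ [fun p : α × ℕ => un p.2,
      fun p => auc (n p.1) (TG (n p.1) (tG p.1)) p.2]) = ctx'
    intro hA
    classical
    refine PolyC.congr (poly_mk2 (r := fun p : α × ℕ => 2 * n p.1) (n := fun p : α × ℕ => n p.1)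
      (f := fun (p : α × ℕ) i j => decide (NX (n p.1) (TG (n p.1) (tG p.1))
        (auc (n p.1) (TG (n p.1) (tG p.1)) p.2) i j)) ((PolyN.const 2).mul hA.n) hA.n ?_)
      (fun p _ => ?_)
    · exact b_ofP (pNX (n := fun q : ((α × ℕ) × ℕ) × ℕ => n q.1.1.1) hA.up.up (nU nL) nL)
    · rw [auc]
  · rw [auc_length]
    have h2 := hpn a ha
    rw [un_length] at h2
    rw [Polynomial.eval_mul, Polynomial.eval_mul, Polynomial.eval_ofNat]
    exact Nat.mul_le_mul (Nat.mul_le_mul le_rfl h2) h2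

end PAucAux

open PAucAux

theorem poly_hasPM {n : α → ℕ} {G : α → ℕ → ℕ → Prop} (hn : PolyN D ctx n)
    (hG : PolyP (Dx (Dx D n) (fun q => n q.1)) (cx (cx ctx)) (fun q => G q.1.1 q.1.2 q.2)) :
    PolyP D ctx (fun a => hasPM (n a) (G a)) := by
  classical
  have ht : PolyC D ctx (fun a => mk2 (n a) (n a) (fun x w => decide (G a x w))) :=
    poly_mk2 (f := fun a x w => decide (G a x w)) hn hn (b_ofP hG)
  have hT := poly_auc hn ht (hn.mul hn)
  refine PolyP.congr (P := fun a => hasPM (n a) (TG (n a)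
    (mk2 (n a) (n a) (fun x w => decide (G a x w))))) ?_ (fun a _ => ?_)
  · exact PolyP.forall_range (P := fun a x => ∃ w ∈ range (n a), g2 (n a) (auc (n a) (TG (n a)
        (mk2 (n a) (n a) (fun x w => decide (G a x w)))) (n a * n a)) w x = true) hn
      (PolyP.exists_range (P := fun (p : α × ℕ) w => g2 (n p.1) (auc (n p.1) (TG (n p.1)
        (mk2 (n p.1) (n p.1) (fun x w => decide (G p.1 x w)))) (n p.1 * n p.1)) w p.2 = true)
        (nU hn) (PolyP.ofB (poly_g2 (nU (nU hn)) (cU (cU hT)) nL (nU nL))))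
  · apply hasPM_congr
    intro x hx w hw
    unfold TG
    rw [g2_mk2 hx hw, decide_eq_true_eq]

end Pool.Agent.Lib.Wml
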